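import Pool.Agent.H79.Asc.Hyp2

set_option autoImplicit false

open scoped Pointwise commutatorElement

namespace Pool.Agent.H79.Asc

theorem exists_free_quot (M : Type*) [AddCommGroup M] [Module.Finite ℤ M] :
    ∃ (n : ℕ) (q : M →ₗ[ℤ] (Fin n → ℤ)), Function.Surjective q ∧
      ∀ x, q x = 0 → ∃ k : ℕ, 1 ≤ k ∧ k • x = 0 := by
  have : Module.Finite ℤ (M ⧸ Submodule.torsion ℤ M) := inferInstance
  have : Module.Free ℤ (M ⧸ Submodule.torsion ℤ M) := inferInstance
  let b := Module.finBasis ℤ (M ⧸ Submodule.torsion ℤ M)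
  refine ⟨_, b.equivFun.toLinearMap.comp (Submodule.mkQ (Submodule.torsion ℤ M)), ?_, ?_⟩
  · intro y
    obtain ⟨x, hx⟩ := Submodule.mkQ_surjective (Submodule.torsion ℤ M) (b.equivFun.symm y)
    refine ⟨x, ?_⟩
    rw [LinearMap.comp_apply, hx]
    exact LinearEquiv.apply_symm_apply _ _
  · intro x hx
    rw [LinearMap.comp_apply] at hx
    have h1 : (Submodule.mkQ (Submodule.torsion ℤ M)) x = 0 :=
      (LinearEquiv.map_eq_zero_iff b.equivFun).1 hx
    rw [Submodule.mkQ_apply, Submodule.Quotient.mk_eq_zero, Submodule.mem_torsion_iff] at h1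
    obtain ⟨a, ha⟩ := h1
    have ha0 : (a : ℤ) ≠ 0 := nonZeroDivisors.coe_ne_zero a
    have ha' : (a : ℤ) • x = 0 := ha
    refine ⟨(a : ℤ).natAbs, Int.natAbs_pos.2 ha0, ?_⟩
    rcases Int.natAbs_eq (a : ℤ) with h | h
    · rw [← natCast_zsmul, ← h]; exact ha'
    · rw [← natCast_zsmul]
      have : (((a : ℤ).natAbs : ℕ) : ℤ) = -(a : ℤ) := by omega
      rw [this, neg_smul, ha', neg_zero]

section
variable {G : Type*} [Group G]

/-- abelian quotient data -/
theorem abquot {K E : Subgroup G} (hKE : K ≤ E) (hcomm : ⁅E, E⁆ ≤ K)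
    (hfg : ∃ S : Finset G, E = Subgroup.closure (S : Set G) ⊔ K) :
    ∃ (n : ℕ) (q : E → (Fin n → ℤ)), (∀ a b, q (a * b) = q a + q b) ∧ Function.Surjective q ∧
      (∀ a : E, (a : G) ∈ K → q a = 0) ∧
      (∀ a : E, q a = 0 → ∃ k : ℕ, 1 ≤ k ∧ (a : G) ^ k ∈ K) ∧
      (n = 0 → K.relIndex E ≠ 0) := by
  classical
  let N := K.subgroupOf E
  have hN : N.Normal := by
    refine ⟨fun n hn g => ?_⟩
    rw [Subgroup.mem_subgroupOf] at hn ⊢
    exact conj_mem_of_comm hcomm hKE g.2 _ hn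
  let _ : CommGroup (E ⧸ N) :=
    { QuotientGroup.Quotient.group N with
      mul_comm := by
        intro a b
        induction a using QuotientGroup.induction_on with
        | H x =>
        induction b using QuotientGroup.induction_on with
        | H y =>
        rw [← QuotientGroup.mk_mul, ← QuotientGroup.mk_mul, QuotientGroup.eq,
          Subgroup.mem_subgroupOf]
        have h1 : ⁅(y : G)⁻¹, (x : G)⁻¹⁆ ∈ K :=
          hcomm (Subgroup.commutator_mem_commutator (E.inv_mem y.2) (E.inv_mem x.2))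
        have e : ((((x * y)⁻¹ * (y * x) : E)) : G) = ⁅(y : G)⁻¹, (x : G)⁻¹⁆ := by
          simp only [Subgroup.coe_mul, Subgroup.coe_inv, commutatorElement_def]; group
        rw [e]; exact h1 }
  obtain ⟨S, hS⟩ := hfg
  have hSE : ∀ s ∈ S, s ∈ E := fun s hs => by
    rw [hS]; exact Subgroup.mem_sup_left (Subgroup.subset_closure hs)
  let S' : Finset (E ⧸ N) := S.attach.image fun s => QuotientGroup.mk (⟨s.1, hSE s.1 s.2⟩ : E)
  have hgen : Subgroup.closure (S' : Set (E ⧸ N)) = ⊤ := by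
    have hcl : E = Subgroup.closure ((S : Set G) ∪ K) := by
      rw [Subgroup.closure_union, Subgroup.closure_eq]; exact hS
    have key : ∀ x ∈ Subgroup.closure ((S : Set G) ∪ K), ∀ h : x ∈ E,
        (QuotientGroup.mk (⟨x, h⟩ : E) : E ⧸ N) ∈ Subgroup.closure (S' : Set (E ⧸ N)) := by
      intro x hx
      induction hx using Subgroup.closure_induction with
      | mem x hx =>
        intro h
        rcases hx with hx | hx
        · apply Subgroup.subset_closure
          simp only [S', Finset.coe_image, Set.mem_image]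
          exact ⟨⟨x, hx⟩, by simp, rfl⟩
        · have : (QuotientGroup.mk (⟨x, h⟩ : E) : E ⧸ N) = 1 := by
            rw [QuotientGroup.eq_one_iff, Subgroup.mem_subgroupOf]
            exact hx
          rw [this]; exact Subgroup.one_mem _
      | one =>
        intro h
        exact Subgroup.one_mem _
      | mul x y hx hy ihx ihy =>
        intro h
        have hxE : x ∈ E := by rw [hcl]; exact hx
        have hyE : y ∈ E := by rw [hcl]; exact hy
        have := Subgroup.mul_mem _ (ihx hxE) (ihy hyE)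
        rwa [← QuotientGroup.mk_mul] at this
      | inv x hx ihx =>
        intro h
        have hxE : x ∈ E := by rw [hcl]; exact hx
        have := Subgroup.inv_mem _ (ihx hxE)
        rwa [← QuotientGroup.mk_inv] at this
    rw [eq_top_iff]
    intro a _
    induction a using QuotientGroup.induction_on with
    | H x => exact key x (by rw [← hcl]; exact x.2) x.2
  have hFG : Group.FG (E ⧸ N) := by
    rw [Group.fg_def]
    exact ⟨S', hgen⟩
  have : Module.Finite ℤ (Additive (E ⧸ N)) := by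
    rw [Module.Finite.iff_addGroup_fg]
    infer_instance
  obtain ⟨n, q, hq, hq0⟩ := exists_free_quot (Additive (E ⧸ N))
  have hq0' : ∀ a : E, q (Additive.ofMul (QuotientGroup.mk a)) = 0 →
      ∃ k : ℕ, 1 ≤ k ∧ (a : G) ^ k ∈ K := by
    intro a ha
    obtain ⟨k, hk, h1⟩ := hq0 _ ha
    refine ⟨k, hk, ?_⟩
    rw [← ofMul_pow, ofMul_eq_zero, ← QuotientGroup.mk_pow, QuotientGroup.eq_one_iff,
      Subgroup.mem_subgroupOf] at h1
    simpa using h1
  refine ⟨n, fun a => q (Additive.ofMul (QuotientGroup.mk a)), ?_, ?_, ?_, hq0', ?_⟩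
  · intro a b
    simp only
    rw [QuotientGroup.mk_mul, ofMul_mul, map_add]
  · intro v
    obtain ⟨x, hx⟩ := hq v
    obtain ⟨a, ha⟩ := QuotientGroup.mk_surjective (x.toMul)
    refine ⟨a, ?_⟩
    simp only
    rw [ha]; exact hx
  · intro a ha
    have : (QuotientGroup.mk a : E ⧸ N) = 1 := by
      rw [QuotientGroup.eq_one_iff, Subgroup.mem_subgroupOf]; exact ha
    simp only
    rw [this, ofMul_one, map_zero]
  · intro hn
    subst hn
    have htor : IsMulTorsion (E ⧸ N) := by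
      intro x
      obtain ⟨k, hk, h1⟩ := hq0 (Additive.ofMul x) (Subsingleton.elim _ _)
      rw [isOfFinOrder_iff_pow_eq_one]
      refine ⟨k, hk, ?_⟩
      rwa [← ofMul_pow, ofMul_eq_zero] at h1
    have hfin : Finite (E ⧸ N) := CommGroup.finite_of_fg_isMulTorsion _ htor
    have : N.FiniteIndex := Subgroup.finiteIndex_of_finite_quotient
    exact this.index_ne_zero

/-- abelian quotient data, as a `Pos` structure -/
theorem exists_pos {K E : Subgroup G} (hKE : K ≤ E) (hcomm : ⁅E, E⁆ ≤ K)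
    (hfg : ∃ S : Finset G, E = Subgroup.closure (S : Set G) ⊔ K) :
    ∃ (n : ℕ) (L : Subgroup G) (_ : Pos E L n), K ≤ L ∧ (∀ a ∈ L, ∃ k : ℕ, 1 ≤ k ∧ a ^ k ∈ K) ∧
      (n = 0 → K.relIndex E ≠ 0) := by
  classical
  obtain ⟨n, q, hq1, hq2, hq3, hq4, hq5⟩ := abquot hKE hcomm hfg
  let f : G → (Fin n → ℤ) := fun g => if h : g ∈ E then q ⟨g, h⟩ else 0
  have hf : ∀ a (h : a ∈ E), f a = q ⟨a, h⟩ := fun a h => by simp only [f, dif_pos h]
  have hq0 : q 1 = 0 := by
    have := hq1 1 1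
    rw [mul_one] at this
    exact left_eq_add.1 this
  have hmul : ∀ a ∈ E, ∀ b ∈ E, f (a * b) = f a + f b := by
    intro a ha b hb
    rw [hf a ha, hf b hb, hf _ (E.mul_mem ha hb), ← hq1]
    rfl
  have h1 : f 1 = 0 := by rw [hf 1 E.one_mem]; exact hq0
  let L : Subgroup G :=
    { carrier := {g | g ∈ E ∧ f g = 0}
      one_mem' := ⟨E.one_mem, h1⟩
      mul_mem' := by
        rintro a b ⟨ha, ha'⟩ ⟨hb, hb'⟩
        exact ⟨E.mul_mem ha hb, by rw [hmul a ha b hb, ha', hb', add_zero]⟩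
      inv_mem' := by
        rintro a ⟨ha, ha'⟩
        refine ⟨E.inv_mem ha, ?_⟩
        have := hmul a ha a⁻¹ (E.inv_mem ha)
        rw [mul_inv_cancel, h1, ha', zero_add] at this
        exact this.symm }
  refine ⟨n, L, ⟨f, hmul, ?_, fun a ha => ha.1, fun e he => ?_⟩, ?_, ?_, hq5⟩
  · intro v
    obtain ⟨e, he⟩ := hq2 v
    exact ⟨e, e.2, by rw [hf _ e.2]; exact he⟩
  · exact ⟨fun h => ⟨he, h⟩, fun h => h.2⟩
  · intro a ha
    exact ⟨hKE ha, by rw [hf a (hKE ha)]; exact hq3 _ ha⟩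
  · rintro a ⟨ha, ha'⟩
    rw [hf a ha] at ha'
    exact hq4 _ ha'

/-- torsion quotient implies finite index -/
theorem finite_of_torsion {K E : Subgroup G} (hKE : K ≤ E) (hcomm : ⁅E, E⁆ ≤ K)
    (hfg : ∃ S : Finset G, E = Subgroup.closure (S : Set G) ⊔ K)
    (ht : ∀ a ∈ E, ∃ k : ℕ, 1 ≤ k ∧ a ^ k ∈ K) : K.relIndex E ≠ 0 := by
  obtain ⟨n, L, p, hKL, _, h0⟩ := exists_pos hKE hcomm hfg
  apply h0
  by_contra hn
  have hn' : 0 < n := Nat.pos_of_ne_zero hn
  obtain ⟨e, he, hev⟩ := p.surj (Pi.single ⟨0, hn'⟩ 1)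
  obtain ⟨k, hk, hek⟩ := ht e he
  have h1 := (p.ker _ (E.pow_mem he k)).2 (hKL hek)
  rw [p.map_pow he, hev] at h1
  have h2 := congrFun h1 ⟨0, hn'⟩
  simp only [Pi.smul_apply, Pi.single_eq_same, Pi.zero_apply, smul_eq_mul, nsmul_eq_mul,
    mul_one] at h2
  have : k = 0 := by exact_mod_cast h2
  omega

namespace Pos
variable {E L L2 : Subgroup G} {n m : ℕ}

/-- factorisation -/
theorem factor (p : Pos E L n) (p2 : Pos E L2 m) (h : L ≤ L2) :
    ∃ q : (Fin n → ℤ) →ₗ[ℤ] (Fin m → ℤ), (∀ e ∈ E, q (p.f e) = p2.f e) ∧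
      Function.Surjective q := by
  choose s hsE hs using p.surj
  have hwd : ∀ e ∈ E, p2.f (s (p.f e)) = p2.f e := by
    intro e he
    have h1 : (s (p.f e))⁻¹ * e ∈ L := by
      rw [← p.ker _ (E.mul_mem (E.inv_mem (hsE _)) he), p.map_mul _ (E.inv_mem (hsE _)) _ he,
        p.map_inv (hsE _), hs, neg_add_cancel]
    have h2 := (p2.ker _ (E.mul_mem (E.inv_mem (hsE _)) he)).2 (h h1)
    rw [p2.map_mul _ (E.inv_mem (hsE _)) _ he, p2.map_inv (hsE _)] at h2
    exact (neg_add_eq_zero.1 h2)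
  let q : (Fin n → ℤ) →+ (Fin m → ℤ) :=
    { toFun := fun v => p2.f (s v)
      map_zero' := by
        have := hwd 1 E.one_mem
        rw [p.map_one] at this
        rw [this, p2.map_one]
      map_add' := by
        intro v w
        have h3 := hwd _ (E.mul_mem (hsE v) (hsE w))
        rw [p.map_mul _ (hsE v) _ (hsE w), hs, hs, p2.map_mul _ (hsE v) _ (hsE w)] at h3
        exact h3 }
  refine ⟨q.toIntLinearMap, fun e he => hwd e he, fun v => ?_⟩
  obtain ⟨e, he, hev⟩ := p2.surj v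
  exact ⟨p.f e, by rw [← hev]; exact hwd e he⟩

theorem rank_le (p : Pos E L n) (p2 : Pos E L2 m) (h : L ≤ L2) : m ≤ n := by
  obtain ⟨q, _, hq⟩ := p.factor p2 h
  exact le_of_fin_surjective ℤ q hq

theorem rank_lt (p : Pos E L n) (p2 : Pos E L2 m) (h : L ≤ L2) (hne : ∃ e ∈ L2, e ∉ L) :
    m < n := by
  refine lt_of_le_of_ne (p.rank_le p2 h) ?_
  rintro rfl
  obtain ⟨q, hq1, hq2⟩ := p.factor p2 h
  obtain ⟨e, he, heL⟩ := hne
  have heE := p2.hLE he
  have hinj : Function.Injective q := IsNoetherian.injective_of_surjective_endomorphism q hq2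
  apply heL
  rw [← p.ker e heE]
  apply hinj
  rw [hq1 e heE, (p2.ker e heE).2 he, map_zero]

/-- a normaliser induces an automorphism -/
theorem exists_act (p : Pos E L n) {g : G} (h1 : ∀ e ∈ E, g * e * g⁻¹ ∈ E)
    (h2 : ∀ e ∈ E, g⁻¹ * e * g ∈ E) (h3 : ∀ e ∈ L, g * e * g⁻¹ ∈ L)
    (h4 : ∀ e ∈ L, g⁻¹ * e * g ∈ L) : ∃ τ : Aut n, Act p g τ := by
  let p' : Pos E L n :=
    { f := fun e => p.f (g * e * g⁻¹)
      map_mul := by
        intro a ha b hb
        rw [← p.map_mul _ (h1 a ha) _ (h1 b hb)]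
        congr 1; group
      surj := by
        intro v
        obtain ⟨e, he, hev⟩ := p.surj v
        refine ⟨g⁻¹ * e * g, h2 e he, ?_⟩
        rw [← hev]; congr 1; group
      hLE := p.hLE
      ker := by
        intro e he
        rw [p.ker _ (h1 e he)]
        constructor
        · intro h5
          have := h4 _ h5
          have e1 : g⁻¹ * (g * e * g⁻¹) * g = e := by group
          rwa [e1] at this
        · exact h3 e }
  obtain ⟨q, hq1, hq2⟩ := p.factor p' le_rfl
  have hinj : Function.Injective q := IsNoetherian.injective_of_surjective_endomorphism q hq2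
  refine ⟨LinearEquiv.ofBijective q ⟨hinj, hq2⟩, h1, h2, fun e he => ?_⟩
  exact (hq1 e he).symm

/-- the rank drops when passing to the kernel of a nonzero map to `ℤ^m` -/
theorem rank_drop {K L' : Subgroup G} {n' : ℕ} (p0 : Pos E L2 n) (p : Pos E L m) (hm : 0 < m)
    (p' : Pos L L' n') (hKL : K ≤ L) (h0 : ∀ a ∈ L2, ∃ k : ℕ, 1 ≤ k ∧ a ^ k ∈ K)
    (hKL2 : K ≤ L2) (h' : ∀ a ∈ L', ∃ k : ℕ, 1 ≤ k ∧ a ^ k ∈ K) (hKL' : K ≤ L') : n' < n := by
  -- elements of `L ⊓ L2` are in `L'`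
  have hiff : ∀ a ∈ L, p0.f a = 0 ↔ p'.f a = 0 := by
    intro a ha
    have haE := p.hLE ha
    constructor
    · intro h1
      obtain ⟨k, hk, h2⟩ := h0 a ((p0.ker a haE).1 h1)
      have h3 := (p'.ker _ (L.pow_mem ha k)).2 (hKL' h2)
      rw [p'.map_pow ha] at h3
      exact (smul_eq_zero.1 h3).resolve_left (by omega)
    · intro h1
      obtain ⟨k, hk, h2⟩ := h' a ((p'.ker a ha).1 h1)
      have h3 := (p0.ker _ (E.pow_mem haE k)).2 (hKL2 h2)
      rw [p0.map_pow haE] at h3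
      exact (smul_eq_zero.1 h3).resolve_left (by omega)
  choose s hsL hs using p'.surj
  have hwd : ∀ a ∈ L, p0.f (s (p'.f a)) = p0.f a := by
    intro a ha
    have h1 : (s (p'.f a))⁻¹ * a ∈ L := L.mul_mem (L.inv_mem (hsL _)) ha
    have h2 : p'.f ((s (p'.f a))⁻¹ * a) = 0 := by
      rw [p'.map_mul _ (L.inv_mem (hsL _)) _ ha, p'.map_inv (hsL _), hs, neg_add_cancel]
    have h3 := (hiff _ h1).2 h2
    rw [p0.map_mul _ (E.inv_mem (p.hLE (hsL _))) _ (p.hLE ha), p0.map_inv (p.hLE (hsL _))] at h3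
    exact neg_add_eq_zero.1 h3
  let ι : (Fin n' → ℤ) →+ (Fin n → ℤ) :=
    { toFun := fun v => p0.f (s v)
      map_zero' := by
        have := hwd 1 L.one_mem
        rw [p'.map_one] at this
        rw [this, p0.map_one]
      map_add' := by
        intro v w
        have h3 := hwd _ (L.mul_mem (hsL v) (hsL w))
        rw [p'.map_mul _ (hsL v) _ (hsL w), hs, hs,
          p0.map_mul _ (p.hLE (hsL v)) _ (p.hLE (hsL w))] at h3
        exact h3 }
  have hι : ∀ v, ι v = p0.f (s v) := fun v => rfl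
  obtain ⟨e, he, hev⟩ := p.surj (Pi.single ⟨0, hm⟩ 1)
  let J : ((Fin n' → ℤ) × ℤ) →ₗ[ℤ] (Fin n → ℤ) :=
    ι.toIntLinearMap.coprod (LinearMap.toSpanSingleton ℤ (Fin n → ℤ) (p0.f e))
  have hJ : ∀ v t, J (v, t) = ι v + t • p0.f e := by
    intro v t
    simp [J]
  have hzp : ∀ t : ℤ, p0.f (e ^ t) = t • p0.f e ∧ p.f (e ^ t) = t • p.f e := by
    intro t
    rcases Int.eq_nat_or_neg t with ⟨k, rfl | rfl⟩
    · rw [zpow_natCast, p0.map_pow he, p.map_pow he]; simp
    · rw [zpow_neg, zpow_natCast, p0.map_inv (E.pow_mem he k), p.map_inv (E.pow_mem he k),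
        p0.map_pow he, p.map_pow he]; simp
  have hinj : Function.Injective J := by
    rw [injective_iff_map_eq_zero]
    rintro ⟨v, t⟩ hvt
    rw [hJ, hι, ← (hzp t).1, ← p0.map_mul _ (p.hLE (hsL v)) _ (E.zpow_mem he t)] at hvt
    have hmemE : s v * e ^ t ∈ E := E.mul_mem (p.hLE (hsL v)) (E.zpow_mem he t)
    obtain ⟨k, hk, h2⟩ := h0 _ ((p0.ker _ hmemE).1 hvt)
    have h3 := (p.ker _ (E.pow_mem hmemE k)).2 (hKL h2)
    rw [p.map_pow hmemE] at h3
    have h4 := (smul_eq_zero.1 h3).resolve_left (by omega)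
    rw [p.map_mul _ (p.hLE (hsL v)) _ (E.zpow_mem he t), (p.ker _ (p.hLE (hsL v))).2 (hsL v),
      zero_add, (hzp t).2, hev] at h4
    have ht : t = 0 := by
      have := congrFun h4 ⟨0, hm⟩
      simpa using this
    subst ht
    rw [zpow_zero, mul_one] at hvt
    have h5 := (hiff _ (hsL v)).1 hvt
    rw [hs] at h5
    rw [h5]; rfl
  have h6 := LinearMap.finrank_le_finrank_of_injective hinj
  simp only [Module.finrank_prod, Module.finrank_fin_fun, Module.finrank_self] at h6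
  omega

end Pos

end

end Pool.Agent.H79.Asc
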