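import Pool.Agent.H79.Asc.Gen

set_option autoImplicit false

open scoped Pointwise commutatorElement

namespace Pool.Agent.H79.Asc

/-- evaluation of a real character at an integer vector -/
def ev {n : ℕ} (u : Fin n → ℝ) (v : Fin n → ℤ) : ℝ := ∑ i, u i * (v i : ℝ)

section ev
variable {n : ℕ}

theorem ev_add (u : Fin n → ℝ) (v w : Fin n → ℤ) : ev u (v + w) = ev u v + ev u w := by
  unfold ev
  rw [← Finset.sum_add_distrib]
  refine Finset.sum_congr rfl fun i _ => ?_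
  simp only [Pi.add_apply]; push_cast; ring

theorem ev_zero (u : Fin n → ℝ) : ev u 0 = 0 := by
  unfold ev; simp

theorem ev_neg (u : Fin n → ℝ) (v : Fin n → ℤ) : ev u (-v) = -ev u v := by
  have := ev_add u v (-v)
  rw [add_neg_cancel, ev_zero] at this
  linarith

theorem ev_sub (u : Fin n → ℝ) (v w : Fin n → ℤ) : ev u (v - w) = ev u v - ev u w := by
  rw [sub_eq_add_neg, ev_add, ev_neg]; ring

theorem ev_add_left (u u' : Fin n → ℝ) (v : Fin n → ℤ) : ev (u + u') v = ev u v + ev u' v := by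
  unfold ev
  rw [← Finset.sum_add_distrib]
  refine Finset.sum_congr rfl fun i _ => ?_
  simp only [Pi.add_apply]; ring

theorem ev_smul_left (c : ℝ) (u : Fin n → ℝ) (v : Fin n → ℤ) : ev (c • u) v = c * ev u v := by
  unfold ev
  rw [Finset.mul_sum]
  refine Finset.sum_congr rfl fun i _ => ?_
  simp only [Pi.smul_apply, smul_eq_mul]; ring

theorem ev_single (u : Fin n → ℝ) (i : Fin n) : ev u (Pi.single i 1) = u i := by
  unfold ev
  rw [Finset.sum_eq_single i]
  · simp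
  · intro j _ hj
    simp [Pi.single_eq_of_ne hj]
  · simp

theorem ev_continuous (v : Fin n → ℤ) : Continuous fun u : Fin n → ℝ => ev u v := by
  unfold ev
  fun_prop

/-- the kernel of a real character -/
def V0 (u : Fin n → ℝ) : AddSubgroup (Fin n → ℤ) where
  carrier := {v | ev u v = 0}
  zero_mem' := ev_zero u
  add_mem' := by
    intro a b ha hb
    simp only [Set.mem_ofPred_eq] at *
    rw [ev_add, ha, hb, add_zero]
  neg_mem' := by
    intro a ha
    simp only [Set.mem_ofPred_eq] at *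
    rw [ev_neg, ha, neg_zero]

theorem mem_V0 {u : Fin n → ℝ} {v : Fin n → ℤ} : v ∈ V0 u ↔ ev u v = 0 := Iff.rfl

theorem V0_fg (u : Fin n → ℝ) : (V0 u).toAddSubmonoid.FG := by
  rw [← AddSubgroup.fg_iff_addSubmonoid_fg]
  have h : (AddSubgroup.toIntSubmodule (V0 u)).FG := IsNoetherian.noetherian _
  rw [Submodule.fg_iff_addSubgroup_fg] at h
  simpa using h

end ev

/-- `E/L` is identified with `ℤ^n`. -/
structure Pos {G : Type*} [Group G] (E L : Subgroup G) (n : ℕ) where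
  f : G → (Fin n → ℤ)
  map_mul : ∀ a ∈ E, ∀ b ∈ E, f (a * b) = f a + f b
  surj : ∀ v, ∃ e ∈ E, f e = v
  hLE : L ≤ E
  ker : ∀ e ∈ E, f e = 0 ↔ e ∈ L

namespace Pos
variable {G D : Type*} [Group G] [AddCommGroup D] [DistribMulAction G D]
variable {E L : Subgroup G} {n : ℕ} (p : Pos E L n)

theorem map_one : p.f 1 = 0 := (p.ker 1 E.one_mem).2 L.one_mem

theorem map_inv {a : G} (ha : a ∈ E) : p.f a⁻¹ = - p.f a := by
  have := p.map_mul a ha a⁻¹ (E.inv_mem ha)
  rw [mul_inv_cancel, p.map_one] at this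
  exact (neg_eq_of_add_eq_zero_right this.symm).symm

theorem map_conj {a t : G} (ha : a ∈ E) (ht : t ∈ E) : p.f (t * a * t⁻¹) = p.f a := by
  rw [p.map_mul _ (E.mul_mem ht ha) _ (E.inv_mem ht), p.map_mul _ ht _ ha, p.map_inv ht]; abel

theorem map_pow {a : G} (ha : a ∈ E) (k : ℕ) : p.f (a ^ k) = k • p.f a := by
  induction k with
  | zero => simp [p.map_one]
  | succ k ih =>
    rw [pow_succ, p.map_mul _ (E.pow_mem ha k) _ ha, ih, succ_nsmul]

/-- preimage of a set of integer vectors -/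
def pre (S : Set (Fin n → ℤ)) : Set G := {g | g ∈ E ∧ p.f g ∈ S}

theorem mem_pre {S : Set (Fin n → ℤ)} {g : G} : g ∈ p.pre S ↔ g ∈ E ∧ p.f g ∈ S := Iff.rfl

theorem pre_mono {S S' : Set (Fin n → ℤ)} (h : S ⊆ S') : p.pre S ⊆ p.pre S' :=
  fun _ hg => ⟨hg.1, h hg.2⟩

theorem pre_mul (S S' : Set (Fin n → ℤ)) : p.pre S * p.pre S' = p.pre (S + S') := by
  ext g
  constructor
  · rintro ⟨a, ha, b, hb, rfl⟩
    refine ⟨E.mul_mem ha.1 hb.1, ?_⟩
    simp only
    rw [p.map_mul _ ha.1 _ hb.1]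
    exact Set.add_mem_add ha.2 hb.2
  · rintro ⟨hg, s, hs, s', hs', hss⟩
    obtain ⟨e, he, hes⟩ := p.surj s
    refine ⟨e, ⟨he, by rw [hes]; exact hs⟩, e⁻¹ * g, ⟨E.mul_mem (E.inv_mem he) hg, ?_⟩, by simp⟩
    rw [p.map_mul _ (E.inv_mem he) _ hg, p.map_inv he, hes, ← hss]
    simpa using hs'

theorem pre_zero : p.pre {0} = (L : Set G) := by
  ext g
  constructor
  · rintro ⟨hg, h⟩
    exact (p.ker g hg).1 h
  · intro hg
    exact ⟨p.hLE hg, (p.ker g (p.hLE hg)).2 hg⟩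

theorem pre_univ : p.pre Set.univ = (E : Set G) := by
  ext g; exact ⟨fun h => h.1, fun h => ⟨h, trivial⟩⟩

theorem pre_union (S S' : Set (Fin n → ℤ)) : p.pre (S ∪ S') = p.pre S ∪ p.pre S' := by
  ext g
  simp only [mem_pre, Set.mem_union]; tauto

/-- the extension of `P` along `S` modulo `B` -/
def br (B : AddSubgroup D) (S : Set (Fin n → ℤ)) (P : AddSubgroup D) : AddSubgroup D :=
  sp (p.pre S) (P : Set D) ⊔ B

variable {p} {B : AddSubgroup D} {S S' : Set (Fin n → ℤ)} {P Q : AddSubgroup D}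

theorem sp_le_B (hB : Stab (E : Set G) B) (S : Set (Fin n → ℤ)) : sp (p.pre S) (B : Set D) ≤ B :=
  sp_le_of_stab (hB.mono fun _ hg => hg.1) le_rfl

theorem br_br (hB : Stab (E : Set G) B) :
    p.br B S (p.br B S' P) = p.br B (S + S') P := by
  unfold br
  rw [sp_sup, sp_sp, p.pre_mul, sup_assoc, sup_eq_right.2 (sp_le_B hB S)]

theorem br_mono {P' : AddSubgroup D} (hS : S ⊆ S') (hP : P ≤ P') :
    p.br B S P ≤ p.br B S' P' :=
  sup_le_sup_right (sp_mono (p.pre_mono hS) hP) _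

theorem le_br_base : B ≤ p.br B S P := le_sup_right

theorem br_union : p.br B (S ∪ S') P = p.br B S P ⊔ p.br B S' P := by
  unfold br
  rw [p.pre_union, sp_union_left]
  apply le_antisymm
  · exact sup_le (sup_le (le_sup_of_le_left le_sup_left) (le_sup_of_le_right le_sup_left))
      (le_sup_of_le_left le_sup_right)
  · exact sup_le (sup_le (le_sup_of_le_left le_sup_left) le_sup_right)
      (sup_le (le_sup_of_le_left le_sup_right) le_sup_right)

theorem br_sup : p.br B S (P ⊔ Q) = p.br B S P ⊔ p.br B S Q := by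
  unfold br
  rw [sp_sup]
  apply le_antisymm
  · exact sup_le (sup_le (le_sup_of_le_left le_sup_left) (le_sup_of_le_right le_sup_left))
      (le_sup_of_le_left le_sup_right)
  · exact sup_le (sup_le (le_sup_of_le_left le_sup_left) le_sup_right)
      (sup_le (le_sup_of_le_left le_sup_right) le_sup_right)

theorem br_empty : p.br B ∅ P = B := by
  unfold br
  have : p.pre (∅ : Set (Fin n → ℤ)) = ∅ := by
    ext g; simp [mem_pre]
  rw [this, sp_empty_left, bot_sup_eq]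

theorem br_zero (hP : Stab (L : Set G) P) (hBP : B ≤ P) : p.br B {0} P = P := by
  unfold br
  rw [p.pre_zero, sp_eq_of_stab L.one_mem hP, sup_eq_left.2 hBP]

theorem le_br (h0 : (0 : Fin n → ℤ) ∈ S) : P ≤ p.br B S P := by
  intro x hx
  refine AddSubgroup.mem_sup_left (subset_sp (M := p.pre S) ?_ hx)
  exact ⟨E.one_mem, by rw [p.map_one]; exact h0⟩

theorem br_le {C : AddSubgroup D} (hC : Stab (E : Set G) C) (hB : B ≤ C) (hP : P ≤ C) :
    p.br B S P ≤ C :=
  sup_le (sp_le_of_stab (hC.mono fun _ hg => hg.1) hP) hB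

theorem br_fin {x : D} (hx : x ∈ p.br B S P) :
    ∃ F : Finset (Fin n → ℤ), (F : Set (Fin n → ℤ)) ⊆ S ∧ x ∈ p.br B (F : Set (Fin n → ℤ)) P := by
  classical
  obtain ⟨y, hy, b, hb, rfl⟩ := AddSubgroup.mem_sup.1 hx
  obtain ⟨F, hF, hyF⟩ := mem_sp_finite hy
  refine ⟨F.image p.f, ?_, add_mem (AddSubgroup.mem_sup_left ?_) (AddSubgroup.mem_sup_right hb)⟩
  · intro v hv
    simp only [Finset.coe_image, Set.mem_image] at hv
    obtain ⟨g, hg, rfl⟩ := hv
    exact (hF hg).2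
  · refine sp_mono ?_ le_rfl hyF
    intro g hg
    exact ⟨(hF hg).1, by simp only [Finset.coe_image]; exact ⟨g, hg, rfl⟩⟩

theorem stab_br {C : Set (Fin n → ℤ)} (hC : C + S ⊆ S) (hB : Stab (E : Set G) B) :
    Stab (p.pre C) (p.br B S P) := by
  refine Stab.sup (stab_sp ?_) (hB.mono fun _ hg => hg.1)
  intro m hm w hw
  have : m * w ∈ p.pre C * p.pre S := Set.mul_mem_mul hm hw
  rw [p.pre_mul] at this
  exact p.pre_mono hC this

theorem stab_br_L (hB : Stab (E : Set G) B) : Stab (L : Set G) (p.br B S P) := by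
  rw [← p.pre_zero]
  exact stab_br (by simp) hB

theorem stab_br_univ (hB : Stab (E : Set G) B) : Stab (E : Set G) (p.br B Set.univ P) := by
  rw [← p.pre_univ]
  exact stab_br (by simp) hB

theorem fin_union {X : Finset D} (hX : ∀ x ∈ X, ∃ F : Finset (Fin n → ℤ),
    (F : Set (Fin n → ℤ)) ⊆ S ∧ x ∈ p.br B (F : Set (Fin n → ℤ)) P) :
    ∃ F : Finset (Fin n → ℤ), (F : Set (Fin n → ℤ)) ⊆ S ∧
      (X : Set D) ⊆ p.br B (F : Set (Fin n → ℤ)) P := by
  classical
  choose! F hF hxF using hX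
  refine ⟨X.biUnion F, ?_, ?_⟩
  · intro v hv
    simp only [Finset.coe_biUnion, Set.mem_iUnion] at hv
    obtain ⟨x, hx, hv⟩ := hv
    exact hF x hx hv
  · intro x hx
    refine br_mono ?_ le_rfl (hxF x hx)
    intro v hv
    simp only [Finset.coe_biUnion, Set.mem_iUnion]
    exact ⟨x, hx, hv⟩

theorem le_br_fin (hQ : FGm (L : Set G) B Q) (hB : Stab (E : Set G) B) (h : Q ≤ p.br B S P) :
    ∃ F : Finset (Fin n → ℤ), (F : Set (Fin n → ℤ)) ⊆ S ∧
      Q ≤ p.br B (F : Set (Fin n → ℤ)) P := by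
  obtain ⟨X, rfl⟩ := hQ
  obtain ⟨F, hF, hXF⟩ := fin_union (p := p) (B := B) (P := P) (S := S) (X := X) (fun x hx =>
    br_fin (h (AddSubgroup.mem_sup_left (subset_sp L.one_mem hx))))
  exact ⟨F, hF, sup_le (sp_le_of_stab (stab_br_L hB) hXF) le_br_base⟩

theorem br_single (hP : Stab (L : Set G) P) (hBP : B ≤ P) (hB : Stab (E : Set G) B)
    {e : G} (he : e ∈ E) : p.br B {p.f e} P = e • P := by
  apply le_antisymm
  · apply sup_le
    · rw [sp_le]
      rintro g ⟨hg, hgv⟩ x hx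
      have hl : e⁻¹ * g ∈ L := by
        rw [← p.ker _ (E.mul_mem (E.inv_mem he) hg), p.map_mul _ (E.inv_mem he) _ hg,
          p.map_inv he, Set.mem_singleton_iff.1 hgv, neg_add_cancel]
      have : g • x = e • ((e⁻¹ * g) • x) := by rw [← mul_smul]; congr 1; group
      rw [this]
      exact AddSubgroup.smul_mem_pointwise_smul _ _ _ (hP _ hl x hx)
    · have := smul_eq_of_stab hB he
      calc B = e • B := this.symm
        _ ≤ e • P := AddSubgroup.pointwise_smul_le_pointwise_smul_iff.2 hBP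
  · intro x hx
    obtain ⟨y, hy, rfl⟩ := (AddSubgroup.mem_smul_pointwise_iff_exists _ _ _).1 hx
    exact AddSubgroup.mem_sup_left (smul_mem_sp ⟨he, rfl⟩ hy)

theorem smul_br (hB : Stab (E : Set G) B) {e : G} (he : e ∈ E) :
    e • p.br B S P = p.br B ({p.f e} + S) P := by
  rw [← br_br hB, br_single (stab_br_L hB) le_br_base hB he]

theorem FGm_br (hP : FGm (L : Set G) B P) (hB : Stab (E : Set G) B)
    {C : Set (Fin n → ℤ)} : FGm (p.pre C) B (p.br B C P) := by
  obtain ⟨X, rfl⟩ := hP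
  refine ⟨X, ?_⟩
  unfold br
  rw [sp_sup, sp_sp, ← p.pre_zero, p.pre_mul, sup_assoc, sup_eq_right.2 (sp_le_B hB C)]
  simp

theorem exists_of_FGm_pre (hB : Stab (E : Set G) B)
    {C : Set (Fin n → ℤ)} (h0 : (0 : Fin n → ℤ) ∈ C) (hQ : FGm (p.pre C) B Q) :
    ∃ P, FGm (L : Set G) B P ∧ P ≤ Q ∧ Q = p.br B C P := by
  obtain ⟨X, rfl⟩ := hQ
  refine ⟨sp (L : Set G) (X : Set D) ⊔ B, ⟨X, rfl⟩, ?_, ?_⟩
  · refine sup_le_sup_right (sp_mono ?_ le_rfl) _
    rw [← p.pre_zero]; exact p.pre_mono (by simpa using h0)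
  · unfold br
    rw [sp_sup, sp_sp, ← p.pre_zero, p.pre_mul, sup_assoc, sup_eq_right.2 (sp_le_B hB C)]
    simp

theorem pre_closed {C : AddSubmonoid (Fin n → ℤ)} :
    ∀ a ∈ p.pre (C : Set (Fin n → ℤ)), ∀ b ∈ p.pre (C : Set (Fin n → ℤ)),
      a * b ∈ p.pre (C : Set (Fin n → ℤ)) := by
  intro a ha b hb
  refine ⟨E.mul_mem ha.1 hb.1, ?_⟩
  rw [p.map_mul _ ha.1 _ hb.1]
  exact C.add_mem ha.2 hb.2

theorem one_mem_pre {C : AddSubmonoid (Fin n → ℤ)} : (1 : G) ∈ p.pre (C : Set (Fin n → ℤ)) :=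
  ⟨E.one_mem, by rw [p.map_one]; exact C.zero_mem⟩

theorem NA_pre (hL : NA0 D (L : Set G)) (C : AddSubmonoid (Fin n → ℤ)) (hC : C.FG) :
    NA0 D (p.pre (C : Set (Fin n → ℤ))) := by
  classical
  obtain ⟨F, rfl⟩ := hC
  induction F using Finset.induction_on with
  | empty =>
    have : p.pre ((AddSubmonoid.closure ((∅ : Finset (Fin n → ℤ)) : Set (Fin n → ℤ)) :
        AddSubmonoid (Fin n → ℤ)) : Set (Fin n → ℤ)) = (L : Set G) := by
      rw [← p.pre_zero]; simp
    rw [this]; exact hL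
  | insert v F _ ih =>
    obtain ⟨t, ht, htv⟩ := p.surj v
    refine hilbert (M := p.pre ((AddSubmonoid.closure (F : Set (Fin n → ℤ)) :
        AddSubmonoid (Fin n → ℤ)) : Set (Fin n → ℤ))) one_mem_pre pre_closed t ?_ ?_ ?_ ih
    · rintro m ⟨hm, hmF⟩
      refine ⟨E.mul_mem (E.mul_mem ht hm) (E.inv_mem ht), ?_⟩
      rw [p.map_conj hm ht]; exact hmF
    · rintro m ⟨hm, hmF⟩
      refine ⟨E.mul_mem (E.mul_mem (E.inv_mem ht) hm) ht, ?_⟩
      have := p.map_conj hm (E.inv_mem ht)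
      rw [inv_inv] at this
      rw [this]; exact hmF
    · intro x
      constructor
      · rintro ⟨hx, hxF⟩
        rw [Finset.coe_insert, SetLike.mem_coe, Set.insert_eq, AddSubmonoid.closure_union,
          AddSubmonoid.mem_sup] at hxF
        obtain ⟨y, hy, z, hz, hyz⟩ := hxF
        obtain ⟨k, rfl⟩ := AddSubmonoid.mem_closure_singleton.1 hy
        refine ⟨k, (t ^ k)⁻¹ * x, ⟨E.mul_mem (E.inv_mem (E.pow_mem ht k)) hx, ?_⟩, by group⟩
        rw [p.map_mul _ (E.inv_mem (E.pow_mem ht k)) _ hx, p.map_inv (E.pow_mem ht k),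
          p.map_pow ht, htv, ← hyz]
        simpa using hz
      · rintro ⟨k, m, ⟨hm, hmF⟩, rfl⟩
        refine ⟨E.mul_mem (E.pow_mem ht k) hm, ?_⟩
        rw [p.map_mul _ (E.pow_mem ht k) _ hm, p.map_pow ht, htv]
        refine AddSubmonoid.add_mem _ (AddSubmonoid.nsmul_mem _ (AddSubmonoid.subset_closure
          (by simp)) k) (AddSubmonoid.closure_mono (by simp) hmF)

end Pos

end Pool.Agent.H79.Asc
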