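import Pool.Agent.H79.Asc.Cone

set_option autoImplicit false

open scoped Pointwise commutatorElement

namespace Pool.Agent.H79.Asc

section comb
variable {n : ℕ}

theorem exists_gap {α : Type*} (W : Finset α) (f : α → ℝ) (h : ∀ w ∈ W, f w < 0) :
    ∃ δ : ℝ, 0 < δ ∧ ∀ w ∈ W, f w ≤ -δ := by
  classical
  induction W using Finset.induction_on with
  | empty => exact ⟨1, one_pos, by simp⟩
  | insert w W _ ih =>
    obtain ⟨δ, h1, h2⟩ := ih fun x hx => h x (Finset.mem_insert_of_mem hx)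
    have hw := h w (Finset.mem_insert_self _ _)
    refine ⟨min δ (-f w), lt_min h1 (by linarith), ?_⟩
    intro x hx
    rcases Finset.mem_insert.1 hx with rfl | hx
    · have := min_le_right δ (-f x); linarith
    · have := min_le_left δ (-f w); have := h2 x hx; linarith

theorem exists_bound {α : Type*} (W : Finset α) (f : α → ℝ) :
    ∃ R : ℝ, 0 < R ∧ ∀ w ∈ W, |f w| ≤ R := by
  classical
  induction W using Finset.induction_on with
  | empty => exact ⟨1, one_pos, by simp⟩
  | insert w W _ ih =>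
    obtain ⟨R, h1, h2⟩ := ih
    refine ⟨max R |f w|, lt_max_of_lt_left h1, ?_⟩
    intro x hx
    rcases Finset.mem_insert.1 hx with rfl | hx
    · exact le_max_right _ _
    · exact (h2 x hx).trans (le_max_left _ _)

/-- `k`-fold sums -/
def nf (W : Finset (Fin n → ℤ)) : ℕ → Finset (Fin n → ℤ)
  | 0 => {0}
  | k + 1 => W + nf W k

theorem nf_succ (W : Finset (Fin n → ℤ)) (k : ℕ) : nf W (k + 1) = W + nf W k := rfl

theorem nf_add (W : Finset (Fin n → ℤ)) (k l : ℕ) :
    ∀ x ∈ nf W (k + l), ∃ y ∈ nf W k, ∃ z ∈ nf W l, x = y + z := by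
  induction k with
  | zero => intro x hx; exact ⟨0, by simp [nf], x, by simpa using hx, by simp⟩
  | succ k ih =>
    intro x hx
    rw [show k + 1 + l = (k + l) + 1 by ring, nf_succ] at hx
    obtain ⟨w, hw, y, hy, rfl⟩ := Finset.mem_add.1 hx
    obtain ⟨a, ha, b, hb, rfl⟩ := ih y hy
    exact ⟨w + a, by rw [nf_succ]; exact Finset.add_mem_add hw ha, b, hb, by abel⟩

theorem nf_add' (W : Finset (Fin n → ℤ)) (k l : ℕ) :
    ∀ y ∈ nf W k, ∀ z ∈ nf W l, y + z ∈ nf W (k + l) := by
  induction k with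
  | zero =>
    intro y hy z hz
    have : y = 0 := by simpa [nf] using hy
    rw [this]; simpa using hz
  | succ k ih =>
    intro y hy z hz
    rw [nf_succ] at hy
    obtain ⟨w, hw, a, ha, rfl⟩ := Finset.mem_add.1 hy
    rw [show k + 1 + l = (k + l) + 1 by ring, nf_succ, add_assoc]
    exact Finset.add_mem_add hw (ih a ha z hz)

theorem nf_closure (W : Finset (Fin n → ℤ)) {x : Fin n → ℤ}
    (hx : x ∈ AddSubmonoid.closure (W : Set (Fin n → ℤ))) : ∃ k, x ∈ nf W k := by
  induction hx using AddSubmonoid.closure_induction with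
  | mem x hx =>
    refine ⟨1, ?_⟩
    rw [nf_succ]
    have := Finset.add_mem_add (Finset.mem_coe.1 hx) (show (0 : Fin n → ℤ) ∈ nf W 0 by simp [nf])
    rwa [add_zero] at this
  | zero => exact ⟨0, by simp [nf]⟩
  | add x y _ _ hx hy =>
    obtain ⟨k, hk⟩ := hx
    obtain ⟨l, hl⟩ := hy
    exact ⟨k + l, nf_add' W k l x hk y hl⟩

theorem nf_le_closure (W : Finset (Fin n → ℤ)) (k : ℕ) :
    ∀ x ∈ nf W k, x ∈ AddSubmonoid.closure (W : Set (Fin n → ℤ)) := by
  induction k with
  | zero =>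
    intro x hx
    have : x = 0 := by simpa [nf] using hx
    rw [this]; exact AddSubmonoid.zero_mem _
  | succ k ih =>
    intro x hx
    rw [nf_succ] at hx
    obtain ⟨w, hw, a, ha, rfl⟩ := Finset.mem_add.1 hx
    exact AddSubmonoid.add_mem _ (AddSubmonoid.subset_closure hw) (ih a ha)

theorem nf_ev_le {u : Fin n → ℝ} {W : Finset (Fin n → ℤ)} {δ : ℝ} (h : ∀ w ∈ W, ev u w ≤ -δ)
    (k : ℕ) : ∀ x ∈ nf W k, ev u x ≤ -(k * δ) := by
  induction k with
  | zero =>
    intro x hx
    have : x = 0 := by simpa [nf] using hx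
    rw [this, ev_zero]; simp
  | succ k ih =>
    intro x hx
    rw [nf_succ] at hx
    obtain ⟨w, hw, a, ha, rfl⟩ := Finset.mem_add.1 hx
    rw [ev_add]
    have := h w hw
    have := ih a ha
    push_cast
    linarith

theorem nf_ev_ge {u : Fin n → ℝ} {W : Finset (Fin n → ℤ)} {R : ℝ} (h : ∀ w ∈ W, |ev u w| ≤ R)
    (k : ℕ) : ∀ x ∈ nf W k, -(k * R) ≤ ev u x := by
  induction k with
  | zero =>
    intro x hx
    have : x = 0 := by simpa [nf] using hx
    rw [this, ev_zero]; simp
  | succ k ih =>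
    intro x hx
    rw [nf_succ] at hx
    obtain ⟨w, hw, a, ha, rfl⟩ := Finset.mem_add.1 hx
    rw [ev_add]
    have := (abs_le.1 (h w hw)).1
    have := ih a ha
    push_cast
    linarith

/-- the vectors `±e_i` -/
def pm (n : ℕ) : Finset (Fin n → ℤ) :=
  (Finset.univ.image fun i : Fin n => (Pi.single i 1 : Fin n → ℤ)) ∪
    (Finset.univ.image fun i : Fin n => -(Pi.single i 1 : Fin n → ℤ))

theorem pm_closure : AddSubmonoid.closure (pm n : Set (Fin n → ℤ)) = ⊤ := by
  rw [eq_top_iff]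
  intro v _
  have hv : v = ∑ i, (v i) • (Pi.single i 1 : Fin n → ℤ) := by
    ext j
    rw [Finset.sum_apply, Finset.sum_eq_single j]
    · simp
    · intro i _ hi
      simp [Pi.single_eq_of_ne hi.symm]
    · simp
  rw [hv]
  refine AddSubmonoid.sum_mem _ fun i _ => ?_
  rcases Int.eq_nat_or_neg (v i) with ⟨k, hk | hk⟩
  · rw [hk, natCast_zsmul]
    refine AddSubmonoid.nsmul_mem _ (AddSubmonoid.subset_closure ?_) k
    simp [pm]
  · rw [hk, neg_zsmul, natCast_zsmul, ← smul_neg]
    refine AddSubmonoid.nsmul_mem _ (AddSubmonoid.subset_closure ?_) k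
    simp [pm]

theorem ev_pm {u : Fin n → ℝ} {R : ℝ} (hR : ∀ i ∈ (Finset.univ : Finset (Fin n)), |u i| ≤ R) :
    ∀ v ∈ pm n, |ev u v| ≤ R := by
  intro v hv
  simp only [pm, Finset.mem_union, Finset.mem_image, Finset.mem_univ, true_and] at hv
  rcases hv with ⟨i, rfl⟩ | ⟨i, rfl⟩
  · rw [ev_single]; exact hR i (Finset.mem_univ _)
  · rw [ev_neg, ev_single, abs_neg]; exact hR i (Finset.mem_univ _)

theorem comb (W : Finset (Fin n → ℤ)) (k : ℕ) (t : Fin n → ℤ) :
    ∃ N, ∀ s ∈ nf W N, s + t ∈ AddSubmonoid.closure ((nf W k + pm n : Finset (Fin n → ℤ)) :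
      Set (Fin n → ℤ)) := by
  have ht : t ∈ AddSubmonoid.closure (pm n : Set (Fin n → ℤ)) := by rw [pm_closure]; trivial
  induction ht using AddSubmonoid.closure_induction with
  | mem x hx =>
    refine ⟨k, fun s hs => AddSubmonoid.subset_closure ?_⟩
    exact Finset.mem_coe.2 (Finset.add_mem_add hs hx)
  | zero =>
    refine ⟨0, fun s hs => ?_⟩
    have : s = 0 := by simpa [nf] using hs
    rw [this, add_zero]; exact AddSubmonoid.zero_mem _
  | add x y _ _ hx hy =>
    obtain ⟨N, hN⟩ := hx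
    obtain ⟨N', hN'⟩ := hy
    refine ⟨N + N', fun s hs => ?_⟩
    obtain ⟨a, ha, b, hb, rfl⟩ := nf_add W N N' s hs
    have : a + b + (x + y) = (a + x) + (b + y) := by abel
    rw [this]
    exact AddSubmonoid.add_mem _ (hN a ha) (hN' b hb)

/-- a finite set of vectors of negative `u`-value absorbing everything -/
def Gk (W : Finset (Fin n → ℤ)) (k : ℕ) : Finset (Fin n → ℤ) := W ∪ (nf W k + pm n)

theorem exists_k {u : Fin n → ℝ} {W : Finset (Fin n → ℤ)} (hW : ∀ w ∈ W, ev u w < 0) :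
    ∃ k, ∀ g ∈ Gk W k, ev u g < 0 := by
  obtain ⟨δ, hδ, hδW⟩ := exists_gap W (ev u) hW
  obtain ⟨R, hR, hRu⟩ := exists_bound (Finset.univ : Finset (Fin n)) u
  obtain ⟨k, hk⟩ := exists_nat_gt (R / δ)
  refine ⟨k, fun g hg => ?_⟩
  rcases Finset.mem_union.1 hg with h | h
  · exact hW g h
  · obtain ⟨a, ha, b, hb, rfl⟩ := Finset.mem_add.1 h
    rw [ev_add]
    have h1 := nf_ev_le hδW k a ha
    have h2 := (abs_le.1 (ev_pm hRu b hb)).2
    rw [div_lt_iff₀ hδ] at hk
    linarith

end comb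

namespace Pos
variable {G D : Type*} [Group G] [AddCommGroup D] [DistribMulAction G D]
variable {E L : Subgroup G} {n : ℕ} {p : Pos E L n}
variable {B C C' P Q : AddSubgroup D} {S S' : Set (Fin n → ℤ)} {u : Fin n → ℝ}

/-- finite generation over cones strictly on the negative side of `u` -/
def NN (p : Pos E L n) (u : Fin n → ℝ) (C B : AddSubgroup D) : Prop :=
  ∃ P, FGm (L : Set G) B P ∧ ∃ Gs : Finset (Fin n → ℤ), (∀ g ∈ Gs, ev u g < 0) ∧
    C = p.br B ((AddSubmonoid.closure (Gs : Set (Fin n → ℤ)) : AddSubmonoid (Fin n → ℤ)) :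
      Set (Fin n → ℤ)) P

theorem NN.eventually (h : p.NN u C B) : ∀ᶠ u' in nhds u, p.NN u' C B := by
  obtain ⟨P, hP, Gs, hGs, rfl⟩ := h
  have : ∀ᶠ u' in nhds u, ∀ g ∈ Gs, ev u' g < 0 := by
    rw [Filter.eventually_all_finset]
    intro g hg
    exact (ev_continuous g).continuousAt.eventually_lt continuousAt_const (hGs g hg)
  exact this.mono fun u' hu' => ⟨P, hP, Gs, hu', rfl⟩

theorem NN.scale (h : p.NN u C B) {c : ℝ} (hc : 0 < c) : p.NN (c • u) C B := by
  obtain ⟨P, hP, Gs, hGs, rfl⟩ := h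
  refine ⟨P, hP, Gs, fun g hg => ?_, rfl⟩
  rw [ev_smul_left]
  exact mul_neg_of_pos_of_neg hc (hGs g hg)

theorem NN.base_le (h : p.NN u C B) : B ≤ C := by
  obtain ⟨P, hP, Gs, hGs, rfl⟩ := h
  exact le_br_base

theorem NN.le (hL : NA0 D (L : Set G)) (hB : Stab (E : Set G) B) (h : p.NN u C B)
    (h1 : B ≤ C') (h2 : C' ≤ C) (h3 : Stab (E : Set G) C') : p.NN u C' B := by
  obtain ⟨P, hP, Gs, hGs, rfl⟩ := h
  have hNA := NA_pre (p := p) hL (AddSubmonoid.closure (Gs : Set (Fin n → ℤ))) ⟨Gs, rfl⟩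
  have h4 := hNA.rel pre_closed (FGm_br hP hB) h1 h2 (h3.mono fun _ hg => hg.1)
  obtain ⟨P', hP', _, hP'2⟩ := exists_of_FGm_pre (p := p) hB (AddSubmonoid.zero_mem _) h4
  exact ⟨P', hP', Gs, hGs, hP'2⟩

theorem NN.sup (h : p.NN u C B) (h' : p.NN u C' B)
    (hC : Stab (E : Set G) C) (hC' : Stab (E : Set G) C') : p.NN u (C ⊔ C') B := by
  classical
  obtain ⟨P, hP, Gs, hGs, hCe⟩ := h
  obtain ⟨P', hP', Gs', hGs', hCe'⟩ := h'
  refine ⟨P ⊔ P', hP.sup hP', Gs ∪ Gs', ?_, ?_⟩
  · intro g hg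
    rcases Finset.mem_union.1 hg with hg | hg
    · exact hGs g hg
    · exact hGs' g hg
  · have hPC : P ≤ C := by rw [hCe]; exact le_br (AddSubmonoid.zero_mem _)
    have hPC' : P' ≤ C' := by rw [hCe']; exact le_br (AddSubmonoid.zero_mem _)
    have hBC : B ≤ C := by rw [hCe]; exact le_br_base
    have hBC' : B ≤ C' := by rw [hCe']; exact le_br_base
    rw [br_sup]
    apply le_antisymm
    · refine sup_le_sup ?_ ?_
      · conv_lhs => rw [hCe]
        refine br_mono ?_ le_rfl
        exact_mod_cast AddSubmonoid.closure_mono (by simp)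
      · conv_lhs => rw [hCe']
        refine br_mono ?_ le_rfl
        exact_mod_cast AddSubmonoid.closure_mono (by simp)
    · exact sup_le_sup (br_le hC hBC hPC) (br_le hC' hBC' hPC')

theorem NN.refl (hB : Stab (E : Set G) B) (u : Fin n → ℝ) : p.NN u B B :=
  ⟨B, FGm.refl _ _, ∅, by simp, (le_antisymm le_br_base (br_le hB le_rfl le_rfl))⟩

theorem le_nf (hB : Stab (E : Set G) B) (hQs : Stab (L : Set G) Q) (hBQ : B ≤ Q)
    {W : Finset (Fin n → ℤ)} (hW : Q ≤ p.br B (W : Set (Fin n → ℤ)) Q) (k : ℕ) :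
    Q ≤ p.br B (nf W k : Set (Fin n → ℤ)) Q := by
  induction k with
  | zero =>
    have : ((nf W 0 : Finset (Fin n → ℤ)) : Set (Fin n → ℤ)) = {0} := by simp [nf]
    rw [this, br_zero hQs hBQ]
  | succ k ih =>
    rw [nf_succ, Finset.coe_add, ← br_br hB]
    exact hW.trans (br_mono le_rfl ih)

theorem br_univ_le {R : AddSubgroup D} (hBR : B ≤ R)
    (h : ∀ t : Fin n → ℤ, p.br B {t} Q ≤ R) : p.br B Set.univ Q ≤ R := by
  refine sup_le ?_ hBR
  rw [sp_le]
  intro g hg x hx
  exact h (p.f g) (AddSubgroup.mem_sup_left (smul_mem_sp ⟨hg.1, rfl⟩ hx))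

/-- first criterion -/
theorem crit1 (hB : Stab (E : Set G) B) (hQ : FGm (L : Set G) B Q)
    (h : Q ≤ p.br B {v | ev u v < 0} Q) : p.NN u (p.br B Set.univ Q) B := by
  have hQs : Stab (L : Set G) Q := hQ.stab (mulmem L) (hB.mono p.hLE)
  obtain ⟨W, hW, hQW⟩ := le_br_fin hQ hB h
  obtain ⟨k, hk⟩ := exists_k (W := W) (u := u) fun w hw => hW hw
  refine ⟨Q, hQ, Gk W k, hk, le_antisymm ?_ (br_mono (Set.subset_univ _) le_rfl)⟩
  refine br_univ_le le_br_base fun t => ?_
  obtain ⟨N, hN⟩ := comb W k t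
  calc p.br B {t} Q ≤ p.br B {t} (p.br B (nf W N : Set (Fin n → ℤ)) Q) :=
        br_mono le_rfl (le_nf hB hQs hQ.le hQW N)
    _ = p.br B ({t} + (nf W N : Set (Fin n → ℤ))) Q := br_br hB
    _ ≤ _ := by
        refine br_mono ?_ le_rfl
        rintro x ⟨a, ha, s, hs, rfl⟩
        rw [Set.mem_singleton_iff] at ha
        subst ha
        simp only
        rw [add_comm]
        refine (AddSubmonoid.closure_mono ?_) (hN s hs)
        intro y hy
        exact Finset.mem_coe.2 (Finset.mem_union_right _ (Finset.mem_coe.1 hy))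

theorem exists_ev_lt (hu : u ≠ 0) (M : ℝ) : ∃ v : Fin n → ℤ, ev u v < M := by
  have : ∃ v : Fin n → ℤ, ev u v < 0 := by
    obtain ⟨i, hi⟩ := Function.ne_iff.1 hu
    simp only [Pi.zero_apply] at hi
    rcases lt_or_gt_of_ne hi with h | h
    · exact ⟨Pi.single i 1, by rw [ev_single]; exact h⟩
    · exact ⟨-Pi.single i 1, by rw [ev_neg, ev_single]; linarith⟩
  obtain ⟨v, hv⟩ := this
  obtain ⟨k, hk⟩ := exists_nat_gt (M / ev u v)
  refine ⟨k • v, ?_⟩
  have e : ev u (k • v) = k * ev u v := by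
    clear hk
    induction k with
    | zero => simp [ev_zero]
    | succ k ih => rw [succ_nsmul, ev_add, ih]; push_cast; ring
  rw [e]
  rw [div_lt_iff_of_neg hv] at hk
  exact hk

/-- second criterion -/
theorem crit2 (hB : Stab (E : Set G) B) (hu : u ≠ 0) (hC : Stab (E : Set G) C)
    (h : p.NN u C B) (hCP : C = p.br B Set.univ P) :
    P ≤ p.br B {v | ev u v < 0} P := by
  obtain ⟨P', hP'2, Gs, hGs, hCe⟩ := h
  have hPC : P' ≤ C := by rw [hCe]; exact le_br (AddSubmonoid.zero_mem _)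
  obtain ⟨F, _, hPF⟩ := le_br_fin hP'2 hB (hPC.trans hCP.le)
  obtain ⟨R, hR, hRF⟩ := exists_bound F (ev u)
  obtain ⟨v, hv⟩ := exists_ev_lt hu (-R)
  obtain ⟨e, he, hev⟩ := p.surj v
  have hC1 : C = p.br B ({v} + ((AddSubmonoid.closure (Gs : Set (Fin n → ℤ)) :
      AddSubmonoid (Fin n → ℤ)) : Set (Fin n → ℤ))) P' := by
    rw [← hev, ← smul_br hB he, ← hCe, smul_eq_of_stab hC he]
  have hPC' : P ≤ C := by rw [hCP]; exact le_br trivial
  refine hPC'.trans (hC1.le.trans ?_)
  refine (br_mono le_rfl hPF).trans ?_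
  rw [br_br hB]
  refine br_mono ?_ le_rfl
  rintro x ⟨y, ⟨a, ha, s, hs, rfl⟩, w, hw, rfl⟩
  rw [Set.mem_singleton_iff] at ha
  subst ha
  simp only [Set.mem_ofPred_eq]
  rw [ev_add, ev_add]
  have h1 : ev u s ≤ 0 := by
    have hs' : s ∈ AddSubmonoid.closure (Gs : Set (Fin n → ℤ)) := hs
    induction hs' using AddSubmonoid.closure_induction with
    | mem x hx => exact (hGs x hx).le
    | zero => rw [ev_zero]
    | add x y hx' hy' hx hy =>
      rw [ev_add]
      have := hx hx'
      have := hy hy'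
      linarith
  have h2 := (abs_le.1 (hRF w hw)).2
  linarith

/-- the largest `E`-stable subgroup between `B` and `C` satisfying `NN u` -/
def rad (p : Pos E L n) (u : Fin n → ℝ) (C B : AddSubgroup D) : AddSubgroup D :=
  sSup {R | B ≤ R ∧ R ≤ C ∧ Stab (E : Set G) R ∧ p.NN u R B}

theorem rad_spec (hE : NA0 D (E : Set G)) (hB : Stab (E : Set G) B)
    (hC : FGm (E : Set G) B C) (u : Fin n → ℝ) :
    B ≤ p.rad u C B ∧ p.rad u C B ≤ C ∧ Stab (E : Set G) (p.rad u C B) ∧
      p.NN u (p.rad u C B) B := by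
  have hBmem : B ∈ {R | B ≤ R ∧ R ≤ C ∧ Stab (E : Set G) R ∧ p.NN u R B} :=
    ⟨le_rfl, hC.le, hB, NN.refl hB u⟩
  obtain ⟨R, hR, hmax⟩ := exists_maximal hE (mulmem E) E.one_mem hC
    {R | B ≤ R ∧ R ≤ C ∧ Stab (E : Set G) R ∧ p.NN u R B}
    (fun R h => ⟨h.1, h.2.1, h.2.2.1⟩) ⟨B, hBmem⟩
  have : p.rad u C B = R := by
    apply le_antisymm
    · refine sSup_le fun R' hR' => ?_
      have hm : R ⊔ R' ∈ {R | B ≤ R ∧ R ≤ C ∧ Stab (E : Set G) R ∧ p.NN u R B} :=
        ⟨le_sup_of_le_left hR.1, sup_le hR.2.1 hR'.2.1, hR.2.2.1.sup hR'.2.2.1,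
          hR.2.2.2.sup hR'.2.2.2 hR.2.2.1 hR'.2.2.1⟩
      have := hmax _ hm le_sup_left
      rw [← this]; exact le_sup_right
    · exact le_sSup hR
  rw [this]; exact hR

theorem le_rad {R : AddSubgroup D} (h1 : B ≤ R) (h2 : R ≤ C) (h3 : Stab (E : Set G) R)
    (h4 : p.NN u R B) : R ≤ p.rad u C B := le_sSup ⟨h1, h2, h3, h4⟩

/-- the relations over the kernel of `u` -/
theorem exists_W (hL : NA0 D (L : Set G)) (hB : Stab (E : Set G) B)
    (hP : FGm (L : Set G) B P) (u : Fin n → ℝ) :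
    ∃ W : Finset (Fin n → ℤ), (∀ w ∈ W, ev u w < 0) ∧
      p.br B (V0 u : Set (Fin n → ℤ)) P ⊓ p.br B {v | ev u v < 0} P ≤
        p.br B ((V0 u : Set (Fin n → ℤ)) + (W : Set (Fin n → ℤ))) P := by
  have hNA : NA0 D (p.pre (V0 u : Set (Fin n → ℤ))) :=
    NA_pre (p := p) hL (V0 u).toAddSubmonoid (V0_fg u)
  have hmul : ∀ a ∈ p.pre (V0 u : Set (Fin n → ℤ)), ∀ b ∈ p.pre (V0 u : Set (Fin n → ℤ)),
      a * b ∈ p.pre (V0 u : Set (Fin n → ℤ)) :=
    pre_closed (p := p) (C := (V0 u).toAddSubmonoid)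
  have hst : Stab (p.pre (V0 u : Set (Fin n → ℤ)))
      (p.br B (V0 u : Set (Fin n → ℤ)) P ⊓ p.br B {v | ev u v < 0} P) := by
    refine Stab.inf (stab_br ?_ hB) (stab_br ?_ hB)
    · rintro _ ⟨a, ha, b, hb, rfl⟩
      exact (V0 u).add_mem ha hb
    · rintro _ ⟨a, ha, b, hb, rfl⟩
      have ha' : ev u a = 0 := ha
      have hb' : ev u b < 0 := hb
      simp only [Set.mem_ofPred_eq]
      rw [ev_add, ha']; linarith
  obtain ⟨X, hX⟩ := NA0.rel hNA hmul (FGm_br (p := p) hP hB)
    (le_inf le_br_base le_br_base) inf_le_left hst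
  have h1 : (1 : G) ∈ p.pre (V0 u : Set (Fin n → ℤ)) :=
    one_mem_pre (p := p) (C := (V0 u).toAddSubmonoid)
  obtain ⟨W, hW, hXW⟩ := fin_union (p := p) (B := B) (P := P) (S := {v | ev u v < 0}) (X := X)
    (fun x hx => br_fin ((hX ▸ AddSubgroup.mem_sup_left (subset_sp h1 hx) :
      x ∈ p.br B (V0 u : Set (Fin n → ℤ)) P ⊓ p.br B {v | ev u v < 0} P).2))
  refine ⟨W, fun w hw => hW hw, ?_⟩
  rw [hX, ← br_br hB]
  exact sup_le_sup_right (sp_mono le_rfl hXW) _

/-- the rewriting lemma -/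
theorem rewrite (hB : Stab (E : Set G) B)
    {W : Finset (Fin n → ℤ)} (hW : ∀ w ∈ W, ev u w < 0)
    (hK : p.br B (V0 u : Set (Fin n → ℤ)) P ⊓ p.br B {v | ev u v < 0} P ≤
        p.br B ((V0 u : Set (Fin n → ℤ)) + (W : Set (Fin n → ℤ))) P)
    {U : Set (Fin n → ℤ)} {c : ℝ}
    (hU : ∀ w ∈ U, c < ev u w → ∀ w' ∈ W, ∀ z, ev u z = 0 → w + w' + z ∈ U)
    {x : D} (hx : x ∈ p.br B U P) (hxc : x ∈ p.br B {v | ev u v ≤ c} P) :
    x ∈ p.br B (U ∩ {v | ev u v ≤ c}) P := by
  classical
  obtain ⟨δ, hδ, hδW⟩ := exists_gap W (ev u) hW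
  -- one layer
  have key : ∀ (N : ℕ) (k : ℕ) (F : Finset (Fin n → ℤ)), F.card = k → (F : Set (Fin n → ℤ)) ⊆
      U ∩ {v | c + N * δ < ev u v ∧ ev u v ≤ c + (N + 1) * δ} →
      x ∈ p.br B ((F : Set (Fin n → ℤ)) ∪ (U ∩ {v | ev u v ≤ c + N * δ})) P →
      x ∈ p.br B (U ∩ {v | ev u v ≤ c + N * δ}) P := by
    intro N k
    induction k using Nat.strong_induction_on with
    | _ k ih =>
      intro F hFk hF hxF
      rcases F.eq_empty_or_nonempty with rfl | hne
      · simpa using hxF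
      · obtain ⟨w0, hw0, hmax⟩ := F.exists_max_image (ev u) hne
        have hw0F := hF hw0
        have hcm : c < ev u w0 := by
          have : 0 ≤ (N : ℝ) * δ := by positivity
          have := hw0F.2.1
          linarith
        set F1 := F.filter (fun w => ev u w = ev u w0) with hF1
        set F2 := F.filter (fun w => ¬ ev u w = ev u w0) with hF2
        have hFu : F = F1 ∪ F2 := (Finset.filter_union_filter_not_eq _ F).symm
        have hF2card : F2.card < k := by
          rw [← hFk]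
          apply Finset.card_lt_card
          refine ⟨Finset.filter_subset _ _, fun h => ?_⟩
          have := h hw0
          rw [hF2, Finset.mem_filter] at this
          exact this.2 rfl
        refine ih F2.card hF2card F2 rfl ?_ ?_
        · intro w hw
          exact hF (Finset.filter_subset _ _ (Finset.mem_coe.1 hw))
        · rw [hFu, Finset.coe_union, Set.union_assoc, br_union] at hxF
          obtain ⟨y, hy, z, hz, hyz⟩ := AddSubgroup.mem_sup.1 hxF
          have hy1 : y ∈ p.br B {v | ev u v < ev u w0} P := by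
            have : y = x - z := by rw [← hyz]; abel
            rw [this]
            refine sub_mem (br_mono ?_ le_rfl hxc) (br_mono ?_ le_rfl hz)
            · intro v hv
              have hv' : ev u v ≤ c := hv
              exact lt_of_le_of_lt hv' hcm
            · intro v hv
              rcases hv with hv | hv
              · have hv' := Finset.mem_filter.1 (Finset.mem_coe.1 hv)
                exact lt_of_le_of_ne (hmax v hv'.1) hv'.2
              · exact lt_of_le_of_lt hv.2 hw0F.2.1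
          have hy2 : y ∈ p.br B ({w0} + (V0 u : Set (Fin n → ℤ))) P := by
            refine br_mono ?_ le_rfl hy
            intro v hv
            have hv' := Finset.mem_filter.1 (Finset.mem_coe.1 hv)
            refine ⟨w0, rfl, v - w0, ?_, by simp⟩
            simp only [SetLike.mem_coe]
            rw [mem_V0, ev_sub, hv'.2, sub_self]
          obtain ⟨e, he, hew⟩ := p.surj w0
          have hy3 : e⁻¹ • y ∈ p.br B (V0 u : Set (Fin n → ℤ)) P ⊓ p.br B {v | ev u v < 0} P := by
            constructor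
            · rw [← hew, ← smul_br hB he] at hy2
              exact AddSubgroup.mem_pointwise_smul_iff_inv_smul_mem.1 hy2
            · have h5 : p.br B {v | ev u v < ev u w0} P ≤
                  e • p.br B {v | ev u v < 0} P := by
                rw [smul_br hB he, hew]
                refine br_mono ?_ le_rfl
                intro v hv
                refine ⟨w0, rfl, v - w0, ?_, by simp⟩
                have hv' : ev u v < ev u w0 := hv
                simp only [Set.mem_ofPred_eq]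
                rw [ev_sub]; linarith
              exact AddSubgroup.mem_pointwise_smul_iff_inv_smul_mem.1 (h5 hy1)
          have hy4 : y ∈ p.br B (U ∩ {v | ev u v ≤ c + N * δ}) P := by
            have h6 := hK hy3
            have h7 : y ∈ e • p.br B ((V0 u : Set (Fin n → ℤ)) + (W : Set (Fin n → ℤ))) P :=
              AddSubgroup.mem_pointwise_smul_iff_inv_smul_mem.2 h6
            rw [smul_br hB he, hew] at h7
            refine br_mono ?_ le_rfl h7
            rintro v ⟨a, ha, b, ⟨z', hz', w', hw', rfl⟩, rfl⟩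
            rw [Set.mem_singleton_iff] at ha
            subst ha
            have hz'' : ev u z' = 0 := hz'
            simp only
            constructor
            · have := hU a hw0F.1 hcm w' hw' z' hz''
              have e1 : a + (z' + w') = a + w' + z' := by abel
              rw [e1]; exact this
            · simp only [Set.mem_ofPred_eq]
              rw [ev_add, ev_add, hz'']
              have := hδW w' hw'
              have := hw0F.2.2
              linarith
          rw [← hyz]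
          refine add_mem (br_mono Set.subset_union_right le_rfl hy4) hz
  -- descend
  have step : ∀ N : ℕ, x ∈ p.br B (U ∩ {v | ev u v ≤ c + N * δ}) P →
      x ∈ p.br B (U ∩ {v | ev u v ≤ c}) P := by
    intro N
    induction N with
    | zero => intro h; simpa using h
    | succ N ih =>
      intro h
      apply ih
      obtain ⟨F, hF, hxF⟩ := br_fin h
      refine key N _ (F.filter fun w => c + N * δ < ev u w) rfl ?_ ?_
      · intro w hw
        have hw' := Finset.mem_filter.1 (Finset.mem_coe.1 hw)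
        have h8 := hF hw'.1
        refine ⟨h8.1, hw'.2, ?_⟩
        have := h8.2
        simp only [Set.mem_ofPred_eq] at this
        push_cast at this
        exact this
      · refine br_mono ?_ le_rfl hxF
        intro w hw
        by_cases h9 : c + N * δ < ev u w
        · exact Or.inl (by simpa using ⟨hw, h9⟩)
        · exact Or.inr ⟨(hF hw).1, not_lt.1 h9⟩
  obtain ⟨F, hF, hxF⟩ := br_fin hx
  obtain ⟨R, hR, hRF⟩ := exists_bound F (ev u)
  obtain ⟨N, hN⟩ := exists_nat_gt ((R - c) / δ)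
  refine step N (br_mono ?_ le_rfl hxF)
  intro w hw
  refine ⟨hF hw, ?_⟩
  have := (abs_le.1 (hRF w hw)).2
  rw [div_lt_iff₀ hδ] at hN
  simp only [Set.mem_ofPred_eq]
  linarith

end Pos

end Pool.Agent.H79.Asc
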