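import Pool.Agent.H79.Asc.Cone2

set_option autoImplicit false

open scoped Pointwise commutatorElement

namespace Pool.Agent.H79.Asc

/-- integer vector as a real vector -/
def rv {n : ℕ} (v : Fin n → ℤ) : Fin n → ℝ := fun i => (v i : ℝ)

/-- rational approximation inside the rational hull -/
theorem exists_int {n : ℕ} (u : Fin n → ℝ) (W : Finset (Fin n → ℤ)) (hW : ∀ w ∈ W, ev u w < 0) :
    ∃ χ : Fin n → ℤ, (∀ v, ev u v = 0 → ev (rv χ) v = 0) ∧ ∀ w ∈ W, ev (rv χ) w < 0 := by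
  classical
  let S : Submodule ℚ ℝ := Submodule.span ℚ (Set.range u)
  have hfin : Module.Finite ℚ S := Module.Finite.span_of_finite ℚ (Set.finite_range u)
  let b := Module.finBasis ℚ S
  set r := Module.finrank ℚ S with hr
  let us : Fin n → S := fun i => ⟨u i, Submodule.subset_span ⟨i, rfl⟩⟩
  let c : Fin r → Fin n → ℚ := fun j i => b.repr (us i) j
  have hu : ∀ i, u i = ∑ j, (c j i : ℝ) * ((b j : S) : ℝ) := by
    intro i
    have h1 := b.sum_repr (us i)
    have h2 := congrArg (fun s : S => (s : ℝ)) h1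
    simp only [Submodule.coe_sum, Submodule.coe_smul] at h2
    rw [show u i = ((us i : S) : ℝ) from rfl, ← h2]
    refine Finset.sum_congr rfl fun j _ => ?_
    rw [Rat.smul_def]
  let φ : (Fin r → ℝ) → (Fin n → ℝ) := fun y i => ∑ j, (c j i : ℝ) * y j
  have hφu : φ (fun j => ((b j : S) : ℝ)) = u := by
    ext i; exact (hu i).symm
  have hev : ∀ y v, ev (φ y) v = ∑ j, ((∑ i, c j i * (v i : ℚ) : ℚ) : ℝ) * y j := by
    intro y v
    unfold ev
    simp only [φ]
    push_cast
    simp only [Finset.sum_mul]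
    rw [Finset.sum_comm]
    refine Finset.sum_congr rfl fun j _ => Finset.sum_congr rfl fun i _ => ?_
    ring
  have hker : ∀ v, ev u v = 0 → ∀ j, ∑ i, c j i * (v i : ℚ) = 0 := by
    intro v hv
    rw [← hφu, hev] at hv
    have h3 : ∑ j, (∑ i, c j i * (v i : ℚ)) • b j = 0 := by
      apply Subtype.ext
      simp only [Submodule.coe_sum, Submodule.coe_smul, ZeroMemClass.coe_zero]
      rw [← hv]
      refine Finset.sum_congr rfl fun j _ => ?_
      rw [Rat.smul_def]
    exact fun j => Fintype.linearIndependent_iff.1 b.linearIndependent _ h3 j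
  have hcont : Continuous φ := by
    fun_prop
  have hopen : IsOpen {y : Fin r → ℝ | ∀ w ∈ W, ev (φ y) w < 0} := by
    have : {y : Fin r → ℝ | ∀ w ∈ W, ev (φ y) w < 0} = ⋂ w ∈ W, {y | ev (φ y) w < 0} := by
      ext y; simp
    rw [this]
    refine isOpen_biInter_finset fun w _ => ?_
    exact isOpen_lt ((ev_continuous w).comp hcont) continuous_const
  have hdense : DenseRange (fun q : Fin r → ℚ => fun j => ((q j : ℚ) : ℝ)) := by
    have := DenseRange.piMap (ι := Fin r) (X := fun _ => ℚ) (Y := fun _ => ℝ)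
      (f := fun _ => ((↑) : ℚ → ℝ)) (fun _ => Rat.denseRange_cast)
    exact this
  obtain ⟨q, hq⟩ := hdense.exists_mem_open hopen
    ⟨fun j => ((b j : S) : ℝ), by simp only [Set.mem_ofPred_eq]; rw [hφu]; exact hW⟩
  -- the rational vector
  let χ' : Fin n → ℚ := fun i => ∑ j, c j i * q j
  have hχ' : φ (fun j => ((q j : ℚ) : ℝ)) = fun i => ((χ' i : ℚ) : ℝ) := by
    ext i
    simp only [φ, χ']
    push_cast; rfl
  let N : ℕ := ∏ i, (χ' i).den
  have hN : 0 < N := Finset.prod_pos fun i _ => (χ' i).den_pos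
  have hdvd : ∀ i, (χ' i).den ∣ N := fun i => Finset.dvd_prod_of_mem _ (Finset.mem_univ i)
  choose m hm using hdvd
  let χ : Fin n → ℤ := fun i => (χ' i).num * m i
  have hχ : rv χ = (N : ℝ) • φ (fun j => ((q j : ℚ) : ℝ)) := by
    rw [hχ']
    ext i
    simp only [rv, χ, Pi.smul_apply, smul_eq_mul]
    have h4 : ((χ' i).num : ℚ) = χ' i * (χ' i).den := (Rat.mul_den_eq_num _).symm
    have h5 : (((χ' i).num * m i : ℤ) : ℚ) = (N : ℚ) * χ' i := by
      rw [hm i]; push_cast; rw [h4]; ring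
    exact_mod_cast h5
  refine ⟨χ, fun v hv => ?_, fun w hw => ?_⟩
  · rw [hχ, ev_smul_left, hev]
    have := hker v hv
    simp [this]
  · rw [hχ, ev_smul_left]
    exact mul_neg_of_pos_of_neg (by exact_mod_cast hN) (hq w hw)

namespace Pos
variable {G D : Type*} [Group G] [AddCommGroup D] [DistribMulAction G D]
variable {E L : Subgroup G} {n : ℕ} {p : Pos E L n}
variable {B C C' P Q : AddSubgroup D} {S S' : Set (Fin n → ℤ)} {u : Fin n → ℝ}

theorem br_le_of_single {R : AddSubgroup D} (hBR : B ≤ R)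
    (h : ∀ t ∈ S, p.br B {t} Q ≤ R) : p.br B S Q ≤ R := by
  refine sup_le ?_ hBR
  rw [sp_le]
  intro g hg x hx
  exact h (p.f g) hg.2 (AddSubgroup.mem_sup_left (smul_mem_sp ⟨hg.1, rfl⟩ hx))

theorem conj_L (p : Pos E L n) {e : G} (he : e ∈ E) : ∀ m ∈ (L : Set G), e * m * e⁻¹ ∈ (L : Set G) := by
  intro m hm
  have hmE := p.hLE hm
  have h1 : e * m * e⁻¹ ∈ E := E.mul_mem (E.mul_mem he hmE) (E.inv_mem he)
  refine (p.ker _ h1).1 ?_
  rw [p.map_conj hmE he]
  exact (p.ker _ hmE).2 hm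

theorem conj_L' (p : Pos E L n) {e : G} (he : e ∈ E) : ∀ m ∈ (L : Set G), e⁻¹ * m * e ∈ (L : Set G) := by
  intro m hm
  have := p.conj_L (E.inv_mem he) m hm
  rwa [inv_inv] at this

theorem FGm_br_fin (hB : Stab (E : Set G) B) (hP : FGm (L : Set G) B P)
    (F : Finset (Fin n → ℤ)) : FGm (L : Set G) B (p.br B (F : Set (Fin n → ℤ)) P) := by
  classical
  induction F using Finset.induction_on with
  | empty =>
    rw [Finset.coe_empty, br_empty]; exact FGm.refl _ _
  | insert v F _ ih =>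
    rw [Finset.coe_insert, Set.insert_eq, br_union]
    refine FGm.sup ?_ ih
    obtain ⟨e, he, rfl⟩ := p.surj v
    rw [br_single (hP.stab (mulmem L) (hB.mono p.hLE)) hP.le hB he]
    have := hP.smul (p.conj_L he) (p.conj_L' he)
    rwa [smul_eq_of_stab hB he] at this

/-- elements deep inside every half space lie in `rad` -/
theorem L6 (hL : NA0 D (L : Set G)) (hB : Stab (E : Set G) B) (hu : u ≠ 0)
    (hP : FGm (L : Set G) B P) :
    ∃ R, B ≤ R ∧ R ≤ p.br B Set.univ P ∧ Stab (E : Set G) R ∧ p.NN u R B ∧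
      ∀ x, (∀ c : ℝ, x ∈ p.br B {v | ev u v ≤ c} P) → x ∈ R := by
  classical
  obtain ⟨W, hW, hK⟩ := exists_W (p := p) hL hB hP u
  obtain ⟨k, hk⟩ := exists_k hW
  let C' : AddSubmonoid (Fin n → ℤ) :=
    AddSubmonoid.closure (Gk W k : Set (Fin n → ℤ)) ⊔ (V0 u).toAddSubmonoid
  have hC'fg : C'.FG := AddSubmonoid.FG.sup ⟨_, rfl⟩ (V0_fg u)
  have hC'neg : ∀ v ∈ C', ev u v ≤ 0 := by
    intro v hv
    obtain ⟨a, ha, b, hb, rfl⟩ := AddSubmonoid.mem_sup.1 hv
    have hb' : ev u b = 0 := hb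
    rw [ev_add, hb', add_zero]
    induction ha using AddSubmonoid.closure_induction with
    | mem x hx => exact (hk x hx).le
    | zero => rw [ev_zero]
    | add x y _ _ hx hy =>
      rw [ev_add]
      have := hx (AddSubmonoid.mem_sup.2 ⟨x, by assumption, b, hb, rfl⟩)
      have := hy (AddSubmonoid.mem_sup.2 ⟨y, by assumption, b, hb, rfl⟩)
      linarith
  let M' : AddSubgroup D := ⨅ t : Fin n → ℤ, p.br B ({t} + (C' : Set (Fin n → ℤ))) P
  have hM's : Stab (E : Set G) M' := by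
    intro e he x hx
    rw [AddSubgroup.mem_iInf] at hx ⊢
    intro t
    have h1 := hx (t - p.f e)
    have h2 : e • x ∈ e • p.br B ({t - p.f e} + (C' : Set (Fin n → ℤ))) P :=
      AddSubgroup.smul_mem_pointwise_smul _ _ _ h1
    rw [smul_br hB he, ← add_assoc] at h2
    simpa using h2
  have hBM : B ≤ M' := le_iInf fun t => le_br_base
  have hMle : M' ≤ p.br B (C' : Set (Fin n → ℤ)) P := by
    refine (iInf_le _ 0).trans ?_
    rw [Set.singleton_add]; simp
  have hNA := NA_pre (p := p) hL C' hC'fg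
  have h4 := hNA.rel pre_closed (FGm_br hP hB) hBM hMle (hM's.mono fun _ hg => hg.1)
  obtain ⟨P', hP', hP'le, hP'2⟩ := exists_of_FGm_pre (p := p) hB C'.zero_mem h4
  have hM'univ : M' = p.br B Set.univ P' := by
    apply le_antisymm
    · rw [hP'2]; exact br_mono (Set.subset_univ _) le_rfl
    · exact br_le hM's hBM hP'le
  have hNN : p.NN u M' B := by
    rw [hM'univ]
    refine crit1 hB hP' ?_
    obtain ⟨v, hv⟩ := exists_ev_lt hu 0
    obtain ⟨e, he, hev⟩ := p.surj v
    refine hP'le.trans ?_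
    rw [← smul_eq_of_stab hM's he, hP'2, smul_br hB he]
    refine br_mono ?_ le_rfl
    rintro _ ⟨a, ha, b, hb, rfl⟩
    rw [Set.mem_singleton_iff] at ha
    subst ha
    simp only [Set.mem_ofPred_eq]
    rw [ev_add, hev]
    have := hC'neg b hb
    linarith
  refine ⟨M', hBM, ?_, hM's, hNN, ?_⟩
  · exact hMle.trans (br_mono (Set.subset_univ _) le_rfl)
  intro x hx
  rw [AddSubgroup.mem_iInf]
  intro t
  obtain ⟨F, _, hxF⟩ := br_fin (hx 0)
  let U : Set (Fin n → ℤ) := {v | ∃ f ∈ F, ∃ s ∈ AddSubmonoid.closure (W : Set (Fin n → ℤ)),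
    ∃ z, ev u z = 0 ∧ v = f + s + z}
  have hFU : (F : Set (Fin n → ℤ)) ⊆ U := fun f hf =>
    ⟨f, hf, 0, AddSubmonoid.zero_mem _, 0, ev_zero u, by simp⟩
  have hU : ∀ c : ℝ, ∀ w ∈ U, c < ev u w → ∀ w' ∈ W, ∀ z, ev u z = 0 → w + w' + z ∈ U := by
    rintro c _ ⟨f, hf, s, hs, z, hz, rfl⟩ _ w' hw' z' hz'
    refine ⟨f, hf, s + w', AddSubmonoid.add_mem _ hs (AddSubmonoid.subset_closure hw'), z + z',
      by rw [ev_add, hz, hz', add_zero], by abel⟩
  have hrew : ∀ c : ℝ, x ∈ p.br B (U ∩ {v | ev u v ≤ c}) P := fun c =>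
    rewrite hB hW hK (hU c) (br_mono hFU le_rfl hxF) (hx c)
  choose N hN using fun f : Fin n → ℤ => comb W k (f - t)
  obtain ⟨R, hR, hRW⟩ := exists_bound W (ev u)
  obtain ⟨R2, hR2, hR2F⟩ := exists_bound F (fun f => ev u f - N f * R)
  refine br_mono ?_ le_rfl (hrew (-R2 - 1))
  rintro _ ⟨⟨f, hf, s, hs, z, hz, rfl⟩, hle⟩
  simp only [Set.mem_ofPred_eq] at hle
  rw [ev_add, ev_add, hz, add_zero] at hle
  obtain ⟨N', hN'⟩ := nf_closure W hs
  have h5 := nf_ev_ge hRW N' s hN'
  have h6 := (abs_le.1 (hR2F f hf)).1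
  have h7 : (N f : ℝ) < N' := by
    by_contra hcon
    have hcon' : (N' : ℝ) ≤ N f := not_lt.1 hcon
    have : (N' : ℝ) * R ≤ N f * R := mul_le_mul_of_nonneg_right hcon' hR.le
    linarith
  have h8 : N f ≤ N' := by exact_mod_cast h7.le
  rw [show N' = N f + (N' - N f) by omega] at hN'
  obtain ⟨a, ha, b, hb, rfl⟩ := nf_add W _ _ s hN'
  refine ⟨t, rfl, (a + (f - t)) + b + z, ?_, by simp only; abel⟩
  refine AddSubmonoid.add_mem _ (AddSubmonoid.mem_sup_left (AddSubmonoid.add_mem _ ?_ ?_))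
    (AddSubmonoid.mem_sup_right hz)
  · refine (AddSubmonoid.closure_mono ?_) (hN f a ha)
    intro y hy
    exact Finset.mem_coe.2 (Finset.mem_union_right _ (Finset.mem_coe.1 hy))
  · refine (AddSubmonoid.closure_mono ?_) (nf_le_closure W _ b hb)
    intro y hy
    exact Finset.mem_coe.2 (Finset.mem_union_left _ (Finset.mem_coe.1 hy))

/-- integer directions suffice -/
theorem BR (hL : NA0 D (L : Set G)) (hB : Stab (E : Set G) B) (hCs : Stab (E : Set G) C)
    (hP : FGm (L : Set G) B P) (hCP : C = p.br B Set.univ P)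
    (h : ∀ χ : Fin n → ℤ, χ ≠ 0 → p.NN (rv χ) C B) (hu : u ≠ 0) : p.NN u C B := by
  classical
  by_contra hcon
  have h1 : ¬ P ≤ p.br B {v | ev u v < 0} P := fun h2 => hcon (by rw [hCP]; exact crit1 hB hP h2)
  obtain ⟨e, heP, he⟩ := SetLike.not_le_iff_exists.1 h1
  obtain ⟨W, hW, hK⟩ := exists_W (p := p) hL hB hP u
  obtain ⟨w0, hw0⟩ := exists_ev_lt hu 0
  obtain ⟨χ, hχ1, hχ2⟩ := exists_int u (insert w0 W) (by
    intro w hw
    rcases Finset.mem_insert.1 hw with rfl | hw
    · exact hw0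
    · exact hW w hw)
  have hχ0 : χ ≠ 0 := by
    rintro rfl
    have := hχ2 w0 (Finset.mem_insert_self _ _)
    have h3 : ev (rv (0 : Fin n → ℤ)) w0 = 0 := by
      unfold ev rv; simp
    linarith
  have hrv0 : rv χ ≠ 0 := by
    intro h4
    apply hχ0
    ext i
    have := congrFun h4 i
    simpa [rv] using this
  have h5 := crit2 hB hrv0 hCs (h χ hχ0) hCP
  have h6 : e ∈ p.br B ({v | ev (rv χ) v < 0} ∩ {v | ev u v ≤ 0}) P := by
    refine rewrite hB hW hK ?_ (h5 heP) ?_
    · intro w hw _ w' hw' z hz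
      simp only [Set.mem_ofPred_eq] at hw ⊢
      rw [ev_add, ev_add, hχ1 z hz]
      have := hχ2 w' (Finset.mem_insert_of_mem hw')
      linarith
    · exact le_br (by simp [ev_zero]) heP
  apply he
  refine br_mono ?_ le_rfl h6
  rintro v ⟨hv1, hv2⟩
  simp only [Set.mem_ofPred_eq] at hv1 hv2 ⊢
  rcases hv2.lt_or_eq with h7 | h7
  · exact h7
  · exact absurd (hχ1 v h7) hv1.ne

/-- squared norm -/
def nsq {n : ℕ} (v : Fin n → ℤ) : ℕ := ∑ i, (v i).natAbs ^ 2

theorem nsq_real {n : ℕ} (v : Fin n → ℤ) : (nsq v : ℝ) = ∑ i, (v i : ℝ) ^ 2 := by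
  unfold nsq
  push_cast
  refine Finset.sum_congr rfl fun i _ => ?_
  rw [Nat.cast_natAbs, Int.cast_abs, sq_abs]

theorem nsq_add {n : ℕ} (v w : Fin n → ℤ) :
    (nsq (v + w) : ℝ) = nsq v + 2 * ev (rv v) w + nsq w := by
  rw [nsq_real, nsq_real, nsq_real]
  unfold ev rv
  rw [Finset.mul_sum, ← Finset.sum_add_distrib, ← Finset.sum_add_distrib]
  refine Finset.sum_congr rfl fun i _ => ?_
  simp only [Pi.add_apply]; push_cast; ring

/-- all directions finite implies finite over `L` -/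
theorem L5 (hB : Stab (E : Set G) B) (hCs : Stab (E : Set G) C)
    (hP : FGm (L : Set G) B P) (hCP : C = p.br B Set.univ P)
    (h : ∀ u : Fin n → ℝ, u ≠ 0 → p.NN u C B) : FGm (L : Set G) B C := by
  classical
  have hcomp : ∃ ε : ℝ, 0 < ε ∧ ∃ R : ℝ, 0 ≤ R ∧ ∀ u ∈ Metric.sphere (0 : Fin n → ℝ) 1,
      ∃ W : Finset (Fin n → ℤ), P ≤ p.br B (W : Set (Fin n → ℤ)) P ∧
        ∀ w ∈ W, ev u w ≤ -ε ∧ (nsq w : ℝ) ≤ R := by
    refine IsCompact.induction_on (p := fun s => ∃ ε : ℝ, 0 < ε ∧ ∃ R : ℝ, 0 ≤ R ∧ ∀ u ∈ s,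
      ∃ W : Finset (Fin n → ℤ), P ≤ p.br B (W : Set (Fin n → ℤ)) P ∧
        ∀ w ∈ W, ev u w ≤ -ε ∧ (nsq w : ℝ) ≤ R) (isCompact_sphere (0 : Fin n → ℝ) 1) ?_ ?_ ?_ ?_
    · exact ⟨1, one_pos, 0, le_rfl, by simp⟩
    · rintro s t hst ⟨ε, hε, R, hR, h1⟩
      exact ⟨ε, hε, R, hR, fun u hu => h1 u (hst hu)⟩
    · rintro s t ⟨ε, hε, R, hR, h1⟩ ⟨ε', hε', R', hR', h1'⟩
      refine ⟨min ε ε', lt_min hε hε', max R R', le_max_of_le_left hR, ?_⟩
      rintro u (hu | hu)
      · obtain ⟨W, h2, h3⟩ := h1 u hu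
        refine ⟨W, h2, fun w hw => ⟨(h3 w hw).1.trans ?_, (h3 w hw).2.trans (le_max_left _ _)⟩⟩
        have := min_le_left ε ε'; linarith
      · obtain ⟨W, h2, h3⟩ := h1' u hu
        refine ⟨W, h2, fun w hw => ⟨(h3 w hw).1.trans ?_, (h3 w hw).2.trans (le_max_right _ _)⟩⟩
        have := min_le_right ε ε'; linarith
    · intro u hu
      have hu0 : u ≠ 0 := by
        rintro rfl
        simp at hu
      have h2 := crit2 hB hu0 hCs (h u hu0) hCP
      obtain ⟨W, hW, hPW⟩ := le_br_fin hP hB h2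
      obtain ⟨δ, hδ, hδW⟩ := exists_gap W (ev u) fun w hw => hW hw
      obtain ⟨R, hR, hRW⟩ := exists_bound W (fun w => (nsq w : ℝ))
      refine ⟨{u' | ∀ w ∈ W, ev u' w < -(δ / 2)}, ?_, δ / 2, by linarith, R, hR.le, ?_⟩
      · apply mem_nhdsWithin_of_mem_nhds
        have : ∀ᶠ u' in nhds u, ∀ w ∈ W, ev u' w < -(δ / 2) := by
          rw [Filter.eventually_all_finset]
          intro w hw
          refine (ev_continuous w).continuousAt.eventually_lt continuousAt_const ?_
          have := hδW w hw; linarith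
        exact this
      · intro u' hu'
        exact ⟨W, hPW, fun w hw => ⟨(hu' w hw).le, (abs_le.1 (hRW w hw)).2⟩⟩
  obtain ⟨ε, hε, R, hR, hW⟩ := hcomp
  -- the ball
  let r : ℝ := R / (2 * ε)
  have hr : 0 ≤ r := by positivity
  have hfin : {v : Fin n → ℤ | ‖rv v‖ ≤ r}.Finite := by
    refine (Set.finite_Icc (fun _ : Fin n => -⌈r⌉) (fun _ : Fin n => ⌈r⌉)).subset ?_
    intro v hv
    have hv' : ‖rv v‖ ≤ r := hv
    rw [pi_norm_le_iff_of_nonneg hr] at hv'
    refine ⟨fun i => ?_, fun i => ?_⟩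
    · have h1 := hv' i
      rw [Real.norm_eq_abs, abs_le] at h1
      have h2 : -(⌈r⌉ : ℝ) ≤ (v i : ℝ) := by
        have := Int.le_ceil r
        have h3 : -r ≤ (v i : ℝ) := h1.1
        linarith
      exact_mod_cast h2
    · have h1 := hv' i
      rw [Real.norm_eq_abs, abs_le] at h1
      have h2 : (v i : ℝ) ≤ (⌈r⌉ : ℝ) := by
        have := Int.le_ceil r
        have h3 : (v i : ℝ) ≤ r := h1.2
        linarith
      exact_mod_cast h2
  have hPs : Stab (L : Set G) P := hP.stab (mulmem L) (hB.mono p.hLE)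
  have hall : ∀ N : ℕ, ∀ v : Fin n → ℤ, nsq v = N →
      p.br B {v} P ≤ p.br B (hfin.toFinset : Set (Fin n → ℤ)) P := by
    intro N
    induction N using Nat.strong_induction_on with
    | _ N ih =>
      intro v hv
      by_cases hvr : ‖rv v‖ ≤ r
      · refine br_mono ?_ le_rfl
        simpa using hvr
      · have hvr' : r < ‖rv v‖ := not_le.1 hvr
        have hpos : 0 < ‖rv v‖ := lt_of_le_of_lt hr hvr'
        obtain ⟨W, hPW, hW2⟩ := hW (‖rv v‖⁻¹ • rv v) (by
          rw [mem_sphere_zero_iff_norm, norm_smul, norm_inv, norm_norm]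
          exact inv_mul_cancel₀ hpos.ne')
        calc p.br B {v} P ≤ p.br B {v} (p.br B (W : Set (Fin n → ℤ)) P) := br_mono le_rfl hPW
          _ = p.br B ({v} + (W : Set (Fin n → ℤ))) P := br_br hB
          _ ≤ _ := by
            refine br_le_of_single le_br_base ?_
            rintro _ ⟨a, ha, w, hw, rfl⟩
            rw [Set.mem_singleton_iff] at ha
            subst ha
            refine ih (nsq (a + w)) ?_ (a + w) rfl
            rw [← hv]
            have h1 := (hW2 w hw).1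
            have h2 := (hW2 w hw).2
            rw [ev_smul_left] at h1
            have h3 : ev (rv a) w ≤ -ε * ‖rv a‖ := by
              have := mul_le_mul_of_nonneg_left h1 hpos.le
              rw [← mul_assoc, mul_inv_cancel₀ hpos.ne', one_mul] at this
              linarith
            have h4 : (nsq (a + w) : ℝ) < nsq a := by
              rw [nsq_add]
              have h5 : R < 2 * ε * ‖rv a‖ := by
                have := hvr'
                simp only [r] at this
                rw [div_lt_iff₀ (by positivity)] at this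
                linarith
              linarith
            exact_mod_cast h4
  have hC1 : C = p.br B (hfin.toFinset : Set (Fin n → ℤ)) P := by
    rw [hCP]
    apply le_antisymm
    · exact br_le_of_single le_br_base fun t _ => hall _ t rfl
    · exact br_mono (Set.subset_univ _) le_rfl
  rw [hC1]
  exact FGm_br_fin hB hP _

end Pos

end Pool.Agent.H79.Asc
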