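import Pool.Agent.H79.Asc.Cone3

set_option autoImplicit false

open scoped Pointwise commutatorElement

namespace Pool.Agent.H79.Asc

/-- the group `GL_n(ℤ)` -/
abbrev Aut (n : ℕ) := (Fin n → ℤ) ≃ₗ[ℤ] (Fin n → ℤ)

section evF
variable {n : ℕ} {K : Type*} [Field K]

/-- evaluation over a field -/
def evF (u : Fin n → K) (v : Fin n → ℤ) : K := ∑ i, u i * (v i : K)

theorem evF_real (u : Fin n → ℝ) (v : Fin n → ℤ) : evF u v = ev u v := rfl

theorem evF_add (u : Fin n → K) (v w : Fin n → ℤ) : evF u (v + w) = evF u v + evF u w := by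
  unfold evF
  rw [← Finset.sum_add_distrib]
  refine Finset.sum_congr rfl fun i _ => ?_
  simp only [Pi.add_apply]; push_cast; ring

theorem evF_zero (u : Fin n → K) : evF u 0 = 0 := by
  unfold evF; simp

/-- evaluation as a homomorphism -/
def evH (u : Fin n → K) : (Fin n → ℤ) →+ K where
  toFun := evF u
  map_zero' := evF_zero u
  map_add' := evF_add u

theorem evH_apply (u : Fin n → K) (v : Fin n → ℤ) : evH u v = evF u v := rfl

theorem evF_zsmul (u : Fin n → K) (z : ℤ) (v : Fin n → ℤ) : evF u (z • v) = z * evF u v := by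
  rw [← evH_apply, map_zsmul, evH_apply, zsmul_eq_mul]

theorem evF_add_left (u u' : Fin n → K) (v : Fin n → ℤ) :
    evF (u + u') v = evF u v + evF u' v := by
  unfold evF
  rw [← Finset.sum_add_distrib]
  refine Finset.sum_congr rfl fun i _ => ?_
  simp only [Pi.add_apply]; ring

theorem evF_smul_left (c : K) (u : Fin n → K) (v : Fin n → ℤ) :
    evF (c • u) v = c * evF u v := by
  unfold evF
  rw [Finset.mul_sum]
  refine Finset.sum_congr rfl fun i _ => ?_
  simp only [Pi.smul_apply, smul_eq_mul]; ring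

theorem evF_single (u : Fin n → K) (i : Fin n) : evF u (Pi.single i 1) = u i := by
  unfold evF
  rw [Finset.sum_eq_single i]
  · simp
  · intro j _ hj
    simp [Pi.single_eq_of_ne hj]
  · simp

theorem eq_sum_single (v : Fin n → ℤ) : v = ∑ i, (v i) • (Pi.single i 1 : Fin n → ℤ) := by
  ext j
  rw [Finset.sum_apply, Finset.sum_eq_single j]
  · simp
  · intro i _ hi
    simp [Pi.single_eq_of_ne hi.symm]
  · simp

variable (K)

/-- the dual action on `K^n` -/
def TF (σ : Aut n) : Module.End K (Fin n → K) where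
  toFun u i := evF u (σ (Pi.single i 1))
  map_add' u u' := by ext i; exact evF_add_left _ _ _
  map_smul' c u := by ext i; exact evF_smul_left _ _ _

variable {K}

theorem TF_apply (σ : Aut n) (u : Fin n → K) (i : Fin n) :
    TF K σ u i = evF u (σ (Pi.single i 1)) := rfl

theorem evF_TF (σ : Aut n) (u : Fin n → K) (v : Fin n → ℤ) :
    evF (TF K σ u) v = evF u (σ v) := by
  conv_rhs => rw [eq_sum_single v, map_sum, ← evH_apply, map_sum]
  unfold evF
  refine Finset.sum_congr rfl fun i _ => ?_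
  rw [TF_apply, map_zsmul, evH_apply, evF_zsmul, mul_comm]

theorem evF_TF_pow (σ : Aut n) (k : ℕ) (u : Fin n → K) (v : Fin n → ℤ) :
    evF ((TF K σ ^ k) u) v = evF u ((σ ^ k) v) := by
  induction k generalizing u with
  | zero => simp
  | succ k ih =>
    rw [pow_succ, Module.End.mul_apply, ih, evF_TF, pow_succ']
    rfl

theorem ev_TF_pow (σ : Aut n) (k : ℕ) (u : Fin n → ℝ) (v : Fin n → ℤ) :
    ev ((TF ℝ σ ^ k) u) v = ev u ((σ ^ k) v) := evF_TF_pow σ k u v

/-- clearing denominators -/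
theorem clear_denom (q : Fin n → ℚ) : ∃ N : ℕ, 0 < N ∧ ∃ v : Fin n → ℤ,
    (fun i => (v i : ℚ)) = (N : ℚ) • q := by
  let N : ℕ := ∏ i, (q i).den
  have hN : 0 < N := Finset.prod_pos fun i _ => (q i).den_pos
  have hdvd : ∀ i, (q i).den ∣ N := fun i => Finset.dvd_prod_of_mem _ (Finset.mem_univ i)
  choose m hm using hdvd
  refine ⟨N, hN, fun i => (q i).num * m i, ?_⟩
  ext i
  simp only [Pi.smul_apply, smul_eq_mul]
  have h4 : ((q i).num : ℚ) = q i * (q i).den := (Rat.mul_den_eq_num _).symm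
  rw [hm i]; push_cast; rw [h4]; ring

/-- the rational extension of `σ` -/
def SQ (σ : Aut n) : Module.End ℚ (Fin n → ℚ) where
  toFun q j := ∑ i, q i * (σ (Pi.single i 1) j : ℚ)
  map_add' q q' := by
    ext j
    simp only [Pi.add_apply]
    rw [← Finset.sum_add_distrib]
    exact Finset.sum_congr rfl fun i _ => by ring
  map_smul' c q := by
    ext j
    simp only [Pi.smul_apply, smul_eq_mul, RingHom.id_apply]
    rw [Finset.mul_sum]
    exact Finset.sum_congr rfl fun i _ => by ring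

/-- integer vector as a rational vector -/
def qv (v : Fin n → ℤ) : Fin n → ℚ := fun i => (v i : ℚ)

theorem SQ_qv (σ : Aut n) (v : Fin n → ℤ) : SQ σ (qv v) = qv (σ v) := by
  ext j
  conv_rhs => rw [eq_sum_single v, map_sum]
  simp only [SQ, qv, LinearMap.coe_mk, AddHom.coe_mk, map_zsmul, Finset.sum_apply, Pi.smul_apply,
    smul_eq_mul]
  push_cast
  rfl

theorem SQ_pow_qv (σ : Aut n) (k : ℕ) (v : Fin n → ℤ) :
    (SQ σ ^ k) (qv v) = qv ((σ ^ k) v) := by
  induction k generalizing v with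
  | zero => simp
  | succ k ih =>
    rw [pow_succ, Module.End.mul_apply, SQ_qv, ih, pow_succ]
    rfl

end evF

/-- irreducibility under all powers and absence of periodic vectors -/
structure Irr {n : ℕ} (σ : Aut n) : Prop where
  irr : ∀ m : ℕ, 1 ≤ m → ∀ Λ : AddSubgroup (Fin n → ℤ), (∀ v ∈ Λ, (σ ^ m) v ∈ Λ) →
    Λ = ⊥ ∨ ∃ N : ℕ, 1 ≤ N ∧ ∀ v, N • v ∈ Λ
  nper : ∀ m : ℕ, 1 ≤ m → ∀ v : Fin n → ℤ, v ≠ 0 → (σ ^ m) v ≠ v
  pos : 0 < n

section semi
variable {n : ℕ} {σ : Aut n}

theorem Irr.semisimpleQ (h : Irr σ) : (SQ σ).IsSemisimple := by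
  rw [Module.End.isSemisimple_iff]
  intro p hp
  rw [Module.End.mem_invtSubmodule] at hp
  let Λ : AddSubgroup (Fin n → ℤ) :=
    { carrier := {v | qv v ∈ p}
      zero_mem' := by
        have : qv (0 : Fin n → ℤ) = 0 := by ext i; simp [qv]
        simp [this]
      add_mem' := by
        intro a b ha hb
        have : qv (a + b) = qv a + qv b := by ext i; simp [qv]
        simp only [Set.mem_ofPred_eq] at *
        rw [this]; exact p.add_mem ha hb
      neg_mem' := by
        intro a ha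
        have : qv (-a) = -qv a := by ext i; simp [qv]
        simp only [Set.mem_ofPred_eq] at *
        rw [this]; exact p.neg_mem ha }
  have hmem : ∀ v, v ∈ Λ ↔ qv v ∈ p := fun v => Iff.rfl
  rcases h.irr 1 le_rfl Λ (fun v hv => by
    rw [hmem] at hv ⊢
    rw [pow_one, ← SQ_qv]; exact hp hv) with h1 | ⟨N, hN, h1⟩
  · have : p = ⊥ := by
      rw [eq_bot_iff]
      intro q hq
      obtain ⟨N, hN, v, hv⟩ := clear_denom q
      have hv' : v ∈ Λ := by
        rw [hmem]
        have : qv v = (N : ℚ) • q := hv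
        rw [this]; exact p.smul_mem _ hq
      rw [h1, AddSubgroup.mem_bot] at hv'
      have hv2 : (N : ℚ) • q = 0 := by
        rw [← hv, hv']; ext i; simp
      rw [Submodule.mem_bot]
      exact (smul_eq_zero.1 hv2).resolve_left (by exact_mod_cast hN.ne')
    subst this
    exact ⟨⊤, by rw [Module.End.mem_invtSubmodule]; exact le_top, isCompl_bot_top⟩
  · have : p = ⊤ := by
      rw [eq_top_iff]
      intro q _
      obtain ⟨N', hN', v, hv⟩ := clear_denom q
      have h2 : qv (N • v) ∈ p := h1 v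
      have h3 : qv (N • v) = ((N : ℚ) * N') • q := by
        rw [mul_smul, ← hv]; ext i; simp [qv]
      rw [h3] at h2
      have h4 : ((N : ℚ) * N') ≠ 0 := by
        have : 0 < N := hN
        positivity
      have h5 := p.smul_mem ((N : ℚ) * N')⁻¹ h2
      rwa [smul_smul, inv_mul_cancel₀ h4, one_smul] at h5
    subst this
    exact ⟨⊥, by rw [Module.End.mem_invtSubmodule]; exact bot_le, isCompl_top_bot⟩

open Polynomial in
theorem aeval_TF (P : ℚ[X]) (u : Fin n → ℂ) (v : Fin n → ℤ) :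
    evF (aeval (TF ℂ σ) (P.map (algebraMap ℚ ℂ)) u) v =
      ∑ j, u j * ((aeval (SQ σ) P (qv v) j : ℚ) : ℂ) := by
  induction P using Polynomial.induction_on' with
  | add p q hp hq =>
    rw [Polynomial.map_add, map_add, LinearMap.add_apply, evF_add_left, hp, hq, map_add,
      ← Finset.sum_add_distrib]
    refine Finset.sum_congr rfl fun j _ => ?_
    simp only [LinearMap.add_apply, Pi.add_apply]
    push_cast; ring
  | monomial k c =>
    rw [Polynomial.map_monomial, aeval_monomial, aeval_monomial, Module.End.mul_apply,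
      Module.algebraMap_end_apply, Module.End.mul_apply, Module.algebraMap_end_apply,
      evF_smul_left, evF_TF_pow, SQ_pow_qv]
    unfold evF
    rw [Finset.mul_sum]
    refine Finset.sum_congr rfl fun j _ => ?_
    simp only [qv, Pi.smul_apply, smul_eq_mul, eq_ratCast]
    push_cast; ring

open Polynomial in
theorem Irr.semisimpleC (h : Irr σ) : (TF ℂ σ).IsSemisimple := by
  have h1 := h.semisimpleQ.minpoly_squarefree
  have h2 : (minpoly ℚ (SQ σ)).Separable := PerfectField.separable_iff_squarefree.2 h1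
  have h3 : ((minpoly ℚ (SQ σ)).map (algebraMap ℚ ℂ)).Separable := h2.map
  refine Module.End.isSemisimple_of_squarefree_aeval_eq_zero h3.squarefree ?_
  refine LinearMap.ext fun u => funext fun i => ?_
  rw [← evF_single (aeval (TF ℂ σ) ((minpoly ℚ (SQ σ)).map (algebraMap ℚ ℂ)) u) i, aeval_TF,
    minpoly.aeval]
  simp

theorem Irr.iSup_eigenspace (h : Irr σ) : ⨆ μ : ℂ, (TF ℂ σ).eigenspace μ = ⊤ := by
  rw [← h.semisimpleC.iSup_maxGenEigenspace_eq_top_iff]
  exact Module.End.iSup_maxGenEigenspace_eq_top _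

/-- the finite set of eigenvalues -/
noncomputable def Sp (σ : Aut n) : Finset ℂ := (TF ℂ σ).finite_hasEigenvalue.toFinset

theorem mem_Sp {μ : ℂ} : μ ∈ Sp σ ↔ (TF ℂ σ).HasEigenvalue μ := by
  unfold Sp; simp

theorem Irr.iSup_Sp (h : Irr σ) : ⨆ μ ∈ Sp σ, (TF ℂ σ).eigenspace μ = ⊤ := by
  rw [eq_top_iff, ← h.iSup_eigenspace]
  refine iSup_le fun μ => ?_
  by_cases hμ : μ ∈ Sp σ
  · exact le_iSup₂_of_le μ hμ le_rfl
  · rw [mem_Sp, Module.End.hasEigenvalue_iff, not_not] at hμ
    rw [hμ]; exact bot_le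

theorem TF_pow_eigen {μ : ℂ} {x : Fin n → ℂ} (hx : x ∈ (TF ℂ σ).eigenspace μ) (k : ℕ) :
    (TF ℂ σ ^ k) x = μ ^ k • x := by
  rw [Module.End.mem_eigenspace_iff] at hx
  induction k with
  | zero => simp
  | succ k ih =>
    rw [pow_succ, Module.End.mul_apply, hx, map_smul, ih, smul_smul, pow_succ]
    ring_nf

theorem Irr.bounded (h : Irr σ) (hle : ∀ μ ∈ Sp σ, ‖μ‖ ≤ 1) (y : Fin n → ℂ) :
    ∃ R : ℝ, ∀ k : ℕ, ‖(TF ℂ σ ^ k) y‖ ≤ R := by
  have hy : y ∈ ⨆ μ ∈ Sp σ, (TF ℂ σ).eigenspace μ := by rw [h.iSup_Sp]; trivial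
  rw [Submodule.mem_iSup_finset_iff_exists_sum] at hy
  obtain ⟨x, rfl⟩ := hy
  refine ⟨∑ μ ∈ Sp σ, ‖(x μ : Fin n → ℂ)‖, fun k => ?_⟩
  rw [map_sum]
  refine (norm_sum_le _ _).trans (Finset.sum_le_sum fun μ hμ => ?_)
  rw [TF_pow_eigen (x μ).2, norm_smul, norm_pow]
  exact mul_le_of_le_one_left (norm_nonneg _) (pow_le_one₀ (norm_nonneg _) (hle μ hμ))

theorem Irr.exists_gt_one (h : Irr σ) : ∃ μ ∈ Sp σ, 1 < ‖μ‖ := by
  by_contra hcon
  push Not at hcon
  have hb := fun i : Fin n => h.bounded hcon (Pi.single i 1)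
  choose R hR using hb
  obtain ⟨R', hR', hRR'⟩ := exists_bound (Finset.univ : Finset (Fin n)) R
  -- entries of `σ^k e_j` are bounded
  have hent : ∀ k : ℕ, ∀ i j : Fin n, |(((σ ^ k) (Pi.single j 1) i : ℤ) : ℝ)| ≤ R' := by
    intro k i j
    have h1 : evF (Pi.single i 1 : Fin n → ℂ) ((σ ^ k) (Pi.single j 1)) =
        (((σ ^ k) (Pi.single j 1) i : ℤ) : ℂ) := by
      unfold evF
      rw [Finset.sum_eq_single i]
      · simp
      · intro l _ hl; simp [Pi.single_eq_of_ne hl]
      · simp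
    rw [← evF_TF_pow, evF_single] at h1
    have h2 := (norm_le_pi_norm ((TF ℂ σ ^ k) (Pi.single i 1)) j).trans (hR i k)
    rw [h1, Complex.norm_intCast] at h2
    exact h2.trans ((le_abs_self _).trans (hRR' i (Finset.mem_univ _)))
  let f : ℕ → (Fin n → Fin n → ℤ) := fun k j => (σ ^ k) (Pi.single j 1)
  have hfin : (Set.range f).Finite := by
    refine (Set.finite_Icc (fun _ _ => -⌈R'⌉ : Fin n → Fin n → ℤ) (fun _ _ => ⌈R'⌉)).subset ?_
    rintro _ ⟨k, rfl⟩
    refine ⟨fun j i => ?_, fun j i => ?_⟩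
    · have h3 := (abs_le.1 (hent k i j)).1
      have h4 : -(⌈R'⌉ : ℝ) ≤ ((f k j i : ℤ) : ℝ) := by
        have := Int.le_ceil R'
        simp only [f]; linarith
      exact_mod_cast h4
    · have h3 := (abs_le.1 (hent k i j)).2
      have h4 : ((f k j i : ℤ) : ℝ) ≤ (⌈R'⌉ : ℝ) := by
        have := Int.le_ceil R'
        simp only [f]; linarith
      exact_mod_cast h4
  have hninj : ¬ Function.Injective f := fun hinj =>
    Set.infinite_range_of_injective hinj hfin
  rw [Function.not_injective_iff] at hninj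
  obtain ⟨a, b, hab, hne⟩ := hninj
  wlog hlt : a < b generalizing a b
  · exact this b a hab.symm hne.symm (lt_of_le_of_ne (not_lt.1 hlt) hne.symm)
  have hpos := h.pos
  let i0 : Fin n := ⟨0, hpos⟩
  have h5 : (σ ^ a) (Pi.single i0 1) = (σ ^ b) (Pi.single i0 1) := congrFun hab i0
  have h6 : (σ ^ b) (Pi.single i0 (1 : ℤ)) = (σ ^ a) ((σ ^ (b - a)) (Pi.single i0 1)) := by
    rw [← LinearEquiv.mul_apply, ← pow_add, Nat.add_sub_cancel' hlt.le]
  rw [h6] at h5
  have h7 := (σ ^ a).injective h5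
  refine h.nper (b - a) (by omega) (Pi.single i0 1) ?_ h7.symm
  intro h8
  have := congrFun h8 i0
  simp at this

end semi

end Pool.Agent.H79.Asc
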