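import Pool.Agent.H79.Asc.Dyn

set_option autoImplicit false

open scoped Pointwise commutatorElement

open Filter Topology

namespace Pool.Agent.H79.Asc

variable {n : ℕ} {σ : Aut n}

/-- recurrence on the torus -/
theorem recur (S : Finset ℂ) (z : ℂ → ℂ) (hz : ∀ μ ∈ S, ‖z μ‖ = 1) (m : ℕ) {ε : ℝ}
    (hε : 0 < ε) (N : ℕ) : ∃ j ≥ N, 1 ≤ j ∧ ∀ μ ∈ S, ‖z μ ^ (m * j) - 1‖ < ε := by
  let x : ℕ → (S → ℂ) := fun k μ => z μ ^ (m * (k * (N + 1)))
  have hx : ∀ k, x k ∈ Metric.closedBall (0 : S → ℂ) 1 := by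
    intro k
    rw [mem_closedBall_zero_iff, pi_norm_le_iff_of_nonneg zero_le_one]
    intro μ
    simp only [x, norm_pow, hz μ μ.2, one_pow, le_refl]
  obtain ⟨a, _, φ, hφ, hlim⟩ := tendsto_subseq_of_bounded Metric.isBounded_closedBall hx
  obtain ⟨K, hK⟩ := Metric.tendsto_atTop.1 hlim (ε / 2) (by linarith)
  have h1 := hK K le_rfl
  have h2 := hK (K + 1) (Nat.le_succ K)
  have h3 : dist (x (φ (K + 1))) (x (φ K)) < ε := by
    have := dist_triangle_right (x (φ (K + 1))) (x (φ K)) a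
    simp only [Function.comp] at h1 h2
    linarith
  have hlt : φ K < φ (K + 1) := hφ (Nat.lt_succ_self K)
  obtain ⟨d, hd⟩ := Nat.exists_eq_add_of_lt hlt
  refine ⟨(d + 1) * (N + 1), ?_, ?_, fun μ hμ => ?_⟩
  · nlinarith
  · nlinarith
  · have h4 : dist (x (φ (K + 1)) ⟨μ, hμ⟩) (x (φ K) ⟨μ, hμ⟩) < ε :=
      lt_of_le_of_lt (dist_le_pi_dist _ _ _) h3
    rw [dist_eq_norm] at h4
    have e : x (φ (K + 1)) ⟨μ, hμ⟩ - x (φ K) ⟨μ, hμ⟩ =
        z μ ^ (m * (φ K * (N + 1))) * (z μ ^ (m * ((d + 1) * (N + 1))) - 1) := by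
      simp only [x, hd]
      rw [mul_sub, mul_one, ← pow_add]
      congr 2
      ring
    rw [e, norm_mul, norm_pow, hz μ hμ, one_pow, one_mul] at h4
    exact h4

/-- sum of the eigenspaces with eigenvalues in a subset -/
noncomputable def ES (σ : Aut n) (q : ℂ → Prop) [DecidablePred q] : Submodule ℂ (Fin n → ℂ) :=
  ⨆ μ ∈ (Sp σ).filter q, (TF ℂ σ).eigenspace μ

theorem Irr.ES_sup (h : Irr σ) (q : ℂ → Prop) [DecidablePred q] :
    ES σ q ⊔ ES σ (fun μ => ¬ q μ) = ⊤ := by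
  rw [eq_top_iff, ← h.iSup_Sp]
  refine iSup₂_le fun μ hμ => ?_
  by_cases hq : q μ
  · exact le_sup_of_le_left (le_iSup₂_of_le μ (Finset.mem_filter.2 ⟨hμ, hq⟩) le_rfl)
  · exact le_sup_of_le_right (le_iSup₂_of_le μ (Finset.mem_filter.2 ⟨hμ, hq⟩) le_rfl)

theorem ES_inv (q : ℂ → Prop) [DecidablePred q] (y : Fin n → ℂ) (hy : y ∈ ES σ q) :
    TF ℂ σ y ∈ ES σ q := by
  unfold ES at hy
  rw [Submodule.mem_iSup_finset_iff_exists_sum] at hy
  obtain ⟨x, rfl⟩ := hy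
  rw [map_sum]
  refine Submodule.sum_mem _ fun μ hμ => ?_
  rw [Module.End.mem_eigenspace_iff.1 (x μ).2]
  exact Submodule.smul_mem _ _ ((le_iSup₂_of_le μ hμ le_rfl : (TF ℂ σ).eigenspace μ ≤ ES σ q)
    (x μ).2)

theorem tendsto_small {r : ℝ} (hr : 0 < r) (q : ℂ → Prop) [DecidablePred q]
    (hq : ∀ μ ∈ Sp σ, q μ → ‖μ‖ < r) (y : Fin n → ℂ) (hy : y ∈ ES σ q) :
    Tendsto (fun k : ℕ => ((r : ℂ) ^ k)⁻¹ • (TF ℂ σ ^ k) y) atTop (𝓝 0) := by
  unfold ES at hy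
  rw [Submodule.mem_iSup_finset_iff_exists_sum] at hy
  obtain ⟨x, rfl⟩ := hy
  have e : (fun k : ℕ => ((r : ℂ) ^ k)⁻¹ • (TF ℂ σ ^ k) (∑ μ ∈ (Sp σ).filter q,
      (x μ : Fin n → ℂ))) =
      fun k : ℕ => ∑ μ ∈ (Sp σ).filter q, (μ / r) ^ k • (x μ : Fin n → ℂ) := by
    ext1 k
    rw [map_sum, Finset.smul_sum]
    refine Finset.sum_congr rfl fun μ _ => ?_
    rw [TF_pow_eigen (x μ).2, smul_smul, div_pow]
    congr 1
    rw [div_eq_mul_inv, mul_comm]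
  rw [e, ← Finset.sum_const_zero (s := (Sp σ).filter q)]
  refine tendsto_finsetSum _ fun μ hμ => ?_
  have hμ' := Finset.mem_filter.1 hμ
  have h1 : Tendsto (fun k : ℕ => (μ / r) ^ k) atTop (𝓝 0) := by
    apply tendsto_pow_atTop_nhds_zero_of_norm_lt_one
    rw [norm_div, Complex.norm_real, Real.norm_of_nonneg hr.le, div_lt_one hr]
    exact hq μ hμ'.1 hμ'.2
  simpa using h1.smul_const (x μ : Fin n → ℂ)

theorem main_rec {r : ℝ} (hr : 0 < r) (hle : ∀ μ ∈ Sp σ, ‖μ‖ ≤ r)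
    {y y' : Fin n → ℂ} (hy : y ∈ ES σ (fun μ => ‖μ‖ = r))
    (hy' : y' ∈ ES σ (fun μ => ¬ ‖μ‖ = r)) (m : ℕ) (hm : 1 ≤ m) {ε : ℝ} (hε : 0 < ε) (N : ℕ) :
    ∃ j ≥ N, 1 ≤ j ∧ ‖((r : ℂ) ^ (m * j))⁻¹ • (TF ℂ σ ^ (m * j)) (y + y') - y‖ < ε := by
  have h1 := tendsto_small (σ := σ) hr (fun μ => ¬ ‖μ‖ = r)
    (fun μ hμ hne => lt_of_le_of_ne (hle μ hμ) hne) y' hy'
  rw [Metric.tendsto_atTop] at h1
  obtain ⟨K, hK⟩ := h1 (ε / 2) (by linarith)
  unfold ES at hy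
  rw [Submodule.mem_iSup_finset_iff_exists_sum] at hy
  obtain ⟨x, rfl⟩ := hy
  set S := (Sp σ).filter (fun μ => ‖μ‖ = r) with hS
  set Sx := ∑ μ ∈ S, ‖(x μ : Fin n → ℂ)‖ with hSx
  have hS0 : 0 ≤ Sx := Finset.sum_nonneg fun _ _ => norm_nonneg _
  obtain ⟨j, hj, hj1, hjS⟩ := recur S (fun μ => μ / r) (fun μ hμ => by
    have := (Finset.mem_filter.1 hμ).2
    rw [norm_div, Complex.norm_real, Real.norm_of_nonneg hr.le, this, div_self hr.ne']) m
    (ε := ε / 2 / (Sx + 1)) (by positivity) (max N K)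
  refine ⟨j, (le_max_left _ _).trans hj, hj1, ?_⟩
  have hmj : K ≤ m * j := by
    have : K ≤ j := (le_max_right _ _).trans hj
    nlinarith
  have h2 := hK (m * j) hmj
  rw [dist_zero_right] at h2
  have e : ((r : ℂ) ^ (m * j))⁻¹ • (TF ℂ σ ^ (m * j)) ((∑ μ ∈ S, (x μ : Fin n → ℂ)) + y') -
      ∑ μ ∈ S, (x μ : Fin n → ℂ) =
      (∑ μ ∈ S, ((μ / r) ^ (m * j) - 1) • (x μ : Fin n → ℂ)) +
        ((r : ℂ) ^ (m * j))⁻¹ • (TF ℂ σ ^ (m * j)) y' := by
    rw [map_add, smul_add, map_sum, Finset.smul_sum, add_sub_right_comm,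
      ← Finset.sum_sub_distrib]
    congr 1
    refine Finset.sum_congr rfl fun μ _ => ?_
    rw [TF_pow_eigen (x μ).2, smul_smul, div_pow, sub_smul, one_smul]
    congr 2
    rw [div_eq_mul_inv, mul_comm]
  rw [e]
  have h3 : ‖∑ μ ∈ S, ((μ / r) ^ (m * j) - 1) • (x μ : Fin n → ℂ)‖ ≤
      ε / 2 / (Sx + 1) * Sx := by
    rw [hSx, Finset.mul_sum]
    refine (norm_sum_le _ _).trans (Finset.sum_le_sum fun μ hμ => ?_)
    rw [norm_smul]
    exact mul_le_mul_of_nonneg_right (hjS μ hμ).le (norm_nonneg _)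
  have h4 : ε / 2 / (Sx + 1) * Sx ≤ ε / 2 := by
    rw [div_mul_eq_mul_div, div_le_iff₀ (by positivity)]
    nlinarith
  have := norm_add_le (∑ μ ∈ S, ((μ / r) ^ (m * j) - 1) • (x μ : Fin n → ℂ))
    (((r : ℂ) ^ (m * j))⁻¹ • (TF ℂ σ ^ (m * j)) y')
  linarith

/-- real vectors inside complex vectors -/
def ofR (n : ℕ) : (Fin n → ℝ) →ₗ[ℝ] (Fin n → ℂ) where
  toFun u i := (u i : ℂ)
  map_add' u v := by ext i; simp
  map_smul' c u := by ext i; simp

theorem ofR_apply (u : Fin n → ℝ) (i : Fin n) : ofR n u i = (u i : ℂ) := rfl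

theorem norm_ofR (u : Fin n → ℝ) : ‖ofR n u‖ = ‖u‖ := by
  simp only [Pi.norm_def, ofR_apply]
  congr 1
  refine Finset.sup_congr rfl fun i _ => ?_
  ext
  simp

theorem evF_ofR (u : Fin n → ℝ) (v : Fin n → ℤ) : evF (ofR n u) v = ((ev u v : ℝ) : ℂ) := by
  unfold evF ev
  simp only [ofR_apply]
  push_cast; rfl

theorem TF_ofR (k : ℕ) (u : Fin n → ℝ) : (TF ℂ σ ^ k) (ofR n u) = ofR n ((TF ℝ σ ^ k) u) := by
  ext i
  rw [← evF_single ((TF ℂ σ ^ k) (ofR n u)) i, evF_TF_pow, evF_ofR, ofR_apply, ← ev_TF_pow,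
    ev_single]

/-- the real subspace of dominant directions -/
noncomputable def PiR (σ : Aut n) (r : ℝ) : Submodule ℝ (Fin n → ℝ) :=
  ((ES σ (fun μ => ‖μ‖ = r)).restrictScalars ℝ).comap (ofR n)

theorem mem_PiR {r : ℝ} {u : Fin n → ℝ} : u ∈ PiR σ r ↔ ofR n u ∈ ES σ (fun μ => ‖μ‖ = r) :=
  Iff.rfl

theorem PiR_rec {r : ℝ} (hr : 0 < r) (hle : ∀ μ ∈ Sp σ, ‖μ‖ ≤ r)
    {u : Fin n → ℝ} (hu : u ∈ PiR σ r) {U : Set (Fin n → ℝ)} (hU : U ∈ 𝓝 u)
    (m : ℕ) (hm : 1 ≤ m) (N : ℕ) :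
    ∃ j ≥ N, 1 ≤ j ∧ (r ^ (m * j))⁻¹ • (TF ℝ σ ^ (m * j)) u ∈ U := by
  obtain ⟨ε, hε, hεU⟩ := Metric.mem_nhds_iff.1 hU
  obtain ⟨j, hj, hj1, h1⟩ := main_rec hr hle (mem_PiR.1 hu)
    (Submodule.zero_mem (ES σ (fun μ => ¬ ‖μ‖ = r))) m hm hε N
  refine ⟨j, hj, hj1, hεU ?_⟩
  rw [Metric.mem_ball, dist_eq_norm, ← norm_ofR, map_sub, map_smul, ← TF_ofR]
  rw [add_zero] at h1
  convert h1 using 2
  congr 1
  ext i
  simp

/-- the submodule generated by an integer vector is everything -/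
theorem Irr.eq_top (h : Irr σ) (N : Submodule ℂ (Fin n → ℂ)) (hN : ∀ y ∈ N, TF ℂ σ y ∈ N)
    {χ : Fin n → ℤ} (hχ : χ ≠ 0) (hχN : ofR n (rv χ) ∈ N) : N = ⊤ := by
  let ιQ : (Fin n → ℚ) → (Fin n → ℂ) := fun q i => ((q i : ℚ) : ℂ)
  let S : Submodule ℚ (Fin n → ℚ) :=
    { carrier := {q | ιQ q ∈ N}
      zero_mem' := by
        have : ιQ 0 = 0 := by ext i; simp [ιQ]
        simp only [Set.mem_ofPred_eq]
        rw [this]; exact N.zero_mem
      add_mem' := by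
        intro a b ha hb
        have : ιQ (a + b) = ιQ a + ιQ b := by ext i; simp [ιQ]
        simp only [Set.mem_ofPred_eq] at *
        rw [this]; exact N.add_mem ha hb
      smul_mem' := by
        intro c a ha
        have : ιQ (c • a) = (c : ℂ) • ιQ a := by ext i; simp [ιQ]
        simp only [Set.mem_ofPred_eq] at *
        rw [this]; exact N.smul_mem _ ha }
  have hSmem : ∀ q, q ∈ S ↔ ιQ q ∈ N := fun q => Iff.rfl
  have hTN : ∀ k : ℕ, (TF ℂ σ ^ k) (ofR n (rv χ)) ∈ N := by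
    intro k
    induction k with
    | zero => simpa using hχN
    | succ k ih => rw [pow_succ', Module.End.mul_apply]; exact hN _ ih
  have hTS : ∀ k : ℕ, (TF ℚ σ ^ k) (qv χ) ∈ S := by
    intro k
    rw [hSmem]
    convert hTN k using 1
    ext i
    simp only [ιQ]
    rw [← evF_single ((TF ℚ σ ^ k) (qv χ)) i, evF_TF_pow,
      ← evF_single ((TF ℂ σ ^ k) (ofR n (rv χ))) i, evF_TF_pow]
    unfold evF
    push_cast
    refine Finset.sum_congr rfl fun j _ => ?_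
    simp [qv, ofR_apply, rv]
  have hS : S = ⊤ := by
    by_contra hne
    obtain ⟨f, hf, hSf⟩ := Submodule.exists_le_ker_of_lt_top S (lt_top_iff_ne_top.2 hne)
    have hfe : ∀ q : Fin n → ℚ, f q = ∑ i, q i * f (Pi.single i 1) := by
      intro q
      conv_lhs => rw [← LinearMap.sum_single_apply (fun _ => ℚ) q]
      rw [map_sum]
      refine Finset.sum_congr rfl fun i _ => ?_
      have : (Pi.single i (q i) : Fin n → ℚ) = q i • Pi.single i 1 := by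
        rw [← Pi.single_smul]; simp
      rw [this, map_smul, smul_eq_mul]
    obtain ⟨M, hM, v, hv⟩ := clear_denom (fun i => f (Pi.single i 1))
    have hv0 : v ≠ 0 := by
      rintro rfl
      apply hf
      ext i
      have h1 := congrFun hv i
      simp only [Pi.zero_apply, Int.cast_zero, Pi.smul_apply, smul_eq_mul] at h1
      have hM' : (M : ℚ) ≠ 0 := by exact_mod_cast hM.ne'
      have h2 := (mul_eq_zero.1 h1.symm).resolve_left hM'
      simpa using h2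
    have hev : ∀ q : Fin n → ℚ, q ∈ S → evF q v = 0 := by
      intro q hq
      have h1 : f q = 0 := hSf hq
      have h2 : evF q v = M * f q := by
        rw [hfe, Finset.mul_sum]
        unfold evF
        refine Finset.sum_congr rfl fun i _ => ?_
        have := congrFun hv i
        simp only [Pi.smul_apply, smul_eq_mul] at this
        rw [this]; ring
      rw [h2, h1, mul_zero]
    let Λ : AddSubgroup (Fin n → ℤ) := ⨅ k : ℕ,
      (AddMonoidHom.ker ((evH (qv χ)).comp ((σ ^ k : Aut n) : (Fin n → ℤ) →ₗ[ℤ] _).toAddMonoidHom))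
    have hΛ : ∀ w, w ∈ Λ ↔ ∀ k : ℕ, evF (qv χ) ((σ ^ k) w) = 0 := by
      intro w
      simp only [Λ, AddSubgroup.mem_iInf, AddMonoidHom.mem_ker]
      rfl
    rcases h.irr 1 le_rfl Λ (fun w hw => by
      rw [hΛ] at hw ⊢
      intro k
      rw [pow_one, ← LinearEquiv.mul_apply, ← pow_succ]
      exact hw (k + 1)) with h3 | ⟨N', hN', h3⟩
    · have : v ∈ Λ := by
        rw [hΛ]
        intro k
        rw [← evF_TF_pow]
        exact hev _ (hTS k)
      rw [h3, AddSubgroup.mem_bot] at this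
      exact hv0 this
    · apply hχ
      ext i
      have h4 := (hΛ _).1 (h3 (Pi.single i 1)) 0
      rw [pow_zero, LinearEquiv.coe_one, id_eq, ← natCast_zsmul, evF_zsmul, evF_single] at h4
      have hN'' : (N' : ℚ) ≠ 0 := by
        have : 0 < N' := hN'
        exact_mod_cast this.ne'
      have h5 := (mul_eq_zero.1 h4).resolve_left (by exact_mod_cast hN'')
      simpa [qv] using h5
  rw [eq_top_iff]
  intro y _
  rw [← LinearMap.sum_single_apply (fun _ => ℂ) y]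
  refine N.sum_mem fun i _ => ?_
  have h6 : (Pi.single i (y i) : Fin n → ℂ) = y i • ιQ (Pi.single i 1) := by
    ext j
    simp only [ιQ, Pi.smul_apply, smul_eq_mul]
    by_cases hij : j = i
    · subst hij; simp
    · simp [Pi.single_eq_of_ne hij]
  rw [h6]
  refine N.smul_mem _ ?_
  have : (Pi.single i 1 : Fin n → ℚ) ∈ S := by rw [hS]; trivial
  exact this

end Pool.Agent.H79.Asc
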