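import Pool.Agent.H79.Asc.Dyn2

set_option autoImplicit false

open scoped Pointwise commutatorElement

open Filter Topology

namespace Pool.Agent.H79.Asc

variable {n : ℕ} {σ : Aut n}

theorem evF_eigen_inv {μ : ℂ} (hμ : μ ≠ 0) {x : Fin n → ℂ} (hx : x ∈ (TF ℂ σ).eigenspace μ)
    (i : ℕ) (v : Fin n → ℤ) : evF x ((σ ^ i)⁻¹ v) = (μ⁻¹) ^ i * evF x v := by
  have h1 : evF ((TF ℂ σ ^ i) x) ((σ ^ i)⁻¹ v) = evF x v := by
    rw [evF_TF_pow, ← LinearEquiv.mul_apply, mul_inv_cancel]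
    rfl
  rw [TF_pow_eigen hx, evF_smul_left] at h1
  rw [← h1, ← mul_assoc, ← mul_pow, inv_mul_cancel₀ hμ, one_pow, one_mul]

theorem tendsto_back {r : ℝ} (hr : 1 < r) {y : Fin n → ℂ} (hy : y ∈ ES σ (fun μ => ‖μ‖ = r))
    (v : Fin n → ℤ) : Tendsto (fun i : ℕ => evF y ((σ ^ i)⁻¹ v)) atTop (𝓝 0) := by
  unfold ES at hy
  rw [Submodule.mem_iSup_finset_iff_exists_sum] at hy
  obtain ⟨x, rfl⟩ := hy
  have hne : ∀ μ ∈ (Sp σ).filter (fun μ => ‖μ‖ = r), μ ≠ 0 := by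
    intro μ hμ h0
    have := (Finset.mem_filter.1 hμ).2
    rw [h0, norm_zero] at this
    linarith
  have e : (fun i : ℕ => evF (∑ μ ∈ (Sp σ).filter (fun μ => ‖μ‖ = r), (x μ : Fin n → ℂ))
      ((σ ^ i)⁻¹ v)) = fun i : ℕ => ∑ μ ∈ (Sp σ).filter (fun μ => ‖μ‖ = r),
        (μ⁻¹) ^ i * evF (x μ : Fin n → ℂ) v := by
    ext1 i
    have h1 : ∀ s : Finset ℂ, evF (∑ μ ∈ s, (x μ : Fin n → ℂ)) ((σ ^ i)⁻¹ v) =
        ∑ μ ∈ s, evF (x μ : Fin n → ℂ) ((σ ^ i)⁻¹ v) := by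
      classical
      intro s
      induction s using Finset.induction_on with
      | empty => simp [evF]
      | insert a s ha ih => rw [Finset.sum_insert ha, Finset.sum_insert ha, evF_add_left, ih]
    rw [h1]
    exact Finset.sum_congr rfl fun μ hμ => evF_eigen_inv (hne μ hμ) (x μ).2 i v
  rw [e, ← Finset.sum_const_zero (s := (Sp σ).filter (fun μ => ‖μ‖ = r))]
  refine tendsto_finsetSum _ fun μ hμ => ?_
  have hμ' := (Finset.mem_filter.1 hμ).2
  have h1 : Tendsto (fun k : ℕ => (μ⁻¹) ^ k) atTop (𝓝 0) := by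
    apply tendsto_pow_atTop_nhds_zero_of_norm_lt_one
    rw [norm_inv, hμ']
    exact inv_lt_one_of_one_lt₀ hr
  simpa using h1.mul_const (evF (x μ : Fin n → ℂ) v)

/-- van der Waerden argument -/
theorem Irr.avoid (h : Irr σ) {u : Fin n → ℝ} (hu : u ≠ 0) (W : Finset (Fin n → ℤ))
    (hW : ∀ w ∈ W, w ≠ 0) (m : ℕ) (hm : 1 ≤ m) (N : ℕ) :
    ∃ i ≥ N, ∀ w ∈ W, ev u ((σ ^ (m * i))⁻¹ w) ≠ 0 := by
  classical
  by_contra hcon
  push Not at hcon
  have hc : ∀ i : ℕ, ∃ w : W, ev u ((σ ^ (m * (N + i)))⁻¹ w) = 0 := by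
    intro i
    obtain ⟨w, hw, h1⟩ := hcon (N + i) (Nat.le_add_right _ _)
    exact ⟨⟨w, hw⟩, h1⟩
  choose C hC using hc
  obtain ⟨a, ha, b, w, hab⟩ := Combinatorics.exists_mono_homothetic_copy (Finset.range (n + 1)) C
  -- the operator
  set ρ : Aut n := σ ^ (m * a) with hρ
  set w' : Fin n → ℤ := (σ ^ (m * (N + (a * n + b))))⁻¹ (w : Fin n → ℤ) with hw'
  have hw'0 : w' ≠ 0 := by
    intro h0
    apply hW w w.2
    rw [hw'] at h0
    exact (LinearEquiv.map_eq_zero_iff _).1 h0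
  have hvan : ∀ s ≤ n, ev u ((ρ ^ s) w') = 0 := by
    intro s hs
    have h1 := hC (a • (n - s) + b)
    rw [hab (n - s) (Finset.mem_range.2 (by omega))] at h1
    have e : (ρ ^ s) w' = (σ ^ (m * (N + (a • (n - s) + b))))⁻¹ (w : Fin n → ℤ) := by
      have key : m * (N + (a * n + b)) = m * (N + (a • (n - s) + b)) + m * a * s := by
        obtain ⟨d, rfl⟩ := Nat.exists_eq_add_of_le hs
        simp only [smul_eq_mul, Nat.add_sub_cancel_left]
        ring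
      rw [hw', hρ, key, pow_add, mul_inv_rev, ← pow_mul, ← LinearEquiv.mul_apply, ← mul_assoc,
        mul_inv_cancel, one_mul]
    rw [e]; exact h1
  let R : Module.End ℤ (Fin n → ℤ) := (ρ : (Fin n → ℤ) →ₗ[ℤ] (Fin n → ℤ))
  have hR : ∀ (k : ℕ) (v : Fin n → ℤ), (R ^ k) v = (ρ ^ k) v := by
    intro k
    induction k with
    | zero => intro v; rfl
    | succ k ih => intro v; rw [pow_succ, Module.End.mul_apply, ih, pow_succ]; rfl
  have hev0 : ∀ (v : Fin n → ℤ), ev u v = evH u v := fun v => rfl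
  have hCH : ∀ k : ℕ, ev u ((ρ ^ (k + n)) w') =
      - ∑ t ∈ Finset.range n, (R.charpoly.coeff t : ℝ) * ev u ((ρ ^ (k + t)) w') := by
    intro k
    have h1 := R.aeval_self_charpoly
    rw [Polynomial.aeval_eq_sum_range' (n := n + 1) (by
      rw [R.charpoly_natDegree]; simp)] at h1
    have h2 : evH u ((R ^ k) ((∑ i ∈ Finset.range (n + 1), R.charpoly.coeff i • R ^ i) w')) = 0 := by
      rw [h1]; simp
    rw [Finset.sum_range_succ, LinearMap.add_apply, LinearMap.sum_apply, map_add, map_sum,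
      map_add, map_sum] at h2
    have h3 : R.charpoly.coeff n = 1 := by
      have := R.charpoly_monic
      rw [Polynomial.Monic, Polynomial.leadingCoeff, R.charpoly_natDegree] at this
      simpa using this
    rw [h3, one_smul, ← Module.End.mul_apply, ← pow_add, hR] at h2
    rw [hev0, eq_neg_iff_add_eq_zero, add_comm, ← h2]
    congr 1
    refine Finset.sum_congr rfl fun t _ => ?_
    rw [LinearMap.smul_apply, map_zsmul, map_zsmul, ← Module.End.mul_apply, ← pow_add, hR,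
      zsmul_eq_mul, hev0]
  have hall : ∀ s : ℕ, ev u ((ρ ^ s) w') = 0 := by
    intro s
    induction s using Nat.strong_induction_on with
    | _ s ih =>
      rcases le_or_gt s n with hs | hs
      · exact hvan s hs
      · obtain ⟨k, rfl⟩ := Nat.exists_eq_add_of_le' hs.le
        rw [hCH, neg_eq_zero]
        refine Finset.sum_eq_zero fun t ht => ?_
        rw [ih (k + t) (by have := Finset.mem_range.1 ht; omega), mul_zero]
  let Λ : AddSubgroup (Fin n → ℤ) := ⨅ k : ℕ,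
      (AddMonoidHom.ker ((evH u).comp ((ρ ^ k : Aut n) : (Fin n → ℤ) →ₗ[ℤ] _).toAddMonoidHom))
  have hΛ : ∀ w, w ∈ Λ ↔ ∀ k : ℕ, ev u ((ρ ^ k) w) = 0 := by
    intro w
    simp only [Λ, AddSubgroup.mem_iInf, AddMonoidHom.mem_ker]
    rfl
  rcases h.irr (m * a) (Nat.mul_pos hm ha) Λ (fun w hw => by
    rw [hΛ] at hw ⊢
    intro k
    rw [← hρ, ← LinearEquiv.mul_apply, ← pow_succ]
    exact hw (k + 1)) with h3 | ⟨N', hN', h3⟩
  · have : w' ∈ Λ := by rw [hΛ]; exact hall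
    rw [h3, AddSubgroup.mem_bot] at this
    exact hw'0 this
  · apply hu
    ext i
    have h4 := (hΛ _).1 (h3 (Pi.single i 1)) 0
    rw [pow_zero, LinearEquiv.coe_one, id_eq, ← natCast_zsmul, ← evF_real, evF_zsmul,
      evF_single] at h4
    have hN'' : (N' : ℝ) ≠ 0 := by
      have : 0 < N' := hN'
      exact_mod_cast this.ne'
    exact (mul_eq_zero.1 h4).resolve_left (by exact_mod_cast hN'')

/-- The dynamical input. -/
theorem Irr.dyn (h : Irr σ) : ∃ (r : ℝ) (V : Submodule ℝ (Fin n → ℝ)), 1 < r ∧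
    (∀ u ∈ V, ∀ v, Tendsto (fun i : ℕ => ev u ((σ ^ i)⁻¹ v)) atTop (𝓝 0)) ∧
    (∀ u ∈ V, ∀ m, 1 ≤ m → ∀ U ∈ 𝓝 u, ∀ N, ∃ j ≥ N, 1 ≤ j ∧
      (r ^ (m * j))⁻¹ • (TF ℝ σ ^ (m * j)) u ∈ U) ∧
    (∀ χ : Fin n → ℤ, χ ≠ 0 → ∀ m, 1 ≤ m → ∃ u ∈ V, u ≠ 0 ∧ ∀ U ∈ 𝓝 u, ∃ j, 1 ≤ j ∧
      (r ^ (m * j))⁻¹ • (TF ℝ σ ^ (m * j)) (rv χ) ∈ U) := by
  classical
  obtain ⟨μ1, hμ1, h1⟩ := h.exists_gt_one
  obtain ⟨μ0, hμ0, hmax⟩ := (Sp σ).exists_max_image (fun μ => ‖μ‖) ⟨μ1, hμ1⟩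
  have hr : 1 < ‖μ0‖ := h1.trans_le (hmax μ1 hμ1)
  have hr0 : 0 < ‖μ0‖ := by linarith
  refine ⟨‖μ0‖, PiR σ ‖μ0‖, hr, ?_, ?_, ?_⟩
  · intro u hu v
    have h2 := tendsto_back hr (mem_PiR.1 hu) v
    have h3 : Tendsto (fun i : ℕ => ((ev u ((σ ^ i)⁻¹ v) : ℝ) : ℂ)) atTop (𝓝 0) := by
      simpa only [evF_ofR] using h2
    have h4 := (Complex.continuous_re.tendsto 0).comp h3
    have e : (Complex.re ∘ fun i : ℕ => ((ev u ((σ ^ i)⁻¹ v) : ℝ) : ℂ)) =
        fun i : ℕ => ev u ((σ ^ i)⁻¹ v) := by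
      ext i; simp only [Function.comp, Complex.ofReal_re]
    rw [e, Complex.zero_re] at h4
    exact h4
  · intro u hu m hm U hU N
    exact PiR_rec hr0 hmax hu hU m hm N
  · intro χ hχ m hm
    have h2 : ofR n (rv χ) ∈ ES σ (fun μ => ‖μ‖ = ‖μ0‖) ⊔ ES σ (fun μ => ¬ ‖μ‖ = ‖μ0‖) := by
      rw [h.ES_sup]; trivial
    obtain ⟨y, hy, y', hy', hyy⟩ := Submodule.mem_sup.1 h2
    have hrec := fun (ε : ℝ) (hε : 0 < ε) (N : ℕ) => main_rec (σ := σ) hr0 hmax hy hy' m hm hε N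
    rw [hyy] at hrec
    -- real part
    have hreal : ∀ i, (y i).im = 0 := by
      intro i
      by_contra hne
      obtain ⟨j, _, _, hj⟩ := hrec |(y i).im| (abs_pos.2 hne) 0
      have h3 : ((‖μ0‖ : ℂ) ^ (m * j))⁻¹ • (TF ℂ σ ^ (m * j)) (ofR n (rv χ)) =
          ofR n ((‖μ0‖ ^ (m * j))⁻¹ • (TF ℝ σ ^ (m * j)) (rv χ)) := by
        rw [map_smul, ← TF_ofR]
        ext i; simp
      rw [h3] at hj
      have h4 := lt_of_le_of_lt (norm_le_pi_norm _ i) hj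
      have h5 := lt_of_le_of_lt (Complex.abs_im_le_norm _) h4
      simp only [Pi.sub_apply, ofR_apply, Complex.sub_im, Complex.ofReal_im, zero_sub,
        abs_neg] at h5
      exact lt_irrefl _ h5
    let u : Fin n → ℝ := fun i => (y i).re
    have huy : ofR n u = y := by
      ext i
      rw [ofR_apply]
      apply Complex.ext
      · simp [u]
      · simp [hreal i]
    refine ⟨u, ?_, ?_, ?_⟩
    · rw [mem_PiR, huy]; exact hy
    · intro h0
      have hy0 : y = 0 := by rw [← huy, h0, map_zero]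
      rw [hy0, zero_add] at hyy
      have htop := h.eq_top (ES σ (fun μ => ¬ ‖μ‖ = ‖μ0‖)) (fun y hy => ES_inv _ y hy) hχ
        (by rw [← hyy]; exact hy')
      obtain ⟨x, hx⟩ := (mem_Sp.1 hμ0).exists_hasEigenvector
      have hind := Module.End.eigenspaces_iSupIndep (TF ℂ σ) μ0
      have hle : ES σ (fun μ => ¬ ‖μ‖ = ‖μ0‖) ≤ ⨆ j, ⨆ (_ : j ≠ μ0), (TF ℂ σ).eigenspace j := by
        refine iSup₂_le fun μ hμ => ?_
        refine le_iSup₂_of_le μ ?_ le_rfl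
        rintro rfl
        exact (Finset.mem_filter.1 hμ).2 rfl
      rw [htop, top_le_iff] at hle
      rw [hle] at hind
      have := (disjoint_top.1 hind)
      apply hx.2
      have hx1 : x ∈ (TF ℂ σ).eigenspace μ0 := hx.1
      rw [this] at hx1
      simpa using hx1
    · intro U hU
      obtain ⟨ε, hε, hεU⟩ := Metric.mem_nhds_iff.1 hU
      obtain ⟨j, _, hj1, hj⟩ := hrec ε hε 0
      refine ⟨j, hj1, hεU ?_⟩
      rw [Metric.mem_ball, dist_eq_norm, ← norm_ofR, map_sub, map_smul, ← TF_ofR, huy]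
      convert hj using 2
      congr 1
      ext i
      simp

end Pool.Agent.H79.Asc
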