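import Pool.Agent.H79.Asc.Main2

set_option autoImplicit false

open scoped Pointwise commutatorElement

namespace Pool.Agent.H79.Asc

section
variable {G : Type*} [Group G]

/-- finite subsets of a directed union -/
theorem finite_in_chain {c : Set (Subgroup G)} (hc : IsChain (· ≤ ·) c) (hne : c.Nonempty)
    (T : Finset G) (hT : (T : Set G) ⊆ (sSup c : Subgroup G)) : ∃ H ∈ c, (T : Set G) ⊆ H := by
  classical
  induction T using Finset.induction_on with
  | empty => obtain ⟨H, hH⟩ := hne; exact ⟨H, hH, by simp⟩
  | insert x T _ ih =>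
    obtain ⟨H, hH, hTH⟩ := ih (fun y hy => hT (by simp [hy]))
    have hx : x ∈ (sSup c : Subgroup G) := hT (by simp)
    rw [Subgroup.mem_sSup_of_directedOn hne hc.directedOn] at hx
    obtain ⟨K, hK, hxK⟩ := hx
    rcases hc.total hH hK with h | h
    · refine ⟨K, hK, fun y hy => ?_⟩
      rw [Finset.coe_insert, Set.mem_insert_iff] at hy
      rcases hy with rfl | hy
      · exact hxK
      · exact h (hTH hy)
    · refine ⟨H, hH, fun y hy => ?_⟩
      rw [Finset.coe_insert, Set.mem_insert_iff] at hy
      rcases hy with rfl | hy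
      · exact h hxK
      · exact hTH hy

/-- the final argument, with an abstract module `D` identified with `A` -/
theorem final_step {D : Type*} [AddCommGroup D] [DistribMulAction G D] {A : Subgroup G}
    (hA : PolyMod A) (ι : D → G) (hιA : ∀ x, ι x ∈ A) (hιs : ∀ a ∈ A, ∃ x, ι x = a)
    (hιi : Function.Injective ι) (hι0 : ι 0 = 1) (hιadd : ∀ x y, ι (x + y) = ι x * ι y)
    (hιneg : ∀ x, ι (-x) = (ι x)⁻¹) (hιg : ∀ (g : G) x, ι (g • x) = g * ι x * g⁻¹)
    (hab : ∀ a ∈ A, ∀ b ∈ A, a * b = b * a) (hG : Group.FG G)
    (hasc : ∀ H : Subgroup G, H ≠ ⊤ → H.FG → Group.IsNilpotent H →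
      ∃ K : Subgroup G, H < K ∧ K.FG ∧ Group.IsNilpotent K) : Group.IsNilpotent G := by
  classical
  have hn := hA.normal
  have hact : ∀ a ∈ A, ∀ x : D, a • x = x := by
    intro a ha x
    apply hιi
    rw [hιg, hab a ha _ (hιA x)]; group
  -- finite generation
  have hD : FGm ((⊤ : Subgroup G) : Set G) ⊥ (⊤ : AddSubgroup D) := by
    obtain ⟨X, hXA, hX⟩ := hA.fp hG
    choose! s hs using hιs
    refine ⟨X.image s, ?_⟩
    rw [sup_bot_eq, eq_comm, eq_top_iff]
    intro x _
    have key : ∀ a ∈ ncl (⊤ : Subgroup G) (X : Set G), ∀ x : D, ι x = a →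
        x ∈ sp ((⊤ : Subgroup G) : Set G) ((X.image s : Finset D) : Set D) := by
      have hnclA : ∀ a ∈ ncl (⊤ : Subgroup G) (X : Set G), a ∈ A := by
        intro a ha
        have : ncl (⊤ : Subgroup G) (X : Set G) ≤ A := by
          unfold ncl
          rw [Subgroup.closure_le]
          rintro _ ⟨k, _, y, hy, rfl⟩
          exact hn.conj_mem y (hXA hy) k
        exact this ha
      intro a ha
      have ha' := ha
      unfold ncl at ha
      induction ha using Subgroup.closure_induction with
      | mem a h =>
        intro x hx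
        obtain ⟨k, _, y, hy, rfl⟩ := h
        have : x = k • s y := by
          apply hιi
          rw [hx, hιg, hs y (hXA hy)]
        rw [this]
        refine smul_mem_sp (by trivial) ?_
        simp only [Finset.coe_image, Set.mem_image]
        exact ⟨y, hy, rfl⟩
      | one =>
        intro x hx
        have : x = 0 := hιi (by rw [hx, hι0])
        rw [this]; exact zero_mem _
      | mul a b hac hbc iha ihb =>
        intro x hx
        have haA := hnclA a hac
        have hbA := hnclA b hbc
        have : x = s a + s b := hιi (by rw [hx, hιadd, hs a haA, hs b hbA])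
        rw [this]
        exact add_mem (iha hac _ (hs a haA)) (ihb hbc _ (hs b hbA))
      | inv a hac iha =>
        intro x hx
        have haA := hnclA a hac
        have : x = - s a := hιi (by rw [hx, hιneg, hs a haA])
        rw [this]
        exact neg_mem (iha hac _ (hs a haA))
    exact key (ι x) (hX (hιA x)) x rfl
  obtain ⟨γ, DA, hDA, hDA'⟩ := main_D hA hact hD
  -- elements of nilpotent subgroups containing `γ`
  have hnil : ∀ H : Subgroup G, γ ∈ H → Group.IsNilpotent H → ∀ x : D, ι x ∈ H → x ∈ DA := by
    intro H hγ hH x hx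
    obtain ⟨c, hc⟩ := (Subgroup.isNilpotent_iff_lowerCentralSeries H).1 hH
    let y : ℕ → D := fun k => (fun z => γ • z - z)^[k] x
    have hy0 : y 0 = x := rfl
    have hys : ∀ k, y (k + 1) = γ • y k - y k := fun k => by
      simp only [y, Function.iterate_succ_apply']
    have hyl : ∀ k, ι (y k) ∈ H.lowerCentralSeries k := by
      intro k
      induction k with
      | zero => exact hx
      | succ k ih =>
        rw [hys, sub_eq_add_neg, hιadd, hιg, hιneg, Subgroup.lowerCentralSeries_succ]
        have h1 : ⁅ι (y k), γ⁆ ∈ ⁅H.lowerCentralSeries k, H⁆ :=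
          Subgroup.commutator_mem_commutator ih hγ
        have h2 := Subgroup.inv_mem _ h1
        rw [commutatorElement_inv, commutatorElement_def] at h2
        exact h2
    have hyc : y c = 0 := by
      have := hyl c
      rw [hc, Subgroup.mem_bot, ← hι0] at this
      exact hιi this
    let X : AddSubgroup D := AddSubgroup.closure (((Finset.range (c + 1)).image y : Finset D) : Set D)
    have hyX : ∀ k ≤ c, y k ∈ X := by
      intro k hk
      apply AddSubgroup.subset_closure
      simp only [Finset.coe_image, Set.mem_image, Finset.coe_range, Set.mem_Iio]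
      exact ⟨k, by omega, rfl⟩
    have hXe : γ • X = X := by
      apply le_antisymm
      · intro z hz
        obtain ⟨w, hw, rfl⟩ := (AddSubgroup.mem_smul_pointwise_iff_exists _ _ _).1 hz
        induction hw using AddSubgroup.closure_induction with
        | mem w hw =>
          simp only [Finset.coe_image, Set.mem_image, Finset.coe_range, Set.mem_Iio] at hw
          obtain ⟨k, hk, rfl⟩ := hw
          have e : γ • y k = y (k + 1) + y k := by rw [hys]; abel
          rw [e]
          rcases Nat.lt_succ_iff_lt_or_eq.1 hk with h | h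
          · exact add_mem (hyX _ h) (hyX _ h.le)
          · subst h
            rw [hys, hyc, smul_zero]; simp
        | zero => rw [smul_zero]; exact zero_mem _
        | add a b ha hb iha ihb =>
          rw [smul_add]
          exact add_mem (iha (AddSubgroup.smul_mem_pointwise_smul _ _ _ ha))
            (ihb (AddSubgroup.smul_mem_pointwise_smul _ _ _ hb))
        | neg a ha iha =>
          rw [smul_neg]
          exact neg_mem (iha (AddSubgroup.smul_mem_pointwise_smul _ _ _ ha))
      · have key : ∀ j k : ℕ, k + j = c → y k ∈ γ • X := by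
          intro j
          induction j with
          | zero =>
            intro k hk
            have : k = c := by omega
            rw [this, hyc]; exact zero_mem _
          | succ j ih =>
            intro k hk
            have e : y k = γ • y k - y (k + 1) := by rw [hys]; abel
            rw [e]
            exact sub_mem (AddSubgroup.smul_mem_pointwise_smul _ _ _ (hyX k (by omega)))
              (ih (k + 1) (by omega))
        refine (AddSubgroup.closure_le _).2 fun w hw => ?_
        simp only [Finset.coe_image, Set.mem_image, Finset.coe_range, Set.mem_Iio] at hw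
        obtain ⟨k, hk, rfl⟩ := hw
        exact key (c - k) k (by omega)
    have hle := hDA' X ⟨_, rfl⟩ hXe
    exact hle (by rw [← hy0]; exact hyX 0 (Nat.zero_le _))
  -- Zorn
  let 𝓢 : Set (Subgroup G) := {H | γ ∈ H ∧ H.FG ∧ Group.IsNilpotent H}
  have hz : Subgroup.zpowers γ ∈ 𝓢 := by
    refine ⟨Subgroup.mem_zpowers γ, ⟨{γ}, ?_⟩, ?_⟩
    · rw [Subgroup.zpowers_eq_closure]; simp
    · refine Subgroup.isNilpotent_of_lowerCentralSeries_eq_bot (n := 1) ?_
      rw [eq_bot_iff]
      change ⁅Subgroup.zpowers γ, Subgroup.zpowers γ⁆ ≤ ⊥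
      rw [Subgroup.commutator_le]
      intro x hx y hy
      obtain ⟨a, rfl⟩ := Subgroup.mem_zpowers_iff.1 hx
      obtain ⟨b, rfl⟩ := Subgroup.mem_zpowers_iff.1 hy
      rw [Subgroup.mem_bot, commutatorElement_def]; group
  obtain ⟨m, _, hm⟩ := zorn_le_nonempty₀ 𝓢 (fun c hcS hch H0 hH0 => by
    have hne : c.Nonempty := ⟨H0, hH0⟩
    set L : Subgroup G := sSup c with hL
    -- the additive part
    let M : AddSubgroup D :=
      { carrier := {x | ι x ∈ L}
        zero_mem' := by simp only [Set.mem_ofPred_eq]; rw [hι0]; exact L.one_mem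
        add_mem' := by
          intro a b ha hb
          simp only [Set.mem_ofPred_eq] at *
          rw [hιadd]; exact L.mul_mem ha hb
        neg_mem' := by
          intro a ha
          simp only [Set.mem_ofPred_eq] at *
          rw [hιneg]; exact L.inv_mem ha }
    have hMDA : M ≤ DA := by
      intro x hx
      have hx' : ι x ∈ (sSup c : Subgroup G) := hx
      rw [Subgroup.mem_sSup_of_directedOn hne hch.directedOn] at hx'
      obtain ⟨H, hH, hxH⟩ := hx'
      exact hnil H (hcS hH).1 (hcS hH).2.2 x hxH
    obtain ⟨XA, hXA⟩ := hDA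
    obtain ⟨X', hX'⟩ := hA.NA hact A le_rfl XA M (fun a ha x hx => by rw [hact a ha]; exact hx)
      (hMDA.trans (by
        rw [← hXA, AddSubgroup.closure_le]; exact subset_sp A.one_mem))
    have hX'M : (X' : Set D) ⊆ M := by rw [hX']; exact subset_sp A.one_mem
    obtain ⟨S, hS⟩ := hA.fg (L ⊔ A) le_sup_right
    have hpick : ∀ s ∈ S, ∃ l ∈ L, ∃ a ∈ A, l * a = s := by
      intro s hs
      apply Subgroup.mem_sup_of_normal_right.1
      rw [hS]; exact Subgroup.mem_sup_left (Subgroup.subset_closure hs)
    choose! l hl a ha hla using hpick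
    let S' : Finset G := S.image l
    have hS'L : (S' : Set G) ⊆ L := by
      intro g hg
      simp only [S', Finset.coe_image, Set.mem_image] at hg
      obtain ⟨s, hs, rfl⟩ := hg
      exact hl s hs
    have hLle : L ≤ Subgroup.closure (S' : Set G) ⊔ A := by
      refine le_sup_left.trans (hS.le.trans (sup_le ((Subgroup.closure_le _).2 ?_) le_sup_right))
      intro s hs
      rw [← hla s hs]
      refine Subgroup.mul_mem _ (Subgroup.mem_sup_left (Subgroup.subset_closure ?_))
        (Subgroup.mem_sup_right (ha s hs))
      simp only [S', Finset.coe_image, Set.mem_image]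
      exact ⟨s, hs, rfl⟩
    obtain ⟨H, hH, hTH⟩ := finite_in_chain hch hne (S' ∪ X'.image ι) (by
      intro g hg
      rw [Finset.coe_union] at hg
      rcases hg with hg | hg
      · exact hS'L hg
      · simp only [Finset.coe_image, Set.mem_image] at hg
        obtain ⟨x, hx, rfl⟩ := hg
        exact hX'M hx)
    have hS'H : Subgroup.closure (S' : Set G) ≤ H := by
      rw [Subgroup.closure_le]
      intro g hg
      exact hTH (by rw [Finset.coe_union]; exact Or.inl hg)
    have hMH : ∀ x ∈ M, ι x ∈ H := by
      intro x hx
      rw [hX'] at hx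
      refine sp_induction (p := fun x => ι x ∈ H) ?_ ?_ ?_ ?_ hx
      · intro a ha x hx
        rw [hact a ha]
        refine hTH ?_
        rw [Finset.coe_union]
        right
        simp only [Finset.coe_image, Set.mem_image]
        exact ⟨x, hx, rfl⟩
      · rw [hι0]; exact H.one_mem
      · intro x y hx hy; rw [hιadd]; exact H.mul_mem hx hy
      · intro x hx; rw [hιneg]; exact H.inv_mem hx
    have hLH : L ≤ H := by
      intro x hx
      obtain ⟨y, hy, b, hb, hyb⟩ := Subgroup.mem_sup_of_normal_right.1 (hLle hx)
      obtain ⟨z, hz⟩ := hιs b hb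
      have hyH := hS'H hy
      have hHL : H ≤ L := le_sSup hH
      have hzM : z ∈ M := by
        have h1 : ι z ∈ L := by
          have : ι z = y⁻¹ * x := by rw [hz, ← hyb]; group
          rw [this]; exact L.mul_mem (L.inv_mem (hHL hyH)) hx
        exact h1
      have h2 := hMH z hzM
      rw [← hyb, ← hz]
      exact H.mul_mem hyH h2
    exact ⟨H, hcS hH, fun K hK => (le_sSup hK).trans hLH⟩) _ hz
  by_contra hcon
  have hmS := hm.prop
  have hmtop : m ≠ ⊤ := by
    rintro rfl
    exact hcon (Group.isNilpotent_top.1 hmS.2.2)
  obtain ⟨K, hK, hKfg, hKn⟩ := hasc m hmtop hmS.2.1 hmS.2.2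
  have h3 := hm.le_of_ge (show K ∈ 𝓢 from ⟨hK.le hmS.1, hKfg, hKn⟩) hK.le
  exact hK.not_ge h3

/-- Main theorem. -/
theorem asc_main {A : Subgroup G} (hA : PolyMod A) (hab : ∀ a ∈ A, ∀ b ∈ A, a * b = b * a)
    (hG : Group.FG G)
    (hasc : ∀ H : Subgroup G, H ≠ ⊤ → H.FG → Group.IsNilpotent H →
      ∃ K : Subgroup G, H < K ∧ K.FG ∧ Group.IsNilpotent K) : Group.IsNilpotent G := by
  have hn := hA.normal
  let _ : CommGroup A := { (inferInstance : Group A) with
    mul_comm := fun a b => Subtype.ext (hab _ a.2 _ b.2) }
  let _ : DistribMulAction G (Additive A) :=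
    { smul := fun g x => Additive.ofMul (MulAut.conjNormal g x.toMul)
      one_smul := by
        intro x
        change Additive.ofMul (MulAut.conjNormal 1 x.toMul) = x
        rw [map_one]; rfl
      mul_smul := by
        intro g h x
        change Additive.ofMul (MulAut.conjNormal (g * h) x.toMul) =
          Additive.ofMul (MulAut.conjNormal g (MulAut.conjNormal h x.toMul))
        rw [map_mul]; rfl
      smul_zero := by
        intro g
        change Additive.ofMul (MulAut.conjNormal g 1) = 0
        rw [map_one]; rfl
      smul_add := by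
        intro g x y
        change Additive.ofMul (MulAut.conjNormal g (x.toMul * y.toMul)) =
          Additive.ofMul (MulAut.conjNormal g x.toMul) + Additive.ofMul (MulAut.conjNormal g y.toMul)
        rw [map_mul]; rfl }
  refine final_step (D := Additive A) hA (fun x => ((x.toMul : A) : G)) (fun x => (x.toMul).2)
    (fun a ha => ⟨Additive.ofMul ⟨a, ha⟩, rfl⟩) ?_ rfl (fun _ _ => rfl) (fun _ => rfl) ?_ hab hG hasc
  · intro x y hxy
    exact Additive.toMul.injective (Subtype.ext hxy)
  · intro g x
    change ((MulAut.conjNormal g x.toMul : A) : G) = _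
    rw [MulAut.conjNormal_apply]

end

end Pool.Agent.H79.Asc
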