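import Pool.Agent.H79.Asc.Poly

set_option autoImplicit false

open scoped Pointwise

namespace Pool.Agent.H79.Asc

section
variable {G : Type*} [Group G]

/-- conjugates of `X` by elements of `K`, and the subgroup they generate -/
def ncl (K : Subgroup G) (X : Set G) : Subgroup G :=
  Subgroup.closure {y | ∃ k ∈ K, ∃ x ∈ X, y = k * x * k⁻¹}

theorem ncl_mono {K K' : Subgroup G} {X X' : Set G} (h : K ≤ K') (h' : X ⊆ X') :
    ncl K X ≤ ncl K' X' := by
  unfold ncl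
  apply Subgroup.closure_mono
  rintro y ⟨k, hk, x, hx, rfl⟩
  exact ⟨k, h hk, x, h' hx, rfl⟩

theorem subset_ncl (K : Subgroup G) (X : Set G) : X ⊆ ncl K X := fun x hx =>
  Subgroup.subset_closure ⟨1, K.one_mem, x, hx, by simp⟩

theorem conj_ncl {K : Subgroup G} {X : Set G} {k : G} (hk : k ∈ K) {n : G} (hn : n ∈ ncl K X) :
    k * n * k⁻¹ ∈ ncl K X := by
  unfold ncl at hn ⊢
  induction hn using Subgroup.closure_induction with
  | mem x hx =>
    obtain ⟨l, hl, x, hx, rfl⟩ := hx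
    apply Subgroup.subset_closure
    exact ⟨k * l, K.mul_mem hk hl, x, hx, by group⟩
  | one => simp
  | mul x y _ _ hx hy =>
    have : k * (x * y) * k⁻¹ = (k * x * k⁻¹) * (k * y * k⁻¹) := by group
    rw [this]; exact Subgroup.mul_mem _ hx hy
  | inv x _ hx =>
    have : k * x⁻¹ * k⁻¹ = (k * x * k⁻¹)⁻¹ := by group
    rw [this]; exact Subgroup.inv_mem _ hx

theorem ncl_le {K : Subgroup G} {X : Set G} {N : Subgroup G} (hX : X ⊆ N)
    (hN : ∀ k ∈ K, ∀ n ∈ N, k * n * k⁻¹ ∈ N) : ncl K X ≤ N := by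
  unfold ncl
  rw [Subgroup.closure_le]
  rintro y ⟨k, hk, x, hx, rfl⟩
  exact hN k hk x (hX hx)

theorem mem_sup_normalized {H N : Subgroup G} (h : ∀ x ∈ H, ∀ n ∈ N, x * n * x⁻¹ ∈ N) (x : G) :
    x ∈ H ⊔ N ↔ ∃ a ∈ H, ∃ n ∈ N, x = a * n := by
  constructor
  · intro hx
    let S : Subgroup G :=
      { carrier := {x | ∃ a ∈ H, ∃ n ∈ N, x = a * n}
        one_mem' := ⟨1, H.one_mem, 1, N.one_mem, by simp⟩
        mul_mem' := by
          rintro _ _ ⟨a, ha, n, hn, rfl⟩ ⟨b, hb, m, hm, rfl⟩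
          refine ⟨a * b, H.mul_mem ha hb, (b⁻¹ * n * b) * m, N.mul_mem ?_ hm, by group⟩
          have := h b⁻¹ (H.inv_mem hb) n hn
          simpa using this
        inv_mem' := by
          rintro _ ⟨a, ha, n, hn, rfl⟩
          refine ⟨a⁻¹, H.inv_mem ha, a * n⁻¹ * a⁻¹, h a ha _ (N.inv_mem hn), by group⟩ }
    have : H ⊔ N ≤ S := sup_le (fun a ha => ⟨a, ha, 1, N.one_mem, by simp⟩)
      (fun n hn => ⟨1, H.one_mem, n, hn, by simp⟩)
    exact this hx
  · rintro ⟨a, ha, n, hn, rfl⟩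
    exact Subgroup.mul_mem _ (Subgroup.mem_sup_left ha) (Subgroup.mem_sup_right hn)

theorem mem_sup_normal {A : Subgroup G} (hA : A.Normal) (K : Subgroup G) (x : G) :
    x ∈ K ⊔ A ↔ ∃ a ∈ K, ∃ n ∈ A, x = a * n :=
  mem_sup_normalized (fun x _ n hn => hA.conj_mem n hn x) x

def RR (A E : Subgroup G) : Prop :=
  ∀ K : Subgroup G, K.FG → K ⊔ A = E →
    ∃ X : Finset G, (X : Set G) ⊆ (K ⊓ A : Subgroup G) ∧ K ⊓ A ≤ ncl K (X : Set G)

theorem RR_base (A : Subgroup G) : RR A A := by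
  intro K hK hKA
  obtain ⟨S, hS⟩ := hK
  have hle : K ≤ A := by rw [← hKA]; exact le_sup_left
  have hSK : (S : Set G) ⊆ K := by rw [← hS]; exact Subgroup.subset_closure
  refine ⟨S, fun x hx => ⟨hSK hx, hle (hSK hx)⟩, ?_⟩
  refine inf_le_left.trans ?_
  rw [← hS, Subgroup.closure_le, hS]
  exact subset_ncl K _

theorem RR_step {A : Subgroup G} (hA : PolyMod A) {E : Subgroup G} {t : G} (hAE : A ≤ E)
    (hR : RR A E) (ht : ∀ x ∈ E, t * x * t⁻¹ ∈ E) (ht' : ∀ x ∈ E, t⁻¹ * x * t ∈ E) :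
    RR A (E ⊔ Subgroup.zpowers t) := by
  classical
  have hAn := hA.normal
  intro K hK hKA
  -- replace t by an element of K
  have htK : t ∈ K ⊔ A := by
    rw [hKA]; exact Subgroup.mem_sup_right (Subgroup.mem_zpowers t)
  obtain ⟨k, hk, a, ha, hka⟩ := (mem_sup_normal hAn K t).1 htK
  have hkt : k = t * a⁻¹ := by rw [hka]; group
  have hks : ∀ x ∈ E, k * x * k⁻¹ ∈ E := by
    intro x hx
    have e : k * x * k⁻¹ = t * (a⁻¹ * x * a) * t⁻¹ := by rw [hkt]; group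
    rw [e]
    exact ht _ (E.mul_mem (E.mul_mem (E.inv_mem (hAE ha)) hx) (hAE ha))
  have hks' : ∀ x ∈ E, k⁻¹ * x * k ∈ E := by
    intro x hx
    have e : k⁻¹ * x * k = a * (t⁻¹ * x * t) * a⁻¹ := by rw [hkt]; group
    rw [e]
    exact E.mul_mem (E.mul_mem (hAE ha) (ht' x hx)) (E.inv_mem (hAE ha))
  have hE' : E ⊔ Subgroup.zpowers t = E ⊔ Subgroup.zpowers k := by
    apply le_antisymm
    · refine sup_le le_sup_left ?_
      rw [Subgroup.zpowers_le, hka]
      exact Subgroup.mul_mem _ (Subgroup.mem_sup_right (Subgroup.mem_zpowers k))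
        (Subgroup.mem_sup_left (hAE ha))
    · refine sup_le le_sup_left ?_
      rw [Subgroup.zpowers_le, hkt]
      exact Subgroup.mul_mem _ (Subgroup.mem_sup_right (Subgroup.mem_zpowers t))
        (Subgroup.mem_sup_left (E.inv_mem (hAE ha)))
  have hEKA : E ≤ K ⊔ A := by rw [hKA]; exact le_sup_left
  obtain ⟨S, hS⟩ := hA.fg E hAE
  have hSE : ∀ s ∈ S, s ∈ E := by
    intro s hs; rw [hS]; exact Subgroup.mem_sup_left (Subgroup.subset_closure hs)
  have hpick : ∀ s ∈ S, ∃ l ∈ K, ∃ b ∈ A, s = l * b := fun s hs =>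
    (mem_sup_normal hAn K s).1 (hEKA (hSE s hs))
  choose! l hl b hb hlb using hpick
  let S' : Finset G := S.image l
  let H : Subgroup G := Subgroup.closure (S' : Set G)
  have hlE : ∀ s ∈ S, l s ∈ E := by
    intro s hs
    have : l s = s * (b s)⁻¹ := eq_mul_inv_of_mul_eq (hlb s hs).symm
    rw [this]; exact E.mul_mem (hSE s hs) (E.inv_mem (hAE (hb s hs)))
  have hHK : H ≤ K := by
    rw [Subgroup.closure_le]
    intro x hx
    simp only [S', Finset.coe_image, Set.mem_image] at hx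
    obtain ⟨s, hs, rfl⟩ := hx
    exact hl s hs
  have hHE : H ≤ E := by
    rw [Subgroup.closure_le]
    intro x hx
    simp only [S', Finset.coe_image, Set.mem_image] at hx
    obtain ⟨s, hs, rfl⟩ := hx
    exact hlE s hs
  have hHA : H ⊔ A = E := by
    apply le_antisymm (sup_le hHE hAE)
    rw [hS]
    refine sup_le ?_ le_sup_right
    rw [Subgroup.closure_le]
    intro s hs
    rw [hlb s hs]
    refine Subgroup.mul_mem _ (Subgroup.mem_sup_left (Subgroup.subset_closure ?_))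
      (Subgroup.mem_sup_right (hb s hs))
    simp only [S', Finset.coe_image, Set.mem_image]
    exact ⟨s, hs, rfl⟩
  obtain ⟨X1, hX1, hX1'⟩ := hR H ⟨S', rfl⟩ hHA
  -- writing elements of E ⊓ K as h * a
  have hEK : ∀ x ∈ E, x ∈ K → ∃ h ∈ H, ∃ r, r ∈ K ∧ r ∈ A ∧ x = h * r := by
    intro x hx hxK
    obtain ⟨h, hh, r, hr, hxr⟩ := (mem_sup_normal hAn H x).1 (by rw [hHA]; exact hx)
    refine ⟨h, hh, r, ?_, hr, hxr⟩
    have : r = h⁻¹ * x := by rw [hxr]; group
    rw [this]; exact K.mul_mem (K.inv_mem (hHK hh)) hxK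
  obtain ⟨gs, hgs⟩ := hK
  have hgsK : ∀ g ∈ gs, g ∈ K := by
    intro g hg; rw [← hgs]; exact Subgroup.subset_closure hg
  have hKE' : ∀ g ∈ K, ∃ z : ℤ, ∃ e ∈ E, g = k ^ z * e := by
    intro g hg
    rw [← mem_sup_zpowers E k hks hks' g, ← hE', ← hKA]
    exact Subgroup.mem_sup_left hg
  have h1 : ∀ g ∈ gs, ∃ z : ℤ, ∃ h ∈ H, ∃ r, r ∈ K ∧ r ∈ A ∧ g = k ^ z * (h * r) := by
    intro g hg
    obtain ⟨z, e, he, hge⟩ := hKE' g (hgsK g hg)
    have heK : e ∈ K := by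
      have : e = (k ^ z)⁻¹ * g := by rw [hge]; group
      rw [this]; exact K.mul_mem (K.inv_mem (K.zpow_mem hk z)) (hgsK g hg)
    obtain ⟨h, hh, r, hr, hr', her⟩ := hEK e he heK
    exact ⟨z, h, hh, r, hr, hr', by rw [hge, her]⟩
  choose! z1 h1 hh1 r1 hr1 hr1' he1 using h1
  have hS'K : ∀ s ∈ S', s ∈ K := fun s hs => hHK (Subgroup.subset_closure hs)
  have hS'E : ∀ s ∈ S', s ∈ E := fun s hs => hHE (Subgroup.subset_closure hs)
  have h2 : ∀ s ∈ S', ∃ h ∈ H, ∃ r, r ∈ K ∧ r ∈ A ∧ k * s * k⁻¹ = h * r := fun s hs =>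
    hEK _ (hks s (hS'E s hs)) (K.mul_mem (K.mul_mem hk (hS'K s hs)) (K.inv_mem hk))
  choose! h2 hh2 r2 hr2 hr2' he2 using h2
  have h3 : ∀ s ∈ S', ∃ h ∈ H, ∃ r, r ∈ K ∧ r ∈ A ∧ k⁻¹ * s * k = h * r := fun s hs =>
    hEK _ (hks' s (hS'E s hs)) (K.mul_mem (K.mul_mem (K.inv_mem hk) (hS'K s hs)) hk)
  choose! h3 hh3 r3 hr3 hr3' he3 using h3
  -- the relation for the least power in E
  have h4 : ∃ r0 : G, r0 ∈ K ∧ r0 ∈ A ∧ ∀ N : Subgroup G, r0 ∈ N →
      ∀ z : ℤ, k ^ z ∈ E → k ^ z ∈ H ⊔ N := by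
    by_cases hex : ∃ m : ℕ, 0 < m ∧ k ^ m ∈ E
    · let m := Nat.find hex
      have hm : 0 < m ∧ k ^ m ∈ E := Nat.find_spec hex
      obtain ⟨h, hh, r, hr, hr', her⟩ := hEK (k ^ m) hm.2 (K.pow_mem hk m)
      refine ⟨r, hr, hr', fun N hN z hz => ?_⟩
      have hmN : k ^ m ∈ H ⊔ N := by
        rw [her]; exact Subgroup.mul_mem _ (Subgroup.mem_sup_left hh) (Subgroup.mem_sup_right hN)
      have hdvd : (m : ℤ) ∣ z := by
        by_contra hnd
        have hmod : z % m ≠ 0 := fun h => hnd (Int.dvd_of_emod_eq_zero h)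
        have hpos : 0 ≤ z % (m : ℤ) := Int.emod_nonneg z (by exact_mod_cast hm.1.ne')
        have hlt : z % (m : ℤ) < m := Int.emod_lt_of_pos z (by exact_mod_cast hm.1)
        have hin : k ^ (z % (m : ℤ)) ∈ E := by
          have e : z % (m : ℤ) = z - m * (z / m) := Int.emod_def z m
          rw [e, zpow_sub, zpow_mul, zpow_natCast]
          exact E.mul_mem hz (E.inv_mem (E.zpow_mem hm.2 _))
        obtain ⟨w, hw⟩ := Int.eq_ofNat_of_zero_le hpos
        rw [hw] at hin hlt hmod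
        have hw0 : 0 < w := by
          rcases Nat.eq_zero_or_pos w with h | h
          · rw [h] at hmod; simp at hmod
          · exact h
        have hwm : w < m := by exact_mod_cast hlt
        exact Nat.find_min hex hwm ⟨hw0, by simpa using hin⟩
      obtain ⟨q, rfl⟩ := hdvd
      rw [zpow_mul, zpow_natCast]
      exact Subgroup.zpow_mem _ hmN q
    · refine ⟨1, K.one_mem, A.one_mem, fun N _ z hz => ?_⟩
      have : z = 0 := by
        by_contra hz0
        apply hex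
        refine ⟨z.natAbs, Int.natAbs_pos.2 hz0, ?_⟩
        rcases Int.natAbs_eq z with h | h
        · rw [h, zpow_natCast] at hz; exact hz
        · rw [h, zpow_neg, zpow_natCast] at hz
          exact (E.inv_mem_iff).1 hz
      rw [this]; simp
  obtain ⟨r0, hr0K, hr0A, hr0⟩ := h4
  let X : Finset G := X1 ∪ (gs.image r1) ∪ (S'.image r2) ∪ (S'.image r3) ∪ {r0}
  have hXKA : (X : Set G) ⊆ (K ⊓ A : Subgroup G) := by
    intro x hx
    simp only [X, Finset.coe_union, Finset.coe_image, Set.mem_union, Set.mem_image,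
      Finset.coe_singleton, Set.mem_singleton_iff] at hx
    rcases hx with (((hx | ⟨g, hg, rfl⟩) | ⟨g, hg, rfl⟩) | ⟨g, hg, rfl⟩) | rfl
    · exact ⟨hHK (hX1 hx).1, (hX1 hx).2⟩
    · exact ⟨hr1 g hg, hr1' g hg⟩
    · exact ⟨hr2 g hg, hr2' g hg⟩
    · exact ⟨hr3 g hg, hr3' g hg⟩
    · exact ⟨hr0K, hr0A⟩
  refine ⟨X, hXKA, ?_⟩
  set N : Subgroup G := ncl K (X : Set G) with hN
  have hNK : N ≤ K := ncl_le (fun x hx => (hXKA hx).1)
    (fun k hk n hn => K.mul_mem (K.mul_mem hk hn) (K.inv_mem hk))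
  have hNA : N ≤ A := ncl_le (fun x hx => (hXKA hx).2) (fun k _ n hn => hAn.conj_mem n hn k)
  have hXN : (X : Set G) ⊆ N := subset_ncl K _
  have hr0N : r0 ∈ N := hXN (by simp [X])
  have hconj : ∀ x ∈ K, ∀ n ∈ N, x * n * x⁻¹ ∈ N := fun x hx n hn => conj_ncl hx hn
  have hHN : ∀ x, x ∈ H ⊔ N ↔ ∃ a ∈ H, ∃ n ∈ N, x = a * n := fun x =>
    mem_sup_normalized (fun x hx n hn => hconj x (hHK hx) n hn) x
  -- k normalises H ⊔ N
  have hkHN : ∀ x ∈ H ⊔ N, k * x * k⁻¹ ∈ H ⊔ N := by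
    have hH1 : ∀ x ∈ H, k * x * k⁻¹ ∈ H ⊔ N := by
      intro x hx
      induction hx using Subgroup.closure_induction with
      | mem s hs =>
        rw [he2 s hs]
        refine Subgroup.mul_mem _ (Subgroup.mem_sup_left (hh2 s hs))
          (Subgroup.mem_sup_right (hXN ?_))
        simp only [X, Finset.coe_union, Finset.coe_image, Set.mem_union, Set.mem_image]
        exact Or.inl (Or.inl (Or.inr ⟨s, hs, rfl⟩))
      | one => simp
      | mul x y _ _ hx hy =>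
        have : k * (x * y) * k⁻¹ = (k * x * k⁻¹) * (k * y * k⁻¹) := by group
        rw [this]; exact Subgroup.mul_mem _ hx hy
      | inv x _ hx =>
        have : k * x⁻¹ * k⁻¹ = (k * x * k⁻¹)⁻¹ := by group
        rw [this]; exact Subgroup.inv_mem _ hx
    intro x hx
    obtain ⟨a, ha, n, hn, rfl⟩ := (hHN x).1 hx
    have : k * (a * n) * k⁻¹ = (k * a * k⁻¹) * (k * n * k⁻¹) := by group
    rw [this]; exact Subgroup.mul_mem _ (hH1 a ha) (Subgroup.mem_sup_right (hconj k hk n hn))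
  have hkHN' : ∀ x ∈ H ⊔ N, k⁻¹ * x * k ∈ H ⊔ N := by
    have hH1 : ∀ x ∈ H, k⁻¹ * x * k ∈ H ⊔ N := by
      intro x hx
      induction hx using Subgroup.closure_induction with
      | mem s hs =>
        rw [he3 s hs]
        refine Subgroup.mul_mem _ (Subgroup.mem_sup_left (hh3 s hs))
          (Subgroup.mem_sup_right (hXN ?_))
        simp only [X, Finset.coe_union, Finset.coe_image, Set.mem_union, Set.mem_image]
        exact Or.inl (Or.inr ⟨s, hs, rfl⟩)
      | one => simp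
      | mul x y _ _ hx hy =>
        have : k⁻¹ * (x * y) * k = (k⁻¹ * x * k) * (k⁻¹ * y * k) := by group
        rw [this]; exact Subgroup.mul_mem _ hx hy
      | inv x _ hx =>
        have : k⁻¹ * x⁻¹ * k = (k⁻¹ * x * k)⁻¹ := by group
        rw [this]; exact Subgroup.inv_mem _ hx
    intro x hx
    obtain ⟨a, ha, n, hn, rfl⟩ := (hHN x).1 hx
    have : k⁻¹ * (a * n) * k = (k⁻¹ * a * k) * (k⁻¹ * n * k) := by group
    rw [this]
    have h5 := hconj k⁻¹ (K.inv_mem hk) n hn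
    rw [inv_inv] at h5
    exact Subgroup.mul_mem _ (hH1 a ha) (Subgroup.mem_sup_right h5)
  have hKle : K ≤ (H ⊔ N) ⊔ Subgroup.zpowers k := by
    rw [← hgs, Subgroup.closure_le]
    intro g hg
    have e := he1 g hg
    rw [e]
    refine Subgroup.mul_mem _ (Subgroup.mem_sup_right (Subgroup.zpow_mem_zpowers k _))
      (Subgroup.mem_sup_left (Subgroup.mul_mem _ (Subgroup.mem_sup_left (hh1 g hg))
        (Subgroup.mem_sup_right (hXN ?_))))
    simp only [X, Finset.coe_union, Finset.coe_image, Set.mem_union, Set.mem_image]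
    exact Or.inl (Or.inl (Or.inl (Or.inr ⟨g, hg, rfl⟩)))
  rintro x ⟨hxK, hxA⟩
  obtain ⟨z, y, hy, hxy⟩ := (mem_sup_zpowers (H ⊔ N) k hkHN hkHN' x).1 (hKle hxK)
  have hyE : y ∈ E := (sup_le hHE (hNA.trans hAE)) hy
  have hzE : k ^ z ∈ E := by
    have : k ^ z = x * y⁻¹ := by rw [hxy]; group
    rw [this]; exact E.mul_mem (hAE hxA) (E.inv_mem hyE)
  have hxHN : x ∈ H ⊔ N := by
    rw [hxy]; exact Subgroup.mul_mem _ (hr0 N hr0N z hzE) hy
  obtain ⟨h, hh, n, hn, hxn⟩ := (hHN x).1 hxHN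
  have hhA : h ∈ A := by
    have : h = x * n⁻¹ := by rw [hxn]; group
    rw [this]; exact A.mul_mem hxA (A.inv_mem (hNA hn))
  have hhN : h ∈ N := by
    have := hX1' ⟨hh, hhA⟩
    refine ncl_mono hHK ?_ this
    intro y hy
    simp only [X, Finset.coe_union, Set.mem_union]
    exact Or.inl (Or.inl (Or.inl (Or.inl hy)))
  rw [hxn]; exact N.mul_mem hhN hn

theorem PolyMod.fp {A : Subgroup G} (hA : PolyMod A) (hG : Group.FG G) :
    ∃ X : Finset G, (X : Set G) ⊆ A ∧ A ≤ ncl ⊤ (X : Set G) := by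
  have hR := hA.induction (P := fun E => RR A E) (RR_base A)
    (fun E t hE h ht ht' => RR_step hA hE h ht ht') ⊤ le_top
  obtain ⟨X, hX, hX'⟩ := hR ⊤ ((Group.fg_def).1 hG) (by simp)
  exact ⟨X, fun x hx => (hX hx).2, fun x hx => hX' ⟨trivial, hx⟩⟩

end

end Pool.Agent.H79.Asc
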