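import Pool.Agent.H79.Asc.Poly

set_option autoImplicit false

open scoped Pointwise commutatorElement

namespace Pool.Agent.H79.Asc

section
variable {G D : Type*} [Group G] [AddCommGroup D] [DistribMulAction G D]

theorem smul_sup' (g : G) (P Q : AddSubgroup D) : g • (P ⊔ Q) = g • P ⊔ g • Q := by
  apply le_antisymm
  · intro x hx
    obtain ⟨y, hy, rfl⟩ := (AddSubgroup.mem_smul_pointwise_iff_exists _ _ _).1 hx
    obtain ⟨a, ha, b, hb, rfl⟩ := AddSubgroup.mem_sup.1 hy
    rw [smul_add]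
    exact add_mem (AddSubgroup.mem_sup_left (AddSubgroup.smul_mem_pointwise_smul _ _ _ ha))
      (AddSubgroup.mem_sup_right (AddSubgroup.smul_mem_pointwise_smul _ _ _ hb))
  · exact sup_le (AddSubgroup.pointwise_smul_le_pointwise_smul_iff.2 le_sup_left)
      (AddSubgroup.pointwise_smul_le_pointwise_smul_iff.2 le_sup_right)

theorem smul_le_of_stab {M : Set G} {C : AddSubgroup D} (h : Stab M C) {g : G} (hg : g ∈ M) :
    g • C ≤ C := by
  intro x hx
  obtain ⟨y, hy, rfl⟩ := (AddSubgroup.mem_smul_pointwise_iff_exists _ _ _).1 hx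
  exact h g hg y hy

theorem le_smul_iff {g : G} {P Q : AddSubgroup D} : P ≤ g • Q ↔ g⁻¹ • P ≤ Q := by
  rw [← AddSubgroup.pointwise_smul_le_pointwise_smul_iff (a := g⁻¹), inv_smul_smul]

theorem smul_eq_of_stab {E : Subgroup G} {C : AddSubgroup D} (h : Stab (E : Set G) C) {g : G}
    (hg : g ∈ E) : g • C = C := by
  apply le_antisymm (smul_le_of_stab h hg)
  rw [le_smul_iff]
  exact smul_le_of_stab h (E.inv_mem hg)

theorem stab_of_smul_le {M : Set G} {C : AddSubgroup D} (h : ∀ g ∈ M, g • C ≤ C) : Stab M C :=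
  fun g hg _ hx => h g hg (AddSubgroup.smul_mem_pointwise_smul _ _ _ hx)

theorem smul_sp_le {g : G} {M M' : Set G} {X X' : Set D} (h : ∀ m ∈ M, g * m * g⁻¹ ∈ M')
    (hX : ∀ x ∈ X, g • x ∈ X') : g • sp M X ≤ sp M' X' := by
  intro x hx
  obtain ⟨y, hy, rfl⟩ := (AddSubgroup.mem_smul_pointwise_iff_exists _ _ _).1 hx
  refine sp_induction (p := fun y => g • y ∈ sp M' X') ?_ ?_ ?_ ?_ hy
  · intro w hw x hx
    have e : g • w • x = (g * w * g⁻¹) • (g • x) := by
      rw [← mul_smul, ← mul_smul]; congr 1; group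
    rw [e]
    exact smul_mem_sp (h w hw) (hX x hx)
  · rw [smul_zero]; exact zero_mem _
  · intro x y hx hy; rw [smul_add]; exact add_mem hx hy
  · intro x hx; rw [smul_neg]; exact neg_mem hx

/-- if `g` normalises `M` and `g • Y = Y` then `g • sp M Y = sp M Y`. -/
theorem smul_sp_eq {g : G} {M : Set G} {Y : AddSubgroup D} (h : ∀ m ∈ M, g * m * g⁻¹ ∈ M)
    (h' : ∀ m ∈ M, g⁻¹ * m * g ∈ M) (hY : g • Y = Y) :
    g • sp M (Y : Set D) = sp M (Y : Set D) := by
  apply le_antisymm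
  · refine smul_sp_le h fun x hx => ?_
    have : g • x ∈ g • Y := AddSubgroup.smul_mem_pointwise_smul _ _ _ hx
    rwa [hY] at this
  · rw [le_smul_iff]
    refine smul_sp_le (by simpa using h') fun x hx => ?_
    have hx' : x ∈ g • Y := by rw [hY]; exact hx
    exact AddSubgroup.mem_pointwise_smul_iff_inv_smul_mem.1 hx'

theorem FGm.smul {g : G} {M : Set G} {B Y : AddSubgroup D} (h : ∀ m ∈ M, g * m * g⁻¹ ∈ M)
    (h' : ∀ m ∈ M, g⁻¹ * m * g ∈ M) (hY : FGm M B Y) : FGm M (g • B) (g • Y) := by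
  classical
  obtain ⟨X, rfl⟩ := hY
  refine ⟨X.image (fun x => g • x), ?_⟩
  rw [smul_sup']
  congr 1
  apply le_antisymm
  · exact smul_sp_le h fun x hx => by
      simp only [Finset.coe_image, Set.mem_image]; exact ⟨x, hx, rfl⟩
  · rw [le_smul_iff]
    refine smul_sp_le (by simpa using h') fun x hx => ?_
    simp only [Finset.coe_image, Set.mem_image] at hx
    obtain ⟨y, hy, rfl⟩ := hx
    rw [inv_smul_smul]; exact hy

/-- from a generating family directed to a single member containing a finite set -/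
theorem finset_le_of_directed {S : Set (AddSubgroup D)} (hne : S.Nonempty)
    (hdir : ∀ P ∈ S, ∀ Q ∈ S, ∃ R ∈ S, P ≤ R ∧ Q ≤ R) (X : Finset D)
    (hX : (X : Set D) ⊆ (sSup S : AddSubgroup D)) : ∃ P ∈ S, (X : Set D) ⊆ P := by
  classical
  have hdirO : DirectedOn (· ≤ ·) S := fun P hP Q hQ => by
    obtain ⟨R, hR, h1, h2⟩ := hdir P hP Q hQ; exact ⟨R, hR, h1, h2⟩
  induction X using Finset.induction_on with
  | empty => obtain ⟨P, hP⟩ := hne; exact ⟨P, hP, by simp⟩
  | insert x X _ ih =>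
    obtain ⟨P, hP, hXP⟩ := ih (fun y hy => hX (by simp [hy]))
    have hx : x ∈ (sSup S : AddSubgroup D) := hX (by simp)
    rw [AddSubgroup.mem_sSup_of_directedOn hne hdirO] at hx
    obtain ⟨Q, hQ, hxQ⟩ := hx
    obtain ⟨R, hR, h1, h2⟩ := hdir P hP Q hQ
    refine ⟨R, hR, ?_⟩
    intro y hy
    rw [Finset.coe_insert, Set.mem_insert_iff] at hy
    rcases hy with rfl | hy
    · exact h2 hxQ
    · exact h1 (hXP hy)

/-- maximal elements among `M`-stable subgroups between `B` and `C` -/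
theorem exists_maximal {M : Set G} (hNA : NA0 D M)
    (hmul : ∀ a ∈ M, ∀ b ∈ M, a * b ∈ M) (h1 : (1 : G) ∈ M)
    {B C : AddSubgroup D} (hC : FGm M B C) (S : Set (AddSubgroup D))
    (hS : ∀ B' ∈ S, B ≤ B' ∧ B' ≤ C ∧ Stab M B') (hne : S.Nonempty) :
    ∃ B' ∈ S, ∀ B'' ∈ S, B' ≤ B'' → B'' = B' := by
  obtain ⟨B0, hB0⟩ := hne
  obtain ⟨m, hm1, hm2⟩ := zorn_le_nonempty₀ S (fun c hc hch y hy => by
    have hcst : Stab M (sSup c) := stab_sSup fun P hP => (hS P (hc hP)).2.2
    have hBle : B ≤ sSup c := (hS y (hc hy)).1.trans (le_sSup hy)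
    have hleC : sSup c ≤ C := sSup_le fun P hP => (hS P (hc hP)).2.1
    obtain ⟨X, hX⟩ := hNA.rel hmul hC hBle hleC hcst
    have hXs : (X : Set D) ⊆ (sSup c : AddSubgroup D) := by
      rw [hX]; intro x hx; exact AddSubgroup.mem_sup_left (subset_sp h1 hx)
    obtain ⟨P, hP, hXP⟩ := finset_le_of_directed ⟨y, hy⟩ (fun P hP Q hQ => by
      rcases hch.total hP hQ with h | h
      · exact ⟨Q, hQ, h, le_rfl⟩
      · exact ⟨P, hP, le_rfl, h⟩) X hXs
    refine ⟨P, hc hP, fun z hz => ?_⟩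
    have : sSup c ≤ P := by
      rw [hX]
      exact sup_le (sp_le_of_stab (hS P (hc hP)).2.2 hXP) (hS P (hc hP)).1
    exact (le_sSup hz).trans this) B0 hB0
  exact ⟨m, hm2.1, fun B'' h h' => le_antisymm (hm2.2 h h') h'⟩

/-- second isomorphism -/
theorem FGm.of_sup {M : Set G} {B1 W : AddSubgroup D} (h : FGm M B1 (W ⊔ B1))
    (hW : Stab M W) (hB1 : Stab M B1) (h1 : (1 : G) ∈ M) : FGm M (W ⊓ B1) W := by
  classical
  obtain ⟨X, hX⟩ := h
  have hpick : ∀ x ∈ X, ∃ w ∈ W, ∃ b ∈ B1, w + b = x := by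
    intro x hx
    apply AddSubgroup.mem_sup.1
    rw [hX]; exact AddSubgroup.mem_sup_left (subset_sp h1 hx)
  choose! w hw b hb hwb using hpick
  refine ⟨X.image w, ?_⟩
  have hsp : sp M ((X.image w : Finset D) : Set D) ≤ W := by
    apply sp_le_of_stab hW
    intro x hx
    simp only [Finset.coe_image, Set.mem_image] at hx
    obtain ⟨y, hy, rfl⟩ := hx
    exact hw y hy
  have hle : W ≤ sp M ((X.image w : Finset D) : Set D) ⊔ B1 := by
    refine le_sup_left.trans (hX.le.trans (sup_le ?_ le_sup_right))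
    rw [sp_le]
    intro m hm x hx
    have : m • x = m • w x + m • b x := by rw [← smul_add, hwb x hx]
    rw [this]
    refine add_mem (AddSubgroup.mem_sup_left (smul_mem_sp hm ?_))
      (AddSubgroup.mem_sup_right (hB1 m hm _ (hb x hx)))
    simp only [Finset.coe_image, Set.mem_image]
    exact ⟨x, hx, rfl⟩
  apply le_antisymm
  · intro x hx
    obtain ⟨y, hy, z, hz, hyz⟩ := AddSubgroup.mem_sup.1 (hle hx)
    have hzW : z ∈ W := by
      have : z = x - y := by rw [← hyz]; abel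
      rw [this]; exact sub_mem hx (hsp hy)
    rw [← hyz]
    exact add_mem (AddSubgroup.mem_sup_left hy) (AddSubgroup.mem_sup_right ⟨hzW, hz⟩)
  · exact sup_le hsp inf_le_left

/-- the family of `γ`-stable subgroups of `C` finitely generated over `L` mod `B`. -/
def Fset (L : Set G) (B C : AddSubgroup D) (γ : G) : Set (AddSubgroup D) :=
  {Y | Y ≤ C ∧ FGm L B Y ∧ γ • Y = Y}

theorem Fset_sup {L : Set G} {B C : AddSubgroup D} {γ : G} {Y Y' : AddSubgroup D}
    (h : Y ∈ Fset L B C γ) (h' : Y' ∈ Fset L B C γ) : Y ⊔ Y' ∈ Fset L B C γ :=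
  ⟨sup_le h.1 h'.1, h.2.1.sup h'.2.1, by rw [smul_sup', h.2.2, h'.2.2]⟩

theorem Fset_base {L : Set G} {B C : AddSubgroup D} {γ : G} (hBC : B ≤ C) (h : γ • B = B) :
    B ∈ Fset L B C γ := ⟨hBC, FGm.refl _ _, h⟩

theorem FGm_finite_index {L E : Subgroup G} (hLE : L ≤ E) (hfin : L.relIndex E ≠ 0)
    {B C : AddSubgroup D} (h : FGm (E : Set G) B C) :
    FGm (L : Set G) B C := by
  classical
  obtain ⟨X, rfl⟩ := h
  -- finite set of coset representatives
  have hfi : (L.subgroupOf E).FiniteIndex := ⟨hfin⟩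
  have : Finite (E ⧸ L.subgroupOf E) := inferInstance
  have := Fintype.ofFinite (E ⧸ L.subgroupOf E)
  let R : Finset G := Finset.univ.image fun q : E ⧸ L.subgroupOf E => ((Quotient.out q : E) : G)⁻¹
  have hR : ∀ g ∈ E, ∃ l ∈ L, ∃ r ∈ R, g = l * r := by
    intro g hg
    let q : E ⧸ L.subgroupOf E := QuotientGroup.mk (⟨g⁻¹, E.inv_mem hg⟩ : E)
    have hq : (QuotientGroup.mk (Quotient.out q) : E ⧸ L.subgroupOf E) = q :=
      QuotientGroup.out_eq' q
    have := QuotientGroup.eq.1 hq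
    rw [Subgroup.mem_subgroupOf] at this
    simp only [Subgroup.coe_mul, Subgroup.coe_inv] at this
    refine ⟨g * ((Quotient.out q : E) : G), ?_, ((Quotient.out q : E) : G)⁻¹, ?_, by group⟩
    · have h2 := L.inv_mem this
      simpa using h2
    · simp only [R, Finset.mem_image]
      exact ⟨q, Finset.mem_univ _, rfl⟩
  refine ⟨(R ×ˢ X).image (fun p => p.1 • p.2), ?_⟩
  apply le_antisymm
  · refine sup_le_sup_right ?_ _
    rw [sp_le]
    intro g hg x hx
    obtain ⟨l, hl, r, hr, rfl⟩ := hR g hg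
    rw [mul_smul]
    refine smul_mem_sp hl ?_
    simp only [Finset.coe_image, Set.mem_image]
    exact ⟨(r, x), by simpa using ⟨hr, hx⟩, rfl⟩
  · refine sup_le_sup_right ?_ _
    rw [sp_le]
    intro l hl y hy
    simp only [Finset.coe_image, Set.mem_image] at hy
    obtain ⟨⟨r, x⟩, hrx, rfl⟩ := hy
    have hrx' : r ∈ R ∧ x ∈ X := by simpa using hrx
    have hrE : r ∈ E := by
      have := hrx'.1
      simp only [R, Finset.mem_image] at this
      obtain ⟨q, _, rfl⟩ := this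
      exact E.inv_mem (Quotient.out q : E).2
    simp only
    rw [← mul_smul]
    exact smul_mem_sp (E.mul_mem (hLE hl) hrE) hrx'.2

theorem FGm.sp_up {L E : Subgroup G} (hLE : L ≤ E) {B Y : AddSubgroup D}
    (hB : Stab (E : Set G) B) (h : FGm (L : Set G) B Y) :
    FGm (E : Set G) B (sp (E : Set G) (Y : Set D)) := by
  obtain ⟨X, rfl⟩ := h
  refine ⟨X, ?_⟩
  rw [sp_sup, sp_sp, sp_eq_of_stab E.one_mem hB]
  congr 1
  apply le_antisymm
  · refine sp_mono ?_ le_rfl
    intro g hg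
    obtain ⟨a, ha, b, hb, rfl⟩ := Set.mem_mul.1 hg
    exact E.mul_mem ha (hLE hb)
  · refine sp_mono ?_ le_rfl
    intro g hg
    exact Set.mem_mul.2 ⟨g, hg, 1, L.one_mem, by simp⟩

theorem stab_iff_le_stabilizer {E : Subgroup G} {Y : AddSubgroup D} :
    Stab (E : Set G) Y ↔ E ≤ MulAction.stabilizer G Y := by
  constructor
  · intro h g hg
    exact MulAction.mem_stabilizer_iff.2 (smul_eq_of_stab h hg)
  · intro h
    refine stab_of_smul_le fun g hg => ?_
    exact (MulAction.mem_stabilizer_iff.1 (h hg)).le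

theorem stab_sup_group {E F : Subgroup G} {Y : AddSubgroup D} (h : Stab (E : Set G) Y)
    (h' : Stab (F : Set G) Y) : Stab ((E ⊔ F : Subgroup G) : Set G) Y := by
  rw [stab_iff_le_stabilizer] at *
  exact sup_le h h'

theorem stab_zpowers {γ : G} {Y : AddSubgroup D} (h : γ • Y = Y) :
    Stab ((Subgroup.zpowers γ : Subgroup G) : Set G) Y := by
  rw [stab_iff_le_stabilizer, Subgroup.zpowers_le]
  exact MulAction.mem_stabilizer_iff.2 h

theorem mulmem (E : Subgroup G) : ∀ a ∈ (E : Set G), ∀ b ∈ (E : Set G), a * b ∈ (E : Set G) :=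
  fun _ ha _ hb => E.mul_mem ha hb

/-- Lemma 1': a `Ga`-stable subgroup contained in all `F^γ`, `γ ∈ γs`, is finitely generated over
`L` if `L` and `γs` generate a subgroup of finite index. -/
theorem inter_fg {A Ga : Subgroup G} (hNA : ∀ E : Subgroup G, A ≤ E → NA0 D (E : Set G))
    {B C : AddSubgroup D} (hBs : Stab (Ga : Set G) B) (hC : FGm (Ga : Set G) B C)
    (hCs : Stab (Ga : Set G) C) (γs : List G) :
    ∀ (L : Subgroup G), A ≤ L → L ≤ Ga → ⁅Ga, Ga⁆ ≤ L → (∀ γ ∈ γs, γ ∈ Ga) →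
      (L ⊔ Subgroup.closure {x | x ∈ γs}).relIndex Ga ≠ 0 →
      ∀ E : AddSubgroup D, B ≤ E → E ≤ C → Stab (Ga : Set G) E →
        (∀ γ ∈ γs, E ≤ sSup (Fset (L : Set G) B C γ)) → FGm (L : Set G) B E := by
  induction γs with
  | nil =>
    intro L hAL hLG _ _ hind E hBE hEC hEs _
    have h0 : ({x | x ∈ ([] : List G)} : Set G) = ∅ := by ext x; simp
    rw [h0, Subgroup.closure_empty, sup_bot_eq] at hind
    exact FGm_finite_index hLG hind ((hNA Ga (hAL.trans hLG)).rel (mulmem Ga) hC hBE hEC hEs)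
  | cons γ γs ih =>
    intro L hAL hLG hcomm hγs hind E hBE hEC hEs hE
    have hγ : γ ∈ Ga := hγs γ (by simp)
    set L1 := L ⊔ Subgroup.zpowers γ with hL1
    have hLL1 : L ≤ L1 := le_sup_left
    have hL1G : L1 ≤ Ga := sup_le hLG ((Subgroup.zpowers_le).2 hγ)
    have hBs1 : Stab (L1 : Set G) B := hBs.mono hL1G
    have h1 : FGm (L1 : Set G) B E := by
      apply ih L1 (hAL.trans hLL1) hL1G (hcomm.trans hLL1) (fun g hg => hγs g (by simp [hg]))
        ?_ E hBE hEC hEs ?_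
      · have e : L1 ⊔ Subgroup.closure {x | x ∈ γs} =
            L ⊔ Subgroup.closure {x | x ∈ γ :: γs} := by
          have : ({x | x ∈ γ :: γs} : Set G) = {γ} ∪ {x | x ∈ γs} := by
            ext x; simp
          rw [this, Subgroup.closure_union, ← Subgroup.zpowers_eq_closure, hL1, sup_assoc]
        rw [e]; exact hind
      · intro γ' hγ'
        refine (hE γ' (by simp [hγ'])).trans (sSup_le fun Y hY => ?_)
        have hγ'G : γ' ∈ Ga := hγs γ' (by simp [hγ'])
        refine (le_sp L1.one_mem).trans (le_sSup ⟨?_, ?_, ?_⟩)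
        · exact sp_le_of_stab (hCs.mono hL1G) hY.1
        · exact hY.2.1.sp_up hLL1 hBs1
        · exact smul_sp_eq (conj_mem_of_comm (hcomm.trans hLL1) hL1G hγ'G)
            (conj_mem_of_comm' (hcomm.trans hLL1) hL1G hγ'G) hY.2.2
    obtain ⟨X, hX⟩ := h1
    have hXE : (X : Set D) ⊆ E := by
      rw [hX]; intro x hx; exact AddSubgroup.mem_sup_left (subset_sp L1.one_mem hx)
    have hBC : B ≤ C := hBE.trans hEC
    have hγB : γ • B = B := smul_eq_of_stab hBs hγ
    obtain ⟨Y, hY, hXY⟩ := finset_le_of_directed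
      ⟨B, Fset_base hBC hγB⟩ (fun P hP Q hQ => ⟨P ⊔ Q, Fset_sup hP hQ, le_sup_left, le_sup_right⟩)
      X (hXE.trans (hE γ (by simp)))
    have hYL : Stab (L : Set G) Y := hY.2.1.stab (mulmem L) (hBs.mono hLG)
    have hYL1 : Stab (L1 : Set G) Y := stab_sup_group hYL (stab_zpowers hY.2.2)
    have hEY : E ≤ Y := by
      rw [hX]; exact sup_le (sp_le_of_stab hYL1 hXY) hY.2.1.le
    exact (hNA L hAL).rel (mulmem L) hY.2.1 hBE hEY (hEs.mono hLG)

theorem FGm.of_le {L : Subgroup G} (hNA : NA0 D (L : Set G)) {B C C' : AddSubgroup D}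
    (h : FGm (L : Set G) B C) (h1 : B ≤ C') (h2 : C' ≤ C) (h3 : Stab (L : Set G) C') :
    FGm (L : Set G) B C' := hNA.rel (mulmem L) h h1 h2 h3

theorem smul_sSup_Fset {Ga L : Subgroup G} (hLG : L ≤ Ga) (hcomm : ⁅Ga, Ga⁆ ≤ L)
    {B C : AddSubgroup D} (hBs : Stab (Ga : Set G) B) (hCs : Stab (Ga : Set G) C)
    {γ : G} (hγ : γ ∈ Ga) : Stab (Ga : Set G) (sSup (Fset (L : Set G) B C γ)) := by
  intro h hh x hx
  rw [sSup_eq_iSup'] at hx
  induction hx using AddSubgroup.iSup_induction' with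
  | hp i x hx =>
    obtain ⟨Y, hY⟩ := i
    have hmem : h • Y ∈ Fset (L : Set G) B C γ := by
      refine ⟨?_, ?_, ?_⟩
      · have : h • Y ≤ h • C := AddSubgroup.pointwise_smul_le_pointwise_smul_iff.2 hY.1
        rwa [smul_eq_of_stab hCs hh] at this
      · have := hY.2.1.smul (conj_mem_of_comm hcomm hLG hh) (conj_mem_of_comm' hcomm hLG hh)
        rwa [smul_eq_of_stab hBs hh] at this
      · have hYL : Stab (L : Set G) Y := hY.2.1.stab (mulmem L) (hBs.mono hLG)
        have hc : γ⁻¹ * (h⁻¹ * γ * h) ∈ L := by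
          have : ⁅γ⁻¹, h⁻¹⁆ ∈ L :=
            hcomm (Subgroup.commutator_mem_commutator (Ga.inv_mem hγ) (Ga.inv_mem hh))
          rw [commutatorElement_def] at this
          have e : γ⁻¹ * (h⁻¹ * γ * h) = γ⁻¹ * h⁻¹ * γ⁻¹⁻¹ * h⁻¹⁻¹ := by group
          rw [e]; exact this
        have e : γ • h • Y = h • γ • (γ⁻¹ * (h⁻¹ * γ * h)) • Y := by
          rw [← mul_smul, ← mul_smul, ← mul_smul]; congr 1; group
        rw [e, smul_eq_of_stab hYL hc, hY.2.2]
    exact (le_sSup hmem) (AddSubgroup.smul_mem_pointwise_smul _ _ _ hx)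
  | h1 => rw [smul_zero]; exact zero_mem _
  | hadd x y _ _ hx hy => rw [smul_add]; exact add_mem hx hy

/-- Theorem T. -/
theorem genT {A Ga L : Subgroup G} (hA : PolyMod A)
    (hNA : ∀ E : Subgroup G, A ≤ E → NA0 D (E : Set G)) (hAL : A ≤ L) (hLG : L ≤ Ga)
    (hcomm : ⁅Ga, Ga⁆ ≤ L) {B C : AddSubgroup D} (hBs : Stab (Ga : Set G) B)
    (hC : FGm (Ga : Set G) B C) :
    ∃ T : AddSubgroup D, B ≤ T ∧ T ≤ C ∧ Stab (Ga : Set G) T ∧ FGm (L : Set G) B T ∧
      ∃ 𝓗 : Finset (Subgroup G), (∀ H ∈ 𝓗, L ≤ H ∧ H ≤ Ga ∧ H.relIndex Ga = 0) ∧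
        ∀ γ ∈ Ga, (∀ H ∈ 𝓗, γ ∉ H) → ∀ Y ∈ Fset (L : Set G) B C γ, Y ≤ T := by
  classical
  by_contra hcon
  have hCs : Stab (Ga : Set G) C := hC.stab (mulmem Ga) hBs
  let Q : AddSubgroup D → Prop := fun B' =>
    ∃ T : AddSubgroup D, B' ≤ T ∧ T ≤ C ∧ Stab (Ga : Set G) T ∧ FGm (L : Set G) B' T ∧
      ∃ 𝓗 : Finset (Subgroup G), (∀ H ∈ 𝓗, L ≤ H ∧ H ≤ Ga ∧ H.relIndex Ga = 0) ∧
        ∀ γ ∈ Ga, (∀ H ∈ 𝓗, γ ∉ H) → ∀ Y ∈ Fset (L : Set G) B' C γ, Y ≤ T
  obtain ⟨B1, ⟨hB1, hB1C, hB1s, hB1Q⟩, hmax⟩ := exists_maximal (hNA Ga (hAL.trans hLG))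
    (mulmem Ga) Ga.one_mem hC {B' | B ≤ B' ∧ B' ≤ C ∧ Stab (Ga : Set G) B' ∧ ¬ Q B'}
    (fun B' h => ⟨h.1, h.2.1, h.2.2.1⟩) ⟨B, le_rfl, hC.le, hBs, hcon⟩
  have hQ : ∀ B', B1 < B' → B' ≤ C → Stab (Ga : Set G) B' → Q B' := by
    intro B' h1 h2 h3
    by_contra h4
    exact h1.ne' (hmax B' ⟨hB1.trans h1.le, h2, h3, h4⟩ h1.le)
  have hC1 : FGm (Ga : Set G) B1 C := hC.base hB1 hB1C
  -- B1 < C
  have hlt : B1 < C := by
    rcases hB1C.lt_or_eq with h | h
    · exact h
    · exfalso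
      apply hB1Q
      subst h
      exact ⟨B1, le_rfl, le_rfl, hB1s, FGm.refl _ _, ∅, by simp, fun γ _ _ Y hY => hY.1⟩
  -- Case 1 excluded
  have hcase1 : ∀ B', B1 < B' → B' ≤ C → Stab (Ga : Set G) B' → ¬ FGm (L : Set G) B1 B' := by
    intro B' h1 h2 h3 h4
    obtain ⟨T, hT1, hT2, hT3, hT4, 𝓗, h𝓗, hγ⟩ := hQ B' h1 h2 h3
    apply hB1Q
    refine ⟨T, h1.le.trans hT1, hT2, hT3, h4.trans hT4, 𝓗, h𝓗, fun γ hγG hγH Y hY => ?_⟩
    have : Y ⊔ B' ∈ Fset (L : Set G) B' C γ := by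
      refine ⟨sup_le hY.1 h2, ?_, ?_⟩
      · have := hY.2.1.sup_base (B' := B')
        rwa [sup_eq_right.2 h1.le] at this
      · rw [smul_sup', hY.2.2, smul_eq_of_stab h3 hγG]
    exact le_sup_left.trans (hγ γ hγG hγH _ this)
  -- Case 2a excluded
  have hcase2 : ∀ P R, B1 < P → B1 < R → P ≤ C → R ≤ C → Stab (Ga : Set G) P →
      Stab (Ga : Set G) R → B1 < P ⊓ R := by
    intro P R hP hR hPC hRC hPs hRs
    rcases (le_inf hP.le hR.le).lt_or_eq with h | h
    · exact h
    · exfalso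
      obtain ⟨T, hT1, hT2, hT3, hT4, 𝓗, h𝓗, hγ⟩ := hQ P hP hPC hPs
      obtain ⟨T', hT1', hT2', hT3', hT4', 𝓗', h𝓗', hγ'⟩ := hQ R hR hRC hRs
      have hW : FGm (L : Set G) B1 (T ⊓ T') := by
        have hWs : Stab (L : Set G) (T ⊓ T') := (hT3.inf hT3').mono hLG
        have h1 : FGm (L : Set G) (T ⊓ T' ⊓ P) (T ⊓ T') := by
          apply FGm.of_sup _ hWs (hPs.mono hLG) L.one_mem
          exact hT4.of_le (hNA L hAL) le_sup_right (sup_le inf_le_left hT1)
            (hWs.sup (hPs.mono hLG))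
        have h2 : FGm (L : Set G) (T ⊓ T' ⊓ P ⊓ R) (T ⊓ T' ⊓ P) := by
          have hs : Stab (L : Set G) (T ⊓ T' ⊓ P) := hWs.inf (hPs.mono hLG)
          apply FGm.of_sup _ hs (hRs.mono hLG) L.one_mem
          exact hT4'.of_le (hNA L hAL) le_sup_right
            (sup_le (inf_le_left.trans inf_le_right) hT1') (hs.sup (hRs.mono hLG))
        have e : T ⊓ T' ⊓ P ⊓ R = B1 := by
          apply le_antisymm
          · rw [h]; exact le_inf (inf_le_left.trans inf_le_right) inf_le_right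
          · exact le_inf (le_inf (le_inf (hP.le.trans hT1) (hR.le.trans hT1')) hP.le) hR.le
        rw [e] at h2
        exact h2.trans h1
      have hWle : T ⊓ T' ≤ B1 := by
        by_contra hne
        have hlt' : B1 < T ⊓ T' :=
          lt_of_le_of_ne hW.le (fun h => hne h.ge)
        exact hcase1 _ hlt' (inf_le_left.trans hT2) (hT3.inf hT3') hW
      apply hB1Q
      refine ⟨B1, le_rfl, hB1C, hB1s, FGm.refl _ _, 𝓗 ∪ 𝓗', ?_, ?_⟩
      · intro H hH
        rcases Finset.mem_union.1 hH with h | h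
        · exact h𝓗 H h
        · exact h𝓗' H h
      · intro γ hγG hγH Y hY
        refine le_trans (le_inf ?_ ?_) hWle
        · have : Y ⊔ P ∈ Fset (L : Set G) P C γ := by
            refine ⟨sup_le hY.1 hPC, ?_, ?_⟩
            · have := hY.2.1.sup_base (B' := P)
              rwa [sup_eq_right.2 hP.le] at this
            · rw [smul_sup', hY.2.2, smul_eq_of_stab hPs hγG]
          exact le_sup_left.trans (hγ γ hγG (fun H hH => hγH H (Finset.mem_union_left _ hH)) _ this)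
        · have : Y ⊔ R ∈ Fset (L : Set G) R C γ := by
            refine ⟨sup_le hY.1 hRC, ?_, ?_⟩
            · have := hY.2.1.sup_base (B' := R)
              rwa [sup_eq_right.2 hR.le] at this
            · rw [smul_sup', hY.2.2, smul_eq_of_stab hRs hγG]
          exact le_sup_left.trans
            (hγ' γ hγG (fun H hH => hγH H (Finset.mem_union_right _ hH)) _ this)
  -- Case 2b
  apply hB1Q
  let Z : Set G := {γ | γ ∈ Ga ∧ ∃ Y ∈ Fset (L : Set G) B1 C γ, B1 < Y}
  let H : Subgroup G := L ⊔ Subgroup.closure Z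
  have hHG : H ≤ Ga := sup_le hLG ((Subgroup.closure_le _).2 fun γ hγ => hγ.1)
  refine ⟨B1, le_rfl, hB1C, hB1s, FGm.refl _ _, {H}, ?_, ?_⟩
  · intro H' hH'
    rw [Finset.mem_singleton] at hH'
    subst hH'
    refine ⟨le_sup_left, hHG, ?_⟩
    by_contra hind
    obtain ⟨S, hS⟩ := hA.fg H (hAL.trans le_sup_left)
    -- finite subset of Z
    have hfin : ∃ γs : List G, (∀ γ ∈ γs, γ ∈ Z) ∧
        (S : Set G) ⊆ (L ⊔ Subgroup.closure {x | x ∈ γs} : Subgroup G) := by
      have hSH : (S : Set G) ⊆ H := by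
        rw [hS]; intro x hx; exact Subgroup.mem_sup_left (Subgroup.subset_closure hx)
      have hx : ∀ x ∈ H, ∃ γs : List G, (∀ γ ∈ γs, γ ∈ Z) ∧
          x ∈ (L ⊔ Subgroup.closure {x | x ∈ γs} : Subgroup G) := by
        intro x hx
        have hH' : H = Subgroup.closure ((L : Set G) ∪ Z) := by
          rw [Subgroup.closure_union, Subgroup.closure_eq]
        rw [hH'] at hx
        induction hx using Subgroup.closure_induction with
        | mem x hx =>
          rcases hx with hx | hx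
          · exact ⟨[], by simp, Subgroup.mem_sup_left hx⟩
          · refine ⟨[x], by simpa using hx, Subgroup.mem_sup_right (Subgroup.subset_closure ?_)⟩
            simp
        | one => exact ⟨[], by simp, Subgroup.one_mem _⟩
        | mul x y _ _ hx hy =>
          obtain ⟨γs, h1, h2⟩ := hx
          obtain ⟨γs', h1', h2'⟩ := hy
          refine ⟨γs ++ γs', ?_, Subgroup.mul_mem _ ?_ ?_⟩
          · intro γ hγ
            rcases List.mem_append.1 hγ with h | h
            · exact h1 γ h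
            · exact h1' γ h
          · exact (sup_le_sup_left (Subgroup.closure_mono (by intro z hz; simp at hz ⊢; exact Or.inl hz)) L) h2
          · exact (sup_le_sup_left (Subgroup.closure_mono (by intro z hz; simp at hz ⊢; exact Or.inr hz)) L) h2'
        | inv x _ hx =>
          obtain ⟨γs, h1, h2⟩ := hx
          exact ⟨γs, h1, Subgroup.inv_mem _ h2⟩
      have : ∀ T : Finset G, (T : Set G) ⊆ H → ∃ γs : List G, (∀ γ ∈ γs, γ ∈ Z) ∧
          (T : Set G) ⊆ (L ⊔ Subgroup.closure {x | x ∈ γs} : Subgroup G) := by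
        intro T
        induction T using Finset.induction_on with
        | empty => intro _; exact ⟨[], by simp, by simp⟩
        | insert x T _ ih =>
          intro hT
          obtain ⟨γs, h1, h2⟩ := ih (fun y hy => hT (by simp [hy]))
          obtain ⟨γs', h1', h2'⟩ := hx x (hT (by simp))
          refine ⟨γs ++ γs', ?_, ?_⟩
          · intro γ hγ
            rcases List.mem_append.1 hγ with h | h
            · exact h1 γ h
            · exact h1' γ h
          · intro y hy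
            rw [Finset.coe_insert, Set.mem_insert_iff] at hy
            rcases hy with rfl | hy
            · exact (sup_le_sup_left (Subgroup.closure_mono (by intro z hz; simp at hz ⊢; exact Or.inr hz)) L) h2'
            · exact (sup_le_sup_left (Subgroup.closure_mono (by intro z hz; simp at hz ⊢; exact Or.inl hz)) L) (h2 hy)
      exact this S hSH
    obtain ⟨γs, hγsZ, hSγ⟩ := hfin
    have hHeq : L ⊔ Subgroup.closure {x | x ∈ γs} = H := by
      apply le_antisymm
      · exact sup_le_sup_left (Subgroup.closure_mono fun x hx => hγsZ x hx) L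
      · rw [hS]
        exact sup_le ((Subgroup.closure_le _).2 hSγ) (hAL.trans le_sup_left)
    -- the intersection
    have hE : ∃ E : AddSubgroup D, B1 < E ∧ E ≤ C ∧ Stab (Ga : Set G) E ∧
        ∀ γ ∈ γs, E ≤ sSup (Fset (L : Set G) B1 C γ) := by
      clear hHeq hSγ
      induction γs with
      | nil => exact ⟨C, hlt, le_rfl, hCs, by simp⟩
      | cons γ γs ih =>
        obtain ⟨E, h1, h2, h3, h4⟩ := ih (fun g hg => hγsZ g (by simp [hg]))
        have hγ := hγsZ γ (by simp)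
        obtain ⟨hγG, Y, hY, hYlt⟩ := hγ
        have hF1 : B1 < sSup (Fset (L : Set G) B1 C γ) := lt_of_lt_of_le hYlt (le_sSup hY)
        have hF2 : sSup (Fset (L : Set G) B1 C γ) ≤ C := sSup_le fun Y hY => hY.1
        have hF3 := smul_sSup_Fset hLG hcomm hB1s hCs hγG
        refine ⟨E ⊓ sSup (Fset (L : Set G) B1 C γ), hcase2 _ _ h1 hF1 h2 hF2 h3 hF3,
          inf_le_left.trans h2, h3.inf hF3, ?_⟩
        intro g hg
        rcases List.mem_cons.1 hg with rfl | hg
        · exact inf_le_right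
        · exact inf_le_left.trans (h4 g hg)
    obtain ⟨E, h1, h2, h3, h4⟩ := hE
    refine hcase1 E h1 h2 h3 (inter_fg hNA hB1s hC1 hCs γs L hAL hLG hcomm
      (fun γ hγ => (hγsZ γ hγ).1) ?_ E h1.le h2 h3 h4)
    rw [hHeq]; exact hind
  · intro γ hγG hγH Y hY
    by_contra hne
    have hlt' : B1 < Y := lt_of_le_of_ne hY.2.1.le (fun h => hne h.ge)
    apply hγH H (by simp)
    exact Subgroup.mem_sup_right (Subgroup.subset_closure ⟨hγG, Y, hY, hlt'⟩)

end
end Pool.Agent.H79.Asc
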