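import Pool.Agent.H79.Asc.Dyn3

set_option autoImplicit false

open scoped Pointwise commutatorElement

open Filter Topology

namespace Pool.Agent.H79.Asc

theorem TF_pow {n : ℕ} {K : Type*} [Field K] (σ : Aut n) (k : ℕ) : TF K (σ ^ k) = TF K σ ^ k := by
  refine LinearMap.ext fun u => funext fun i => ?_
  rw [← evF_single ((TF K σ ^ k) u) i, evF_TF_pow]
  rfl

section
variable {G D : Type*} [Group G] [AddCommGroup D] [DistribMulAction G D]

/-- a `g`-contracted subgroup is `g`-stable -/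
theorem noeth_stab {M : Set G} (hNA : NA0 D M) (hmul : ∀ a ∈ M, ∀ b ∈ M, a * b ∈ M)
    (h1 : (1 : G) ∈ M) {g : G} (hg : ∀ m ∈ M, g * m * g⁻¹ ∈ M)
    {B C R : AddSubgroup D} (hC : FGm M B C) (hBR : B ≤ R) (hRC : R ≤ C)
    (hR : Stab M R) (hgB : g • B = B) (hgC : g • C = C) (hgR : g • R ≤ R) : g • R = R := by
  have hgB' : ∀ k : ℕ, (g ^ k)⁻¹ • B = B := by
    intro k
    rw [inv_smul_eq_iff]
    induction k with
    | zero => simp
    | succ k ih => rw [pow_succ', mul_smul, ← ih, hgB]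
  have hgC' : ∀ k : ℕ, (g ^ k)⁻¹ • C = C := by
    intro k
    rw [inv_smul_eq_iff]
    induction k with
    | zero => simp
    | succ k ih => rw [pow_succ', mul_smul, ← ih, hgC]
  obtain ⟨R', ⟨k, rfl⟩, hmax⟩ := exists_maximal hNA hmul h1 hC
    (Set.range fun k : ℕ => (g ^ k)⁻¹ • R) (by
      rintro _ ⟨k, rfl⟩
      refine ⟨?_, ?_, ?_⟩
      · rw [← hgB' k]
        exact AddSubgroup.pointwise_smul_le_pointwise_smul_iff.2 hBR
      · rw [← hgC' k]
        exact AddSubgroup.pointwise_smul_le_pointwise_smul_iff.2 hRC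
      · refine stab_of_smul_le fun m hm => ?_
        have e : m • (g ^ k)⁻¹ • R = (g ^ k)⁻¹ • (g ^ k * m * (g ^ k)⁻¹) • R := by
          rw [← mul_smul, ← mul_smul]; congr 1; group
        simp only
        rw [e]
        exact AddSubgroup.pointwise_smul_le_pointwise_smul_iff.2
          (smul_le_of_stab hR (conj_pow_mem hg k m hm))) ⟨_, 0, rfl⟩
  have h2 := hmax ((g ^ (k + 1))⁻¹ • R) ⟨k + 1, rfl⟩ (by
    rw [pow_succ', mul_inv_rev, mul_smul]
    refine AddSubgroup.pointwise_smul_le_pointwise_smul_iff.2 ?_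
    rw [le_smul_iff, inv_inv]
    exact hgR)
  simp only at h2
  rw [pow_succ', mul_inv_rev, mul_smul] at h2
  have h3 : g⁻¹ • R = R := smul_left_cancel _ h2
  rw [inv_smul_eq_iff] at h3
  exact h3.symm

end

namespace Pos
variable {G D : Type*} [Group G] [AddCommGroup D] [DistribMulAction G D]
variable {E L : Subgroup G} {n : ℕ} {p : Pos E L n}
variable {B C C' P Q : AddSubgroup D} {S S' : Set (Fin n → ℤ)} {u : Fin n → ℝ}

/-- `g` normalises `E` and induces `τ` on `E/L = ℤ^n` -/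
structure Act (p : Pos E L n) (g : G) (τ : Aut n) : Prop where
  conj : ∀ e ∈ E, g * e * g⁻¹ ∈ E
  conj' : ∀ e ∈ E, g⁻¹ * e * g ∈ E
  eq : ∀ e ∈ E, p.f (g * e * g⁻¹) = τ (p.f e)

variable {g : G} {τ : Aut n}

theorem Act.inv (h : Act p g τ) : Act p g⁻¹ τ⁻¹ where
  conj := by intro e he; rw [inv_inv]; exact h.conj' e he
  conj' := by intro e he; rw [inv_inv]; exact h.conj e he
  eq := by
    intro e he
    rw [inv_inv]
    have h1 := h.eq _ (h.conj' e he)
    have h2 : g * (g⁻¹ * e * g) * g⁻¹ = e := by group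
    rw [h2] at h1
    rw [h1, ← LinearEquiv.mul_apply, inv_mul_cancel]
    rfl

theorem Act.pow (h : Act p g τ) (k : ℕ) : Act p (g ^ k) (τ ^ k) := by
  induction k with
  | zero =>
    refine ⟨?_, ?_, ?_⟩
    · intro e he; simpa using he
    · intro e he; simpa using he
    · intro e he; simp
  | succ k ih =>
    have e1 : ∀ e : G, g ^ (k + 1) * e * (g ^ (k + 1))⁻¹ = g * (g ^ k * e * (g ^ k)⁻¹) * g⁻¹ := by
      intro e; rw [pow_succ']; group
    have e2 : ∀ e : G, (g ^ (k + 1))⁻¹ * e * g ^ (k + 1) = (g ^ k)⁻¹ * (g⁻¹ * e * g) * g ^ k := by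
      intro e; rw [pow_succ']; group
    refine ⟨?_, ?_, ?_⟩
    · intro e he; rw [e1]; exact h.conj _ (ih.conj e he)
    · intro e he; rw [e2]; exact ih.conj' _ (h.conj' e he)
    · intro e he
      rw [e1, h.eq _ (ih.conj e he), ih.eq e he, pow_succ']
      rfl

theorem Act.conjL (h : Act p g τ) : ∀ l ∈ L, g * l * g⁻¹ ∈ L := by
  intro l hl
  have hlE := p.hLE hl
  refine (p.ker _ (h.conj l hlE)).1 ?_
  rw [h.eq l hlE, (p.ker l hlE).2 hl, map_zero]

theorem Act.conjL' (h : Act p g τ) : ∀ l ∈ L, g⁻¹ * l * g ∈ L := by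
  intro l hl
  have := h.inv.conjL l hl
  rwa [inv_inv] at this

theorem Act.br_le (h : Act p g τ) : g • p.br B S P ≤ p.br (g • B) (τ '' S) (g • P) := by
  unfold br
  rw [smul_sup']
  refine sup_le_sup_right (smul_sp_le ?_ ?_) _
  · rintro m ⟨hm, hmS⟩
    refine ⟨h.conj m hm, ?_⟩
    rw [h.eq m hm]
    exact ⟨_, hmS, rfl⟩
  · intro x hx
    exact AddSubgroup.smul_mem_pointwise_smul _ _ _ hx

theorem Act.br_eq (h : Act p g τ) : g • p.br B S P = p.br (g • B) (τ '' S) (g • P) := by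
  apply le_antisymm h.br_le
  have h1 := h.inv.br_le (B := g • B) (S := τ '' S) (P := g • P)
  rw [inv_smul_smul, inv_smul_smul] at h1
  rw [← le_smul_iff] at h1
  convert h1 using 3
  rw [Set.image_image]
  have : (fun x => (τ⁻¹ : Aut n) (τ x)) = id := by
    ext1 x
    rw [← LinearEquiv.mul_apply, inv_mul_cancel]
    rfl
  rw [this, Set.image_id]

theorem NN.smul (h : Act p g τ) (hN : p.NN (TF ℝ τ u) C B) : p.NN u (g • C) (g • B) := by
  classical
  obtain ⟨P, hP, Gs, hGs, rfl⟩ := hN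
  refine ⟨g • P, hP.smul h.conjL h.conjL', Gs.image τ, ?_, ?_⟩
  · intro v hv
    obtain ⟨w, hw, rfl⟩ := Finset.mem_image.1 hv
    have := hGs w hw
    rw [← evF_real, evF_TF] at this
    exact this
  · rw [h.br_eq]
    congr 1
    rw [Finset.coe_image]
    have h2 := AddMonoidHom.map_mclosure ((τ : (Fin n → ℤ) →ₗ[ℤ] (Fin n → ℤ)).toAddMonoidHom)
      (Gs : Set (Fin n → ℤ))
    have h3 := congrArg (fun s : AddSubmonoid (Fin n → ℤ) => (s : Set (Fin n → ℤ))) h2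
    exact h3

/-- the dynamical data used in the hyperbolic case -/
structure DD (σ : Aut n) (r : ℝ) (V : Submodule ℝ (Fin n → ℝ)) : Prop where
  hr : 1 < r
  back : ∀ u ∈ V, ∀ v, Tendsto (fun i : ℕ => ev u ((σ ^ i)⁻¹ v)) atTop (𝓝 0)
  recu : ∀ u ∈ V, ∀ m, 1 ≤ m → ∀ U ∈ 𝓝 u, ∀ N, ∃ j ≥ N, 1 ≤ j ∧
      (r ^ (m * j))⁻¹ • (TF ℝ σ ^ (m * j)) u ∈ U
  acc : ∀ χ : Fin n → ℤ, χ ≠ 0 → ∀ m, 1 ≤ m → ∃ u ∈ V, u ≠ 0 ∧ ∀ U ∈ 𝓝 u, ∃ j, 1 ≤ j ∧
      (r ^ (m * j))⁻¹ • (TF ℝ σ ^ (m * j)) (rv χ) ∈ U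
  avoid : ∀ u : Fin n → ℝ, u ≠ 0 → ∀ W : Finset (Fin n → ℤ), (∀ w ∈ W, w ≠ 0) → ∀ m, 1 ≤ m →
    ∀ N : ℕ, ∃ i ≥ N, ∀ w ∈ W, ev u ((σ ^ (m * i))⁻¹ w) ≠ 0

theorem smul_pow_eq {g : G} {X : AddSubgroup D} (h : g • X = X) (k : ℕ) : g ^ k • X = X := by
  induction k with
  | zero => simp
  | succ k ih => rw [pow_succ', mul_smul, ih, h]

variable {γ : G} {σ : Aut n} {r : ℝ} {V : Submodule ℝ (Fin n → ℝ)}

theorem rad_pow_stable (hE : NA0 D (E : Set G)) (hB : Stab (E : Set G) B)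
    (hC : FGm (E : Set G) B C) (hact : Act p γ σ) (hd : DD σ r V) {m0 : ℕ} (hm0 : 1 ≤ m0)
    (hγB : γ ^ m0 • B = B) (hγC : γ ^ m0 • C = C) (hu : u ∈ V) :
    ∃ j, 1 ≤ j ∧ γ ^ (m0 * j) • p.rad u C B = p.rad u C B := by
  obtain ⟨h1, h2, h3, h4⟩ := rad_spec (p := p) hE hB hC u
  obtain ⟨j, _, hj1, hj⟩ := hd.recu u hu m0 hm0 _ h4.eventually 0
  refine ⟨j, hj1, ?_⟩
  have hr0 : 0 < r ^ (m0 * j) := pow_pos (by have := hd.hr; linarith) _
  have h5 : p.NN ((r ^ (m0 * j))⁻¹ • (TF ℝ σ ^ (m0 * j)) u) (p.rad u C B) B := hj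
  have h6 := h5.scale hr0
  rw [smul_smul, mul_inv_cancel₀ hr0.ne', one_smul, ← TF_pow] at h6
  have hact' := hact.pow (m0 * j)
  have h7 := NN.smul hact' h6
  have hgB : γ ^ (m0 * j) • B = B := by rw [pow_mul]; exact smul_pow_eq hγB j
  have hgC : γ ^ (m0 * j) • C = C := by rw [pow_mul]; exact smul_pow_eq hγC j
  rw [hgB] at h7
  refine noeth_stab hE (mulmem E) E.one_mem hact'.conj hC h1 h2 h3 hgB hgC ?_
  refine le_rad ?_ ?_ ?_ h7
  · exact hgB.ge.trans (AddSubgroup.pointwise_smul_le_pointwise_smul_iff.2 h1)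
  · exact (AddSubgroup.pointwise_smul_le_pointwise_smul_iff.2 h2).trans hgC.le
  · refine stab_of_smul_le fun m hm => ?_
    have e : m • γ ^ (m0 * j) • p.rad u C B = γ ^ (m0 * j) •
        ((γ ^ (m0 * j))⁻¹ * m * γ ^ (m0 * j)) • p.rad u C B := by
      rw [← mul_smul, ← mul_smul]; congr 1; group
    rw [e]
    exact AddSubgroup.pointwise_smul_le_pointwise_smul_iff.2
      (smul_le_of_stab h3 (hact'.conj' m hm))

theorem stab_smul_of_conj {M : Set G} {X : AddSubgroup D} (hX : Stab M X) {g : G}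
    (hg : ∀ m ∈ M, g⁻¹ * m * g ∈ M) : Stab M (g • X) := by
  refine stab_of_smul_le fun m hm => ?_
  have e : m • g • X = g • (g⁻¹ * m * g) • X := by
    rw [← mul_smul, ← mul_smul]; congr 1; group
  rw [e]
  exact AddSubgroup.pointwise_smul_le_pointwise_smul_iff.2 (smul_le_of_stab hX (hg m hm))

theorem step1 (hL : NA0 D (L : Set G)) (hB : Stab (E : Set G) B) (hact : Act p γ σ)
    (hd : DD σ r V) {m0 : ℕ} (hm0 : 1 ≤ m0) {Y Y' : AddSubgroup D}
    (hY : FGm (L : Set G) B Y) (hY' : FGm (L : Set G) B Y') (hYY' : Y ≤ Y')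
    (hC : Y' ≤ p.br B Set.univ Y)
    (hγB : γ ^ m0 • B = B) (hγY : γ ^ m0 • Y = Y) (hγY' : γ ^ m0 • Y' = Y')
    (hu : u ∈ V) (hu0 : u ≠ 0)
    (hrad : ∀ R, B ≤ R → R ≤ p.br B Set.univ Y → Stab (E : Set G) R → p.NN u R B → R ≤ B) :
    Y' ≤ Y := by
  classical
  have hYs : Stab (L : Set G) Y := hY.stab (mulmem L) (hB.mono p.hLE)
  have hY's : Stab (L : Set G) Y' := hY'.stab (mulmem L) (hB.mono p.hLE)
  have hr0 : 0 < r := by have := hd.hr; linarith
  have hpB : ∀ i : ℕ, γ ^ (m0 * i) • B = B := fun i => by rw [pow_mul]; exact smul_pow_eq hγB i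
  have hpY : ∀ i : ℕ, γ ^ (m0 * i) • Y = Y := fun i => by rw [pow_mul]; exact smul_pow_eq hγY i
  have hpY' : ∀ i : ℕ, γ ^ (m0 * i) • Y' = Y' := fun i => by
    rw [pow_mul]; exact smul_pow_eq hγY' i
  obtain ⟨F, _, hYF⟩ := le_br_fin hY' hB hC
  -- moving back
  have hback : ∀ i : ℕ, Y' ≤ p.br B ((fun v => (σ ^ (m0 * i))⁻¹ v) '' (F : Set (Fin n → ℤ))) Y := by
    intro i
    have h1 := (hact.pow (m0 * i)).inv.br_eq (B := B) (S := (F : Set (Fin n → ℤ))) (P := Y)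
    have h2 : (γ ^ (m0 * i))⁻¹ • B = B := by rw [inv_smul_eq_iff, hpB]
    have h3 : (γ ^ (m0 * i))⁻¹ • Y = Y := by rw [inv_smul_eq_iff, hpY]
    have h4 : (γ ^ (m0 * i))⁻¹ • Y' = Y' := by rw [inv_smul_eq_iff, hpY']
    rw [h2, h3] at h1
    have h5 : (γ ^ (m0 * i))⁻¹ • Y' ≤ (γ ^ (m0 * i))⁻¹ • p.br B (F : Set (Fin n → ℤ)) Y :=
      AddSubgroup.pointwise_smul_le_pointwise_smul_iff.2 hYF
    rw [h4, h1] at h5
    exact h5
  have hsmall : ∀ ε : ℝ, 0 < ε → ∃ N : ℕ, ∀ i ≥ N, ∀ f ∈ F, |ev u ((σ ^ i)⁻¹ f)| < ε := by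
    intro ε hε
    have h1 : ∀ᶠ i in atTop, ∀ f ∈ F, |ev u ((σ ^ i)⁻¹ f)| < ε := by
      rw [Filter.eventually_all_finset]
      intro f _
      have h2 := hd.back u hu f
      have h3 := (Metric.tendsto_nhds.1 h2) ε hε
      refine h3.mono fun i hi => ?_
      rwa [Real.dist_eq, sub_zero] at hi
    exact eventually_atTop.1 h1
  -- 1a
  have h1a : ∀ c : ℝ, 0 < c → Y' ≤ p.br B {v | ev u v ≤ c} Y := by
    intro c hc
    obtain ⟨N, hN⟩ := hsmall c hc
    refine (hback N).trans (br_mono ?_ le_rfl)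
    rintro _ ⟨f, hf, rfl⟩
    have hge : m0 * N ≥ N := Nat.le_mul_of_pos_left N hm0
    exact (abs_lt.1 (hN _ hge f hf)).2.le
  -- 1b
  obtain ⟨W, hW, hK⟩ := exists_W (p := p) hL hB hY u
  obtain ⟨δ, hδ, hδW⟩ := exists_gap W (ev u) hW
  have h1b : Y' ≤ Y ⊔ p.br B {v | ev u v < 0} Y := by
    obtain ⟨N, hN⟩ := hsmall δ hδ
    obtain ⟨i, hi, hiF⟩ := hd.avoid u hu0 (F.erase 0) (fun w hw => (Finset.mem_erase.1 hw).1)
      m0 hm0 N
    set Fi : Finset (Fin n → ℤ) := F.image (fun v => (σ ^ (m0 * i))⁻¹ v) with hFi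
    have hFi1 : ∀ v ∈ Fi, ev u v < δ := by
      intro v hv
      obtain ⟨f, hf, rfl⟩ := Finset.mem_image.1 hv
      have hge : m0 * i ≥ N := hi.trans (Nat.le_mul_of_pos_left i hm0)
      exact (abs_lt.1 (hN _ hge f hf)).2
    have hFi2 : ∀ v ∈ Fi, ev u v = 0 → v = 0 := by
      intro v hv h0
      obtain ⟨f, hf, rfl⟩ := Finset.mem_image.1 hv
      by_cases hf0 : f = 0
      · subst hf0; exact map_zero _
      · exact absurd h0 (hiF f (Finset.mem_erase.2 ⟨hf0, hf⟩))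
    obtain ⟨δ', hδ', hδ'F⟩ := exists_gap (Fi.filter fun v => 0 < ev u v) (fun v => -ev u v)
      (fun v hv => by have := (Finset.mem_filter.1 hv).2; linarith)
    have hYFi : Y' ≤ p.br B (Fi : Set (Fin n → ℤ)) Y := by
      rw [hFi, Finset.coe_image]; exact hback i
    have hc : 0 < δ' / 2 := by linarith
    intro x hx
    have h1 : x ∈ p.br B (((Fi : Set (Fin n → ℤ)) ∪ {v | ev u v < 0}) ∩
        {v | ev u v ≤ δ' / 2}) Y := by
      refine rewrite hB hW hK ?_ (br_mono Set.subset_union_left le_rfl (hYFi hx))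
        (h1a _ hc hx)
      intro w hw hcw w' hw' z hz
      right
      simp only [Set.mem_ofPred_eq]
      rw [ev_add, ev_add, hz]
      have h2 := hδW w' hw'
      rcases hw with hw | hw
      · have := hFi1 w hw; linarith
      · have hw2 : ev u w < 0 := hw
        linarith
    have h2 : p.br B (((Fi : Set (Fin n → ℤ)) ∪ {v | ev u v < 0}) ∩
        {v | ev u v ≤ δ' / 2}) Y ≤ p.br B ({0} ∪ {v | ev u v < 0}) Y := by
      refine br_mono ?_ le_rfl
      rintro v ⟨hv | hv, hv2⟩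
      · simp only [Set.mem_ofPred_eq] at hv2
        by_cases hpos : 0 < ev u v
        · have := hδ'F v (Finset.mem_filter.2 ⟨hv, hpos⟩)
          linarith
        · rcases (not_lt.1 hpos).lt_or_eq with h3 | h3
          · exact Or.inr h3
          · exact Or.inl (hFi2 v hv h3)
      · exact Or.inr hv
    have h3 := h2 h1
    rwa [br_union, br_zero hYs hY.le] at h3
  -- 1c
  set M : AddSubgroup D := Y' ⊓ p.br B {v | ev u v < 0} Y with hM
  have hYM : Y' ≤ Y ⊔ M := by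
    intro x hx
    obtain ⟨y, hy, z, hz, hyz⟩ := AddSubgroup.mem_sup.1 (h1b hx)
    have hzY' : z ∈ Y' := by
      have : z = x - y := by rw [← hyz]; abel
      rw [this]; exact sub_mem hx (hYY' hy)
    rw [← hyz]
    exact add_mem (AddSubgroup.mem_sup_left hy) (AddSubgroup.mem_sup_right ⟨hzY', hz⟩)
  have hMs : Stab (L : Set G) M := hY's.inf (stab_br_L hB)
  have hBM : B ≤ M := le_inf hY'.le le_br_base
  have hMFG : FGm (L : Set G) B M := hL.rel (mulmem L) hY' hBM inf_le_left hMs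
  obtain ⟨W', hW', hMW'⟩ := le_br_fin hMFG hB (inf_le_right : M ≤ p.br B {v | ev u v < 0} Y)
  obtain ⟨δ', hδ', hδ'W⟩ := exists_gap W' (ev u) (fun w hw => hW' hw)
  have hforward : ∀ i : ℕ, γ ^ (m0 * i) • M ≤
      p.br B ((fun v => (σ ^ (m0 * i)) v) '' (W' : Set (Fin n → ℤ))) Y := by
    intro i
    have h1 := (hact.pow (m0 * i)).br_eq (B := B) (S := (W' : Set (Fin n → ℤ))) (P := Y)
    rw [hpB, hpY] at h1
    exact (AddSubgroup.pointwise_smul_le_pointwise_smul_iff.2 hMW').trans h1.le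
  have hevr : ∀ (k : ℕ) (w : Fin n → ℤ), ev u ((σ ^ k) w) =
      r ^ k * ev ((r ^ k)⁻¹ • (TF ℝ σ ^ k) u) w := by
    intro k w
    rw [ev_smul_left, ev_TF_pow, ← mul_assoc, mul_inv_cancel₀ (pow_pos hr0 k).ne', one_mul]
  obtain ⟨j, _, hj1, hj⟩ := hd.recu u hu m0 hm0 {u' | ∀ w ∈ W', ev u' w < 0} (by
    have : ∀ᶠ u' in nhds u, ∀ w ∈ W', ev u' w < 0 := by
      rw [Filter.eventually_all_finset]
      intro w hw
      exact (ev_continuous w).continuousAt.eventually_lt continuousAt_const (hW' hw)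
    exact this) 0
  have hMj : γ ^ (m0 * j) • M ≤ M := by
    refine le_inf ?_ ?_
    · calc γ ^ (m0 * j) • M ≤ γ ^ (m0 * j) • Y' :=
            AddSubgroup.pointwise_smul_le_pointwise_smul_iff.2 inf_le_left
        _ = Y' := hpY' j
    · refine (hforward j).trans (br_mono ?_ le_rfl)
      rintro _ ⟨w, hw, rfl⟩
      simp only [Set.mem_ofPred_eq]
      rw [hevr]
      exact mul_neg_of_pos_of_neg (pow_pos hr0 _) (hj w hw)
  have hMeq : γ ^ (m0 * j) • M = M :=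
    noeth_stab hL (mulmem L) L.one_mem (hact.pow (m0 * j)).conjL hY' hBM inf_le_left hMs (hpB j)
      (hpY' j) hMj
  have hMall : ∀ c : ℝ, M ≤ p.br B {v | ev u v ≤ c} Y := by
    intro c
    -- choose `N` with `r ^ N * δ'/2 ≥ -c`
    obtain ⟨N, hN⟩ := pow_unbounded_of_one_lt (|c| / (δ' / 2)) hd.hr
    obtain ⟨k, hkN, hk1, hk⟩ := hd.recu u hu (m0 * j) (Nat.mul_pos hm0 hj1)
      {u' | ∀ w ∈ W', ev u' w < -(δ' / 2)} (by
        have : ∀ᶠ u' in nhds u, ∀ w ∈ W', ev u' w < -(δ' / 2) := by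
          rw [Filter.eventually_all_finset]
          intro w hw
          refine (ev_continuous w).continuousAt.eventually_lt continuousAt_const ?_
          have := hδ'W w hw
          linarith
        exact this) N
    have h1 : γ ^ (m0 * j * k) • M = M := by
      rw [pow_mul]; exact smul_pow_eq hMeq k
    have h2 := hforward (j * k)
    rw [← mul_assoc, h1] at h2
    refine h2.trans (br_mono ?_ le_rfl)
    rintro _ ⟨w, hw, rfl⟩
    simp only [Set.mem_ofPred_eq]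
    rw [hevr]
    have h3 := hk w hw
    have h4 : r ^ N ≤ r ^ (m0 * j * k) := by
      refine pow_le_pow_right₀ hd.hr.le ?_
      refine hkN.trans (Nat.le_mul_of_pos_left k (Nat.mul_pos hm0 hj1))
    have h5 : |c| < r ^ (m0 * j * k) * (δ' / 2) := by
      rw [div_lt_iff₀ (by linarith)] at hN
      have := mul_le_mul_of_nonneg_right h4 (by linarith : (0 : ℝ) ≤ δ' / 2)
      linarith
    have h6 : r ^ (m0 * j * k) * ev ((r ^ (m0 * j * k))⁻¹ • (TF ℝ σ ^ (m0 * j * k)) u) w ≤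
        r ^ (m0 * j * k) * (-(δ' / 2)) :=
      mul_le_mul_of_nonneg_left h3.le (pow_pos hr0 _).le
    have h7 := neg_abs_le c
    linarith
  obtain ⟨R, hR1, hR2, hR3, hR4, hR5⟩ := L6 (p := p) hL hB hu0 hY
  have hRB := hrad R hR1 hR2 hR3 hR4
  have hMB : M ≤ B := fun x hx => hRB (hR5 x fun c => hMall c hx)
  exact hYM.trans (sup_le le_rfl (hMB.trans hY.le))

end Pos

end Pool.Agent.H79.Asc
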