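import Pool.Agent.H79.Asc.Hyp

set_option autoImplicit false

open scoped Pointwise commutatorElement

open Filter Topology

namespace Pool.Agent.H79.Asc

namespace Pos
variable {G D : Type*} [Group G] [AddCommGroup D] [DistribMulAction G D]
variable {E L : Subgroup G} {n : ℕ} {p : Pos E L n}
variable {γ : G} {σ : Aut n} {r : ℝ} {V : Submodule ℝ (Fin n → ℝ)}

/-- stable under a power of `γ` -/
def PS (γ : G) (X : AddSubgroup D) : Prop := ∃ m, 1 ≤ m ∧ γ ^ m • X = X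

theorem PS.common {X Y : AddSubgroup D} (h : PS γ X) (h' : PS γ Y) :
    ∃ m, 1 ≤ m ∧ γ ^ m • X = X ∧ γ ^ m • Y = Y := by
  obtain ⟨m, hm, h1⟩ := h
  obtain ⟨m', hm', h1'⟩ := h'
  refine ⟨m * m', Nat.mul_pos hm hm', ?_, ?_⟩
  · rw [pow_mul, smul_pow_eq h1]
  · rw [mul_comm, pow_mul, smul_pow_eq h1']

theorem PS.sup {X Y : AddSubgroup D} (h : PS γ X) (h' : PS γ Y) : PS γ (X ⊔ Y) := by
  obtain ⟨m, hm, h1, h2⟩ := h.common h'
  exact ⟨m, hm, by rw [smul_sup', h1, h2]⟩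

theorem smul_inf' (g : G) (P Q : AddSubgroup D) : g • (P ⊓ Q) = g • P ⊓ g • Q := by
  apply le_antisymm
  · exact le_inf (AddSubgroup.pointwise_smul_le_pointwise_smul_iff.2 inf_le_left)
      (AddSubgroup.pointwise_smul_le_pointwise_smul_iff.2 inf_le_right)
  · rw [le_smul_iff]
    refine le_inf ?_ ?_
    · rw [← le_smul_iff]; exact inf_le_left
    · rw [← le_smul_iff]; exact inf_le_right

theorem PS.inf {X Y : AddSubgroup D} (h : PS γ X) (h' : PS γ Y) : PS γ (X ⊓ Y) := by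
  obtain ⟨m, hm, h1, h2⟩ := h.common h'
  exact ⟨m, hm, by rw [smul_inf', h1, h2]⟩

/-- the power-stable finitely generated subgroups -/
def YY (L : Subgroup G) (γ : G) (B C : AddSubgroup D) : Set (AddSubgroup D) :=
  {Y | Y ≤ C ∧ FGm (L : Set G) B Y ∧ PS γ Y}

theorem YY_sup {B C Y Y' : AddSubgroup D} (h : Y ∈ YY L γ B C) (h' : Y' ∈ YY L γ B C) :
    Y ⊔ Y' ∈ YY L γ B C := ⟨sup_le h.1 h'.1, h.2.1.sup h'.2.1, h.2.2.sup h'.2.2⟩

/-- boundedness of the power-stable subgroups -/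
def Bd (L : Subgroup G) (γ : G) (B C : AddSubgroup D) : Prop :=
  ∃ Y0, FGm (L : Set G) B Y0 ∧ ∀ Y ∈ YY L γ B C, Y ≤ Y0

theorem hyp (hL : NA0 D (L : Set G)) (hE : NA0 D (E : Set G)) (hact : Act p γ σ)
    (hd : DD σ r V) {B C : AddSubgroup D} (hB : Stab (E : Set G) B)
    (hC : FGm (E : Set G) B C) (hPB : PS γ B) (hPC : PS γ C) : Bd L γ B C := by
  classical
  by_contra hcon
  obtain ⟨B1, ⟨hB1, hB1C, hB1s, hB1P, hB1Q⟩, hmax⟩ := exists_maximal hE (mulmem E) E.one_mem hC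
    {B' | B ≤ B' ∧ B' ≤ C ∧ Stab (E : Set G) B' ∧ PS γ B' ∧ ¬ Bd L γ B' C}
    (fun B' h => ⟨h.1, h.2.1, h.2.2.1⟩) ⟨B, le_rfl, hC.le, hB, hPB, hcon⟩
  have hQ : ∀ B', B1 < B' → B' ≤ C → Stab (E : Set G) B' → PS γ B' → Bd L γ B' C := by
    intro B' h1 h2 h3 h5
    by_contra h4
    exact h1.ne' (hmax B' ⟨hB1.trans h1.le, h2, h3, h5, h4⟩ h1.le)
  have hC1 : FGm (E : Set G) B1 C := hC.base hB1 hB1C
  have hCs : Stab (E : Set G) C := hC.stab (mulmem E) hB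
  have hLE : (L : Set G) ⊆ (E : Set G) := p.hLE
  have hB1L : Stab (L : Set G) B1 := hB1s.mono hLE
  have hYs : ∀ {Y : AddSubgroup D}, FGm (L : Set G) B1 Y → Stab (L : Set G) Y :=
    fun h => h.stab (mulmem L) hB1L
  -- (i)
  have hi : ∀ C', B1 < C' → C' ≤ C → Stab (E : Set G) C' → PS γ C' → ¬ Bd L γ B1 C' := by
    rintro C' h1 h2 h3 h4 ⟨Y1, hY1, hY1'⟩
    obtain ⟨Y2, hY2, hY2'⟩ := hQ C' h1 h2 h3 h4
    apply hB1Q
    set F : AddSubgroup D := sSup (YY L γ B1 C) with hF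
    have hBmem : B1 ∈ YY L γ B1 C := ⟨hB1C, FGm.refl _ _, hB1P⟩
    have hFs : Stab (L : Set G) F := stab_sSup fun Y hY => hYs hY.2.1
    have hBF : B1 ≤ F := le_sSup hBmem
    have hFY2 : F ≤ Y2 := by
      refine sSup_le fun Y hY => ?_
      refine le_sup_left.trans (hY2' (Y ⊔ C') ⟨sup_le hY.1 h2, ?_, hY.2.2.sup h4⟩)
      have := hY.2.1.sup_base (B' := C')
      rwa [sup_eq_right.2 h1.le] at this
    have hF1 : FGm (L : Set G) C' (F ⊔ C') :=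
      hL.rel (mulmem L) hY2 le_sup_right (sup_le hFY2 hY2.le) (hFs.sup (h3.mono hLE))
    have hF2 : FGm (L : Set G) (F ⊓ C') F := FGm.of_sup hF1 hFs (h3.mono hLE) L.one_mem
    have hF3 : F ⊓ C' ≤ Y1 := by
      intro x hx
      have hdir : DirectedOn (· ≤ ·) (YY L γ B1 C) := fun P hP Q hQ =>
        ⟨P ⊔ Q, YY_sup hP hQ, le_sup_left, le_sup_right⟩
      have hx1 : x ∈ F := hx.1
      rw [hF, AddSubgroup.mem_sSup_of_directedOn ⟨B1, hBmem⟩ hdir] at hx1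
      obtain ⟨Y, hY, hxY⟩ := hx1
      refine hY1' (Y ⊓ C') ⟨inf_le_right, ?_, hY.2.2.inf h4⟩ ⟨hxY, hx.2⟩
      exact hL.rel (mulmem L) hY.2.1 (le_inf hY.2.1.le h1.le) inf_le_left
        ((hYs hY.2.1).inf (h3.mono hLE))
    have hF4 : FGm (L : Set G) B1 (F ⊓ C') :=
      hL.rel (mulmem L) hY1 (le_inf hBF h1.le) hF3 (hFs.inf (h3.mono hLE))
    exact ⟨F, hF4.trans hF2, fun Y hY => le_sSup hY⟩
  have hFGE : ∀ C', B1 ≤ C' → C' ≤ C → Stab (E : Set G) C' → FGm (E : Set G) B1 C' :=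
    fun C' h1 h2 h3 => hE.rel (mulmem E) hC1 h1 h2 h3
  -- (ii)
  have hii : ∀ C', B1 < C' → C' ≤ C → Stab (E : Set G) C' → PS γ C' → ∀ u ∈ V, u ≠ 0 →
      B1 < p.rad u C' B1 := by
    intro C' h1 h2 h3 h4 u hu hu0
    obtain ⟨hr1, hr2, hr3, hr4⟩ := rad_spec (p := p) hE hB1s (hFGE C' h1.le h2 h3) u
    refine lt_of_le_of_ne hr1 fun heq => hi C' h1 h2 h3 h4 ?_
    have hBmem : B1 ∈ YY L γ B1 C' := ⟨h1.le, FGm.refl _ _, hB1P⟩
    obtain ⟨C1, ⟨Y0, hY0, rfl⟩, hC1max⟩ := exists_maximal hE (mulmem E) E.one_mem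
      (hFGE C' h1.le h2 h3) ((fun Y => p.br B1 Set.univ Y) '' YY L γ B1 C') (by
        rintro _ ⟨Y, hY, rfl⟩
        exact ⟨le_br_base, Pos.br_le h3 h1.le hY.1, stab_br_univ hB1s⟩)
      ⟨_, B1, hBmem, rfl⟩
    refine ⟨Y0, hY0.2.1, fun Y hY => ?_⟩
    have hsup := YY_sup hY hY0
    have hle : Y ⊔ Y0 ≤ p.br B1 Set.univ Y0 := by
      have h5 := hC1max (p.br B1 Set.univ (Y ⊔ Y0)) ⟨_, hsup, rfl⟩
        (br_mono le_rfl le_sup_right)
      simp only at h5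
      rw [← h5]
      exact le_br trivial
    obtain ⟨m1, hm1, h6, h7⟩ := hB1P.common (hY0.2.2)
    obtain ⟨m2, hm2, h8⟩ := hsup.2.2
    have key : Y ⊔ Y0 ≤ Y0 := by
      refine step1 (p := p) (m0 := m1 * m2) hL hB1s hact hd (Nat.mul_pos hm1 hm2) hY0.2.1
        hsup.2.1 le_sup_right hle ?_ ?_ ?_ hu hu0 ?_
      · rw [pow_mul]; exact smul_pow_eq h6 m2
      · rw [pow_mul]; exact smul_pow_eq h7 m2
      · rw [mul_comm, pow_mul]; exact smul_pow_eq h8 m1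
      · intro R hR1 hR2 hR3 hR4
        have h9 : R ≤ p.rad u C' B1 := le_rad hR1 (hR2.trans (Pos.br_le h3 h1.le hY0.1)) hR3 hR4
        rwa [← heq] at h9
    exact le_sup_left.trans key
  -- (iii)
  have hBC : B1 < C := by
    refine lt_of_le_of_ne hB1C fun heq => hB1Q ?_
    exact ⟨B1, FGm.refl _ _, fun Y hY => hY.1.trans heq.ge⟩
  have hcomp : IsCompact (Metric.sphere (0 : Fin n → ℝ) 1 ∩ (V : Set (Fin n → ℝ))) :=
    (isCompact_sphere _ _).inter_right V.closed_of_finiteDimensional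
  have hnhds : ∀ u ∈ Metric.sphere (0 : Fin n → ℝ) 1 ∩ (V : Set (Fin n → ℝ)),
      {u' | p.NN u' (p.rad u C B1) B1} ∈ nhds u := fun u _ =>
    (rad_spec (p := p) hE hB1s hC1 u).2.2.2.eventually
  obtain ⟨t, ht, hcov⟩ := hcomp.elim_nhds_subcover
    (fun u => {u' | p.NN u' (p.rad u C B1) B1}) hnhds
  have hne0 : ∀ u ∈ Metric.sphere (0 : Fin n → ℝ) 1, u ≠ 0 := by
    rintro u hu rfl
    simp at hu
  have hex : ∀ t : Finset (Fin n → ℝ),
      (∀ x ∈ t, x ∈ Metric.sphere (0 : Fin n → ℝ) 1 ∩ (V : Set (Fin n → ℝ))) →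
      ∃ C', B1 < C' ∧ C' ≤ C ∧ Stab (E : Set G) C' ∧ PS γ C' ∧ ∀ u ∈ t, C' ≤ p.rad u C B1 := by
    intro t
    induction t using Finset.induction_on with
    | empty => intro _; exact ⟨C, hBC, le_rfl, hCs, hPC, by simp⟩
    | insert u t _ ih =>
      intro ht
      obtain ⟨C', h1, h2, h3, h4, h5⟩ := ih fun x hx => ht x (Finset.mem_insert_of_mem hx)
      have hu := ht u (Finset.mem_insert_self _ _)
      obtain ⟨hr1, hr2, hr3, hr4⟩ := rad_spec (p := p) hE hB1s (hFGE C' h1.le h2 h3) u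
      refine ⟨p.rad u C' B1, hii C' h1 h2 h3 h4 u hu.2 (hne0 u hu.1), hr2.trans h2, hr3, ?_, ?_⟩
      · obtain ⟨m, hm, h6, h7⟩ := hB1P.common h4
        obtain ⟨j, hj, h8⟩ := rad_pow_stable (p := p) hE hB1s (hFGE C' h1.le h2 h3) hact hd hm
          h6 h7 hu.2
        exact ⟨m * j, Nat.mul_pos hm hj, h8⟩
      · intro v hv
        rcases Finset.mem_insert.1 hv with rfl | hv
        · exact le_rad hr1 (hr2.trans h2) hr3 hr4
        · exact hr2.trans (h5 v hv)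
  obtain ⟨C', h1, h2, h3, h4, h5⟩ := hex t ht
  have hNV : ∀ u ∈ V, u ≠ 0 → p.NN u C' B1 := by
    intro u hu hu0
    have hpos : 0 < ‖u‖ := norm_pos_iff.2 hu0
    have hmem : ‖u‖⁻¹ • u ∈ Metric.sphere (0 : Fin n → ℝ) 1 ∩ (V : Set (Fin n → ℝ)) := by
      refine ⟨?_, V.smul_mem _ hu⟩
      rw [mem_sphere_zero_iff_norm, norm_smul, norm_inv, norm_norm]
      exact inv_mul_cancel₀ hpos.ne'
    have h6 := hcov hmem
    simp only [Set.mem_iUnion] at h6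
    obtain ⟨v, hv, h7⟩ := h6
    have h8 : p.NN (‖u‖⁻¹ • u) (p.rad v C B1) B1 := h7
    have h9 := (h8.le hL hB1s h1.le (h5 v hv) h3).scale hpos
    rwa [smul_smul, mul_inv_cancel₀ hpos.ne', one_smul] at h9
  -- (iv)
  have hNχ : ∀ χ : Fin n → ℤ, χ ≠ 0 → p.NN (rv χ) C' B1 := by
    intro χ hχ
    obtain ⟨m, hm, h6, h7⟩ := hB1P.common h4
    obtain ⟨u, hu, hu0, hU⟩ := hd.acc χ hχ m hm
    obtain ⟨j, hj1, hj⟩ := hU _ (hNV u hu hu0).eventually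
    have hr0 : 0 < r ^ (m * j) := pow_pos (by have := hd.hr; linarith) _
    have h8 : p.NN ((r ^ (m * j))⁻¹ • (TF ℝ σ ^ (m * j)) (rv χ)) C' B1 := hj
    have h9 := h8.scale hr0
    rw [smul_smul, mul_inv_cancel₀ hr0.ne', one_smul, ← TF_pow] at h9
    have h10 := NN.smul (hact.pow (m * j)) h9
    rwa [pow_mul, smul_pow_eq h6, smul_pow_eq h7] at h10
  -- (v)
  have hFG := hFGE C' h1.le h2 h3
  rw [← p.pre_univ] at hFG
  obtain ⟨P, hP, _, hCP⟩ := exists_of_FGm_pre (p := p) hB1s (Set.mem_univ _) hFG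
  have hBR : ∀ u : Fin n → ℝ, u ≠ 0 → p.NN u C' B1 := fun u hu =>
    BR hL hB1s h3 hP hCP hNχ hu
  have hfin := L5 hB1s h3 hP hCP hBR
  exact hi C' h1 h2 h3 h4 ⟨C', hfin, fun Y hY => hY.1⟩

end Pos

end Pool.Agent.H79.Asc
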