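import Pool.Agent.H79.Asc.Ab

set_option autoImplicit false

open scoped Pointwise commutatorElement

namespace Pool.Agent.H79.Asc

section
variable {G D : Type*} [Group G] [AddCommGroup D] [DistribMulAction G D]

/-- the inductive statement -/
structure SS (A E : Subgroup G) (γ : G) (DE : AddSubgroup D) : Prop where
  hAE : A ≤ E
  conj : ∀ e ∈ E, γ * e * γ⁻¹ ∈ E
  conj' : ∀ e ∈ E, γ⁻¹ * e * γ ∈ E
  fg : FGm (E : Set G) ⊥ DE
  stable : γ • DE = DE
  all : ∀ m, 1 ≤ m → ∀ δ ∈ E, ∀ X : AddSubgroup D, X.FG → (γ ^ m * δ) • X = X → X ≤ DE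

theorem smul_bot' (g : G) : g • (⊥ : AddSubgroup D) = ⊥ :=
  le_antisymm (smul_le_of_stab (M := Set.univ) (stab_bot _) trivial) bot_le

theorem smul_sSup_le {S : Set (AddSubgroup D)} {g : G} {T : AddSubgroup D}
    (h : ∀ Y ∈ S, g • Y ≤ T) : g • sSup S ≤ T := by
  rw [← inv_inv g, ← le_smul_iff]
  refine sSup_le fun Y hY => ?_
  rw [le_smul_iff, inv_inv]
  exact h Y hY

theorem FGm_sp_of_FG {L : Subgroup G} {X : AddSubgroup D} (hX : X.FG) :
    FGm (L : Set G) ⊥ (sp (L : Set G) (X : Set D)) := by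
  obtain ⟨S, rfl⟩ := hX
  exact ⟨S, by rw [sp_closure, sup_bot_eq]⟩

variable {A E : Subgroup G} {γ : G} {DE : AddSubgroup D}

theorem SS.stab (h : SS A E γ DE) : Stab (E : Set G) DE := h.fg.stab (mulmem E) (stab_bot _)

theorem SS.finite {E' : Subgroup G} (h : SS A E γ DE) (hA : A ≤ E') (hE : E' ≤ E)
    (hfin : E'.relIndex E ≠ 0) (h1 : ∀ e ∈ E', γ * e * γ⁻¹ ∈ E')
    (h2 : ∀ e ∈ E', γ⁻¹ * e * γ ∈ E') : SS A E' γ DE where
  hAE := hA
  conj := h1
  conj' := h2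
  fg := FGm_finite_index hE hfin h.fg
  stable := h.stable
  all := fun m hm δ hδ X hX hXe => h.all m hm δ (hE hδ) X hX hXe

theorem SS.hyp (hNA : ∀ E : Subgroup G, A ≤ E → NA0 D (E : Set G)) (h : SS A E γ DE)
    {L : Subgroup G} {n : ℕ} {p : Pos E L n} (hAL : A ≤ L) {m : ℕ} (hm : 1 ≤ m) {σ : Aut n}
    (hact : Pos.Act p (γ ^ m) σ) (hσ : Irr σ) : ∃ DL : AddSubgroup D, SS A L (γ ^ m) DL := by
  obtain ⟨r, V, hr, h1, h2, h3⟩ := hσ.dyn
  have hd : Pos.DD σ r V := ⟨hr, h1, h2, h3, fun u hu W hW m hm N => hσ.avoid hu W hW m hm N⟩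
  have hstD : γ ^ m • DE = DE := Pos.smul_pow_eq h.stable m
  obtain ⟨Y0, hY0, hY0'⟩ := Pos.hyp (hNA L hAL) (hNA E h.hAE) hact hd (stab_bot _) h.fg
    ⟨1, le_rfl, smul_bot' _⟩ ⟨1, le_rfl, by rw [pow_one]; exact hstD⟩
  set g := γ ^ m with hg
  set DL : AddSubgroup D := sSup (Pos.YY L g ⊥ DE) with hDL
  have hYs : ∀ Y ∈ Pos.YY L g ⊥ DE, Stab (L : Set G) Y :=
    fun Y hY => hY.2.1.stab (mulmem L) (stab_bot _)
  have hDLs : Stab (L : Set G) DL := stab_sSup hYs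
  have hgY : ∀ Y ∈ Pos.YY L g ⊥ DE, g • Y ∈ Pos.YY L g ⊥ DE := by
    rintro Y ⟨ha, hb, k, hk, hk'⟩
    refine ⟨?_, ?_, k, hk, ?_⟩
    · exact (AddSubgroup.pointwise_smul_le_pointwise_smul_iff.2 ha).trans hstD.le
    · have := hb.smul hact.conjL hact.conjL'
      rwa [smul_bot'] at this
    · rw [← mul_smul, ← pow_succ, pow_succ', mul_smul, hk']
  have hgY' : ∀ Y ∈ Pos.YY L g ⊥ DE, g⁻¹ • Y ∈ Pos.YY L g ⊥ DE := by
    rintro Y ⟨ha, hb, k, hk, hk'⟩
    refine ⟨?_, ?_, k, hk, ?_⟩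
    · rw [← le_smul_iff, hstD]; exact ha
    · have := hb.smul (g := g⁻¹) (fun l hl => by rw [inv_inv]; exact hact.conjL' l hl)
        (fun l hl => by rw [inv_inv]; exact hact.conjL l hl)
      rwa [smul_bot'] at this
    · have : g ^ k • g⁻¹ • Y = g⁻¹ • g ^ k • Y := by
        rw [← mul_smul, ← mul_smul]; congr 1; group
      rw [this, hk']
  refine ⟨DL, hAL, hact.conjL, hact.conjL', ?_, ?_, ?_⟩
  · exact (hNA L hAL).rel (mulmem L) hY0 bot_le (sSup_le hY0') hDLs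
  · apply le_antisymm
    · exact smul_sSup_le fun Y hY => le_sSup (hgY Y hY)
    · rw [le_smul_iff]
      exact smul_sSup_le fun Y hY => le_sSup (hgY' Y hY)
  · intro k hk δ hδ X hX hXe
    have hXD : X ≤ DE := h.all (m * k) (Nat.mul_pos hm hk) δ (p.hLE hδ) X hX (by
      rw [pow_mul]; exact hXe)
    have hnorm : ∀ l ∈ L, (g ^ k * δ) * l * (g ^ k * δ)⁻¹ ∈ L := by
      intro l hl
      have e : (g ^ k * δ) * l * (g ^ k * δ)⁻¹ = g ^ k * (δ * l * δ⁻¹) * (g ^ k)⁻¹ := by group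
      rw [e]
      exact (hact.pow k).conjL _ (L.mul_mem (L.mul_mem hδ hl) (L.inv_mem hδ))
    have hnorm' : ∀ l ∈ L, (g ^ k * δ)⁻¹ * l * (g ^ k * δ) ∈ L := by
      intro l hl
      have e : (g ^ k * δ)⁻¹ * l * (g ^ k * δ) = δ⁻¹ * ((g ^ k)⁻¹ * l * g ^ k) * δ := by group
      rw [e]
      exact L.mul_mem (L.mul_mem (L.inv_mem hδ) ((hact.pow k).conjL' _ hl)) hδ
    have hY1 : (g ^ k * δ) • sp (L : Set G) (X : Set D) = sp (L : Set G) (X : Set D) :=
      smul_sp_eq hnorm hnorm' hXe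
    have hYst : Stab (L : Set G) (sp (L : Set G) (X : Set D)) := stab_sp (mulmem L)
    have hY2 : g ^ k • sp (L : Set G) (X : Set D) = sp (L : Set G) (X : Set D) := by
      rw [mul_smul, smul_eq_of_stab hYst hδ] at hY1
      exact hY1
    exact (le_sp L.one_mem).trans (le_sSup ⟨sp_le_of_stab (h.stab.mono p.hLE) hXD,
      FGm_sp_of_FG hX, k, hk, hY2⟩)

theorem act_zpow {L : Subgroup G} {n : ℕ} {p : Pos E L n} {g : G} (hact : Pos.Act p g 1) (z : ℤ) :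
    Pos.Act p (g ^ z) 1 := by
  rcases Int.eq_nat_or_neg z with ⟨k, rfl | rfl⟩
  · have := hact.pow k
    rwa [one_pow, ← zpow_natCast] at this
  · have := (hact.pow k).inv
    rwa [one_pow, inv_one, ← zpow_natCast, ← zpow_neg] at this

theorem commutator_gamma {L : Subgroup G} {n : ℕ} {p : Pos E L n} {g : G}
    (hact : Pos.Act p g 1) : ⁅E ⊔ Subgroup.zpowers g, E ⊔ Subgroup.zpowers g⁆ ≤ L := by
  rw [Subgroup.commutator_le]
  intro x hx y hy
  obtain ⟨z, a, ha, rfl⟩ := (mem_sup_zpowers E g hact.conj hact.conj' x).1 hx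
  obtain ⟨w, b, hb, rfl⟩ := (mem_sup_zpowers E g hact.conj hact.conj' y).1 hy
  have hz := act_zpow hact z
  have hzw := act_zpow hact (z + w)
  have hw := act_zpow hact w
  have e : ⁅g ^ z * a, g ^ w * b⁆ = (g ^ z * a * (g ^ z)⁻¹) *
      (g ^ (z + w) * (b * a⁻¹) * (g ^ (z + w))⁻¹) * (g ^ w * b⁻¹ * (g ^ w)⁻¹) := by
    rw [commutatorElement_def, zpow_add]; group
  have h1 := hz.conj a ha
  have h2 := hzw.conj (b * a⁻¹) (E.mul_mem hb (E.inv_mem ha))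
  have h3 := hw.conj b⁻¹ (E.inv_mem hb)
  rw [e, ← p.ker _ (E.mul_mem (E.mul_mem h1 h2) h3), p.map_mul _ (E.mul_mem h1 h2) _ h3,
    p.map_mul _ h1 _ h2, hz.eq a ha, hzw.eq _ (E.mul_mem hb (E.inv_mem ha)), hw.eq _ (E.inv_mem hb),
    p.map_mul _ hb _ (E.inv_mem ha), p.map_inv ha, p.map_inv hb]
  simp

/-- avoiding finitely many subgroups of infinite index -/
theorem exists_avoid {L : Subgroup G} {n : ℕ} {p : Pos E L n} (hA : PolyMod A) (hAL : A ≤ L)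
    {g : G} (hact : Pos.Act p g 1) (𝓗 : Finset (Subgroup G))
    (h𝓗 : ∀ H ∈ 𝓗, L ≤ H ∧ H ≤ E ⊔ Subgroup.zpowers g ∧
      H.relIndex (E ⊔ Subgroup.zpowers g) = 0) :
    ∃ δ ∈ E, ∀ H ∈ 𝓗, ∀ k : ℕ, 1 ≤ k → (g * δ) ^ k ∉ H := by
  classical
  set Ga := E ⊔ Subgroup.zpowers g with hGa
  have hEG : E ≤ Ga := le_sup_left
  have hgG : g ∈ Ga := Subgroup.mem_sup_right (Subgroup.mem_zpowers g)
  have hcomm : ⁅Ga, Ga⁆ ≤ L := commutator_gamma hact
  have hφ : ∀ H : Subgroup G, ∃ φ : G → ℤ, H ∈ 𝓗 → (∀ a ∈ Ga, ∀ b ∈ Ga, φ (a * b) = φ a + φ b) ∧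
      (∀ a ∈ H, φ a = 0) ∧ ∃ x ∈ Ga, φ x ≠ 0 := by
    intro H
    by_cases hH : H ∈ 𝓗
    · obtain ⟨h1, h2, h3⟩ := h𝓗 H hH
      obtain ⟨S, hS⟩ := hA.fg Ga (hAL.trans (p.hLE.trans hEG))
      have hfg : ∃ S : Finset G, Ga = Subgroup.closure (S : Set G) ⊔ H := by
        refine ⟨S, le_antisymm ?_ (sup_le ?_ h2)⟩
        · conv_lhs => rw [hS]
          exact sup_le_sup_left (hAL.trans h1) _
        · rw [hS]; exact le_sup_left
      obtain ⟨k, LH, pH, hHL, _, h0⟩ := exists_pos h2 (hcomm.trans h1) hfg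
      have hk : 0 < k := by
        rcases Nat.eq_zero_or_pos k with hk | hk
        · exact absurd h3 (h0 hk)
        · exact hk
      refine ⟨fun x => pH.f x ⟨0, hk⟩, fun _ => ⟨?_, ?_, ?_⟩⟩
      · intro a ha b hb
        simp only
        rw [pH.map_mul a ha b hb]; rfl
      · intro a ha
        simp only
        rw [(pH.ker a (h2 ha)).2 (hHL ha)]; rfl
      · obtain ⟨x, hx, hxe⟩ := pH.surj (Pi.single ⟨0, hk⟩ 1)
        refine ⟨x, hx, ?_⟩
        simp only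
        rw [hxe]; simp
    · exact ⟨fun _ => 0, fun h => absurd h hH⟩
  choose φ hφ using hφ
  choose s hsE hs using p.surj
  have hφ1 : ∀ H ∈ 𝓗, φ H 1 = 0 := fun H hH => (hφ H hH).2.1 1 H.one_mem
  have hwd : ∀ H ∈ 𝓗, ∀ e ∈ E, φ H (s (p.f e)) = φ H e := by
    intro H hH e he
    have h1 : (s (p.f e))⁻¹ * e ∈ L := by
      rw [← p.ker _ (E.mul_mem (E.inv_mem (hsE _)) he), p.map_mul _ (E.inv_mem (hsE _)) _ he,
        p.map_inv (hsE _), hs, neg_add_cancel]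
    have h2 := (hφ H hH).2.1 _ ((h𝓗 H hH).1 h1)
    have h3 := (hφ H hH).1 (s (p.f e)) (hEG (hsE _)) ((s (p.f e))⁻¹ * e)
      (hEG (E.mul_mem (E.inv_mem (hsE _)) he))
    rw [h2, mul_inv_cancel_left, add_zero] at h3
    exact h3.symm
  let ψ : ∀ H ∈ 𝓗, (Fin n → ℤ) →+ ℤ := fun H hH =>
    { toFun := fun v => φ H (s v)
      map_zero' := by
        have := hwd H hH 1 E.one_mem
        rw [p.map_one] at this
        rw [this, hφ1 H hH]
      map_add' := by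
        intro v w
        have h3 := hwd H hH _ (E.mul_mem (hsE v) (hsE w))
        rw [p.map_mul _ (hsE v) _ (hsE w), hs, hs,
          (hφ H hH).1 _ (hEG (hsE v)) _ (hEG (hsE w))] at h3
        exact h3 }
  have hψ : ∀ H (hH : H ∈ 𝓗), ∀ e ∈ E, ψ H hH (p.f e) = φ H e := fun H hH e he => hwd H hH e he
  let Pl : Subgroup G → Polynomial ℤ := fun H =>
    Polynomial.C (φ H g) + ∑ i : Fin n, Polynomial.C (φ H (s (Pi.single i 1))) *
      Polynomial.X ^ ((i : ℕ) + 1)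
  have hPl : ∀ H ∈ 𝓗, Pl H ≠ 0 := by
    intro H hH h0
    have hc0 : φ H g = 0 := by
      have := congrArg (fun P : Polynomial ℤ => P.coeff 0) h0
      simpa [Pl, Polynomial.finsetSum_coeff, Polynomial.coeff_X_pow] using this
    have hci : ∀ i : Fin n, φ H (s (Pi.single i 1)) = 0 := by
      intro i
      have := congrArg (fun P : Polynomial ℤ => P.coeff ((i : ℕ) + 1)) h0
      simp only [Pl, Polynomial.coeff_add, Polynomial.finsetSum_coeff, Polynomial.coeff_C_mul,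
        Polynomial.coeff_X_pow, Polynomial.coeff_zero, Polynomial.coeff_C] at this
      rw [Finset.sum_eq_single i] at this
      · simpa using this
      · intro j _ hj
        have : (i : ℕ) ≠ (j : ℕ) := fun h => hj (Fin.ext h.symm)
        simp [this]
      · simp
    obtain ⟨x, hx, hx0⟩ := (hφ H hH).2.2
    apply hx0
    obtain ⟨z, e, he, rfl⟩ := (mem_sup_zpowers E g hact.conj hact.conj' x).1 hx
    have hE0 : φ H e = 0 := by
      rw [← hψ H hH e he, eq_sum_single (p.f e), map_sum]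
      refine Finset.sum_eq_zero fun i _ => ?_
      rw [map_zsmul]
      have : ψ H hH (Pi.single i 1) = 0 := hci i
      rw [this, smul_zero]
    have hpow : ∀ k : ℕ, φ H (g ^ k) = 0 := by
      intro k
      induction k with
      | zero => rw [pow_zero]; exact hφ1 H hH
      | succ k ih => rw [pow_succ, (hφ H hH).1 _ (Ga.pow_mem hgG k) _ hgG, ih, hc0, add_zero]
    have hz : φ H (g ^ z) = 0 := by
      rcases Int.eq_nat_or_neg z with ⟨k, rfl | rfl⟩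
      · rw [zpow_natCast]; exact hpow k
      · have h4 := (hφ H hH).1 (g ^ (-(k : ℤ))) (Ga.zpow_mem hgG _) (g ^ k) (Ga.pow_mem hgG k)
        rw [hpow, ← zpow_natCast, ← zpow_add, neg_add_cancel, zpow_zero, hφ1 H hH, add_zero] at h4
        exact h4.symm
    rw [(hφ H hH).1 _ (Ga.zpow_mem hgG z) _ (hEG he), hz, hE0, add_zero]
  have hprod : ∏ H ∈ 𝓗, Pl H ≠ 0 := Finset.prod_ne_zero_iff.2 hPl
  have hex : ∃ t : ℤ, (∏ H ∈ 𝓗, Pl H).eval t ≠ 0 := by
    by_contra hcon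
    push Not at hcon
    exact hprod (Polynomial.funext fun t => by rw [hcon t, Polynomial.eval_zero])
  obtain ⟨t, ht⟩ := hex
  rw [Polynomial.eval_prod, Finset.prod_ne_zero_iff] at ht
  let v : Fin n → ℤ := fun i => t ^ ((i : ℕ) + 1)
  refine ⟨s v, hsE v, fun H hH k hk hmem => ?_⟩
  have hev : (Pl H).eval t = φ H (g * s v) := by
    rw [(hφ H hH).1 g hgG _ (hEG (hsE v))]
    have h5 : φ H (s v) = ψ H hH v := rfl
    rw [h5, eq_sum_single v, map_sum]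
    simp only [Pl, Polynomial.eval_add, Polynomial.eval_C, Polynomial.eval_finsetSum,
      Polynomial.eval_mul, Polynomial.eval_pow, Polynomial.eval_X]
    congr 1
    refine Finset.sum_congr rfl fun i _ => ?_
    rw [map_zsmul]
    have h6 : ψ H hH (Pi.single i 1) = φ H (s (Pi.single i 1)) := rfl
    rw [h6, smul_eq_mul, mul_comm]
  have h7 : φ H ((g * s v) ^ k) = 0 := (hφ H hH).2.1 _ hmem
  have hgs : g * s v ∈ Ga := Ga.mul_mem hgG (hEG (hsE v))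
  have h8 : ∀ k : ℕ, φ H ((g * s v) ^ k) = k * φ H (g * s v) := by
    intro k
    induction k with
    | zero => rw [pow_zero, hφ1 H hH]; simp
    | succ k ih =>
      rw [pow_succ, (hφ H hH).1 _ (Ga.pow_mem hgs k) _ hgs, ih]; push_cast; ring
  rw [h8] at h7
  have h9 : φ H (g * s v) ≠ 0 := by rw [← hev]; exact ht H hH
  rcases mul_eq_zero.1 h7 with h10 | h10
  · have : k = 0 := by exact_mod_cast h10
    omega
  · exact h9 h10

theorem SS.triv (hA : PolyMod A) (hNA : ∀ E : Subgroup G, A ≤ E → NA0 D (E : Set G))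
    (h : SS A E γ DE) {L : Subgroup G} {n : ℕ} {p : Pos E L n} (hAL : A ≤ L) {m : ℕ} (hm : 1 ≤ m)
    (hact : Pos.Act p (γ ^ m) 1) : ∃ (γ' : G) (DL : AddSubgroup D), SS A L γ' DL := by
  classical
  have hstD : γ ^ m • DE = DE := Pos.smul_pow_eq h.stable m
  set g := γ ^ m with hg
  set Ga := E ⊔ Subgroup.zpowers g with hGa
  have hEG : E ≤ Ga := le_sup_left
  have hgG : g ∈ Ga := Subgroup.mem_sup_right (Subgroup.mem_zpowers g)
  have hcomm : ⁅Ga, Ga⁆ ≤ L := commutator_gamma hact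
  have hDG : Stab (Ga : Set G) DE := stab_sup_group h.stab (stab_zpowers hstD)
  have hFG : FGm (Ga : Set G) ⊥ DE := h.fg.up hEG hDG E.one_mem
  have hLG : L ≤ Ga := p.hLE.trans hEG
  obtain ⟨T, _, hTD, hTs, hTfg, 𝓗, h𝓗, hT⟩ := genT hA hNA hAL hLG hcomm (stab_bot _) hFG
  obtain ⟨δ0, hδ0, hav⟩ := exists_avoid hA hAL hact 𝓗 h𝓗
  have hgδ : g * δ0 ∈ Ga := Ga.mul_mem hgG (hEG hδ0)
  have hc1 : ∀ x ∈ Ga, ∀ l ∈ L, x * l * x⁻¹ ∈ L := fun x hx => conj_mem_of_comm hcomm hLG hx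
  have hc2 : ∀ x ∈ Ga, ∀ l ∈ L, x⁻¹ * l * x ∈ L := fun x hx => conj_mem_of_comm' hcomm hLG hx
  refine ⟨g * δ0, T, hAL, hc1 _ hgδ, hc2 _ hgδ, hTfg, smul_eq_of_stab hTs hgδ, ?_⟩
  intro k hk δ hδ X hX hXe
  have hδE := p.hLE hδ
  have hpow : ∀ k : ℕ, ∃ δ' ∈ E, (g * δ0) ^ k = g ^ k * δ' := by
    intro k
    induction k with
    | zero => exact ⟨1, E.one_mem, by simp⟩
    | succ k ih =>
      obtain ⟨δ', hδ', e⟩ := ih
      refine ⟨(g⁻¹ * δ' * g) * δ0, E.mul_mem (hact.conj' _ hδ') hδ0, ?_⟩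
      rw [pow_succ, e, pow_succ]; group
  obtain ⟨δ', hδ', e⟩ := hpow k
  have hXD : X ≤ DE := h.all (m * k) (Nat.mul_pos hm hk) (δ' * δ) (E.mul_mem hδ' hδE) X hX (by
    rw [pow_mul, ← mul_assoc, ← e]; exact hXe)
  have hmem : (g * δ0) ^ k * δ ∈ Ga := Ga.mul_mem (Ga.pow_mem hgδ k) (hLG hδ)
  have hY : sp (L : Set G) (X : Set D) ∈ Fset (L : Set G) ⊥ DE ((g * δ0) ^ k * δ) :=
    ⟨sp_le_of_stab (h.stab.mono p.hLE) hXD, FGm_sp_of_FG hX,
      smul_sp_eq (hc1 _ hmem) (hc2 _ hmem) hXe⟩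
  refine (le_sp L.one_mem).trans (hT _ hmem (fun H hH hin => ?_) _ hY)
  refine hav H hH k hk ?_
  have := H.mul_mem hin (H.inv_mem ((h𝓗 H hH).1 hδ))
  rwa [mul_inv_cancel_right] at this

end

end Pool.Agent.H79.Asc
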