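import Pool.Agent.H79.Asc.Main
import Pool.Agent.H79.Asc.FP

set_option autoImplicit false

open scoped Pointwise commutatorElement

namespace Pool.Agent.H79.Asc

theorem inv_invariant {n : ℕ} (τ : Aut n) (Λ : AddSubgroup (Fin n → ℤ))
    (h : ∀ v ∈ Λ, τ v ∈ Λ) : ∀ v ∈ Λ, (τ⁻¹ : Aut n) v ∈ Λ := by
  -- the ascending chain of preimages
  have hmem : ∀ (k : ℕ) (v : Fin n → ℤ), v ∈ (AddSubgroup.toIntSubmodule Λ).comap
      ((τ ^ k : Aut n) : (Fin n → ℤ) →ₗ[ℤ] (Fin n → ℤ)) ↔ (τ ^ k) v ∈ Λ := fun k v => Iff.rfl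
  let c : ℕ →o Submodule ℤ (Fin n → ℤ) :=
    ⟨fun k => (AddSubgroup.toIntSubmodule Λ).comap
      ((τ ^ k : Aut n) : (Fin n → ℤ) →ₗ[ℤ] (Fin n → ℤ)), monotone_nat_of_le_succ fun k v hv => by
        rw [hmem] at hv ⊢
        rw [pow_succ', LinearEquiv.mul_apply]
        exact h _ hv⟩
  obtain ⟨k, hk⟩ := monotone_stabilizes_iff_noetherian.2 (inferInstance :
    IsNoetherian ℤ (Fin n → ℤ)) c
  intro v hv
  have h1 : ((τ ^ (k + 1))⁻¹ : Aut n) v ∈ c (k + 1) := by
    change (τ ^ (k + 1)) (((τ ^ (k + 1))⁻¹ : Aut n) v) ∈ Λ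
    rw [← LinearEquiv.mul_apply, mul_inv_cancel]
    exact hv
  rw [← hk (k + 1) (Nat.le_succ k)] at h1
  have h2 : (τ ^ k) (((τ ^ (k + 1))⁻¹ : Aut n) v) ∈ Λ := h1
  rw [← LinearEquiv.mul_apply] at h2
  have e : τ ^ k * (τ ^ (k + 1))⁻¹ = τ⁻¹ := by rw [pow_succ']; group
  rwa [e] at h2

theorem uniform_N {n : ℕ} (Λ : AddSubgroup (Fin n → ℤ))
    (h : ∀ v : Fin n → ℤ, ∃ k : ℕ, 1 ≤ k ∧ k • v ∈ Λ) : ∃ N : ℕ, 1 ≤ N ∧ ∀ v, N • v ∈ Λ := by
  choose k hk hkv using h
  refine ⟨∏ i : Fin n, k (Pi.single i 1), Nat.one_le_iff_ne_zero.2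
    (Finset.prod_ne_zero_iff.2 fun i _ => (Nat.one_le_iff_ne_zero.1 (hk _))), fun v => ?_⟩
  rw [eq_sum_single v, Finset.smul_sum]
  refine AddSubgroup.sum_mem _ fun i _ => ?_
  obtain ⟨c, hc⟩ := Finset.dvd_prod_of_mem (fun i : Fin n => k (Pi.single i 1)) (Finset.mem_univ i)
  rw [hc, smul_comm, mul_comm, mul_smul]
  exact Λ.zsmul_mem (Λ.nsmul_mem (hkv _) _) _

section
variable {G D : Type*} [Group G] [AddCommGroup D] [DistribMulAction G D]

theorem main_rank {A E' : Subgroup G} (hA : PolyMod A)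
    (hNA : ∀ E : Subgroup G, A ≤ E → NA0 D (E : Set G)) (hAE' : A ≤ E')
    (hE'n : ∀ g : G, ∀ x ∈ E', g * x * g⁻¹ ∈ E') (N : ℕ) :
    ∀ (E : Subgroup G) (γ : G) (DE : AddSubgroup D), SS A E γ DE → E' ≤ E → ⁅E, E⁆ ≤ E' →
      ∀ (L0 : Subgroup G) (_ : Pos E L0 N), E' ≤ L0 → (∀ a ∈ L0, ∃ k : ℕ, 1 ≤ k ∧ a ^ k ∈ E') →
        ∃ (γ' : G) (D' : AddSubgroup D), SS A E' γ' D' := by
  classical
  have hE'n' : ∀ g : G, ∀ x ∈ E', g⁻¹ * x * g ∈ E' := fun g x hx => by
    have := hE'n g⁻¹ x hx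
    rwa [inv_inv] at this
  induction N using Nat.strong_induction_on with
  | _ N ih =>
    intro E γ DE h hE'E hcomm L0 p0 hE'L0 htor
    have hfgE : ∀ K : Subgroup G, A ≤ K → K ≤ E →
        ∃ S : Finset G, E = Subgroup.closure (S : Set G) ⊔ K := by
      intro K hAK hKE
      obtain ⟨S, hS⟩ := hA.fg E (hAK.trans hKE)
      refine ⟨S, le_antisymm ?_ (sup_le ?_ hKE)⟩
      · conv_lhs => rw [hS]
        exact sup_le_sup_left hAK _
      · rw [hS]; exact le_sup_left
    rcases Nat.eq_zero_or_pos N with hN | hN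
    · subst hN
      refine ⟨γ, DE, h.finite hAE' hE'E ?_ (hE'n γ) (hE'n' γ)⟩
      refine finite_of_torsion hE'E hcomm (hfgE E' hAE' hE'E) fun a ha => htor a ?_
      rw [← p0.ker a ha]
      exact Subsingleton.elim _ _
    · -- the minimal quotient
      let P : ℕ → Prop := fun k => 1 ≤ k ∧ ∃ m : ℕ, 1 ≤ m ∧ ∃ (L : Subgroup G) (_ : Pos E L k),
        E' ≤ L ∧ (∀ l ∈ L, γ ^ m * l * (γ ^ m)⁻¹ ∈ L) ∧ (∀ l ∈ L, (γ ^ m)⁻¹ * l * γ ^ m ∈ L)
      -- isolators are stable
      have hiso : ∀ {k : ℕ} {K L : Subgroup G} (p : Pos E L k) (g : G),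
          (∀ x ∈ E, g * x * g⁻¹ ∈ E) → K ≤ L → (∀ a ∈ L, ∃ k : ℕ, 1 ≤ k ∧ a ^ k ∈ K) →
          (∀ x ∈ K, g * x * g⁻¹ ∈ K) → ∀ l ∈ L, g * l * g⁻¹ ∈ L := by
        intro k K L p g hgE hKL ht hgK l hl
        obtain ⟨j, hj, hlj⟩ := ht l hl
        have h1 : (g * l * g⁻¹) ^ j ∈ K := by
          rw [conj_pow]; exact hgK _ hlj
        have h2 := hgE l (p.hLE hl)
        rw [← p.ker _ h2]
        have h3 := (p.ker _ (E.pow_mem h2 j)).2 (hKL h1)
        rw [p.map_pow h2] at h3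
        exact (smul_eq_zero.1 h3).resolve_left (by omega)
      have hPN : ∃ k, P k := by
        refine ⟨N, hN, 1, le_rfl, L0, p0, hE'L0, ?_, ?_⟩
        · rw [pow_one]
          exact hiso p0 γ h.conj hE'L0 htor (hE'n γ)
        · rw [pow_one]
          have := hiso p0 γ⁻¹ (fun x hx => by rw [inv_inv]; exact h.conj' x hx) hE'L0 htor
            (hE'n γ⁻¹)
          simpa using this
      obtain ⟨hk1, m, hm, L, p, hE'L, hc1, hc2⟩ := Nat.find_spec hPN
      have hmin := fun j (hj : j < Nat.find hPN) => Nat.find_min hPN hj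
      set k := Nat.find hPN with hk
      have hpowE : ∀ j : ℕ, ∀ x ∈ E, γ ^ j * x * (γ ^ j)⁻¹ ∈ E :=
        fun j => conj_pow_mem (M := (E : Set G)) h.conj j
      have hpowE' : ∀ j : ℕ, ∀ x ∈ E, (γ ^ j)⁻¹ * x * γ ^ j ∈ E :=
        fun j => conj_pow_mem' (M := (E : Set G)) h.conj' j
      obtain ⟨σ, hact⟩ := p.exists_act (hpowE m) (hpowE' m) hc1 hc2
      have hAL : A ≤ L := hAE'.trans hE'L
      have hcommL : ⁅E, E⁆ ≤ L := hcomm.trans hE'L
      -- irreducibility
      have hirr : ∀ m' : ℕ, 1 ≤ m' → ∀ Λ : AddSubgroup (Fin k → ℤ), (∀ v ∈ Λ, (σ ^ m') v ∈ Λ) →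
          Λ = ⊥ ∨ ∃ N : ℕ, 1 ≤ N ∧ ∀ v, N • v ∈ Λ := by
        intro m' hm' Λ hΛ
        by_contra hcon
        push Not at hcon
        obtain ⟨hΛ0, hΛN⟩ := hcon
        let K : Subgroup G :=
          { carrier := {e | e ∈ E ∧ p.f e ∈ Λ}
            one_mem' := ⟨E.one_mem, by rw [p.map_one]; exact Λ.zero_mem⟩
            mul_mem' := by
              rintro a b ⟨ha, ha'⟩ ⟨hb, hb'⟩
              exact ⟨E.mul_mem ha hb, by rw [p.map_mul a ha b hb]; exact Λ.add_mem ha' hb'⟩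
            inv_mem' := by
              rintro a ⟨ha, ha'⟩
              exact ⟨E.inv_mem ha, by rw [p.map_inv ha]; exact Λ.neg_mem ha'⟩ }
        have hKE : K ≤ E := fun e he => he.1
        have hLK : L ≤ K := fun l hl => ⟨p.hLE hl, by
          rw [(p.ker l (p.hLE hl)).2 hl]; exact Λ.zero_mem⟩
        obtain ⟨n2, L2, p2, hKL2, htor2, _⟩ := exists_pos hKE (hcommL.trans hLK)
          (hfgE K (hAL.trans hLK) hKE)
        have hactm := hact.pow m'
        rw [← pow_mul] at hactm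
        have hK1 : ∀ x ∈ K, γ ^ (m * m') * x * (γ ^ (m * m'))⁻¹ ∈ K := fun x hx =>
          ⟨hpowE _ x hx.1, by rw [hactm.eq x hx.1]; exact hΛ _ hx.2⟩
        have hK2 : ∀ x ∈ K, (γ ^ (m * m'))⁻¹ * x * γ ^ (m * m') ∈ K := fun x hx =>
          ⟨hpowE' _ x hx.1, by
            have := hactm.inv.eq x hx.1
            rw [inv_inv] at this
            rw [this]; exact inv_invariant _ Λ hΛ _ hx.2⟩
        have hL21 := hiso p2 (γ ^ (m * m')) (hpowE _) hKL2 htor2 hK1
        have hL22 : ∀ l ∈ L2, (γ ^ (m * m'))⁻¹ * l * γ ^ (m * m') ∈ L2 := by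
          have := hiso p2 (γ ^ (m * m'))⁻¹ (fun x hx => by rw [inv_inv]; exact hpowE' _ x hx) hKL2
            htor2 (fun x hx => by rw [inv_inv]; exact hK2 x hx)
          intro l hl
          have h3 := this l hl
          rwa [inv_inv] at h3
        have hne : ∃ e ∈ L2, e ∉ L := by
          obtain ⟨v, hv, hv0⟩ : ∃ v ∈ Λ, v ≠ 0 := by
            by_contra hno
            push Not at hno
            exact hΛ0 ((AddSubgroup.eq_bot_iff_forall Λ).2 hno)
          obtain ⟨e, he, hev⟩ := p.surj v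
          refine ⟨e, hKL2 ⟨he, by rw [hev]; exact hv⟩, fun heL => hv0 ?_⟩
          rw [← hev]; exact (p.ker e he).2 heL
        have hlt : n2 < k := p.rank_lt p2 (hLK.trans hKL2) hne
        rcases Nat.eq_zero_or_pos n2 with hn2 | hn2
        · subst hn2
          obtain ⟨N', hN', hN'v⟩ := uniform_N Λ (fun v => by
            obtain ⟨e, he, hev⟩ := p.surj v
            have heL2 : e ∈ L2 := (p2.ker e he).1 (Subsingleton.elim _ _)
            obtain ⟨j, hj, hej⟩ := htor2 e heL2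
            refine ⟨j, hj, ?_⟩
            have := hej.2
            rwa [p.map_pow he, hev] at this)
          obtain ⟨v, hv⟩ := hΛN N' hN'
          exact hv (hN'v v)
        · exact hmin n2 hlt ⟨hn2, m * m', Nat.mul_pos hm hm', L2, p2,
            hE'L.trans (hLK.trans hKL2), hL21, hL22⟩
      -- the two cases
      have hstep : ∃ (γ' : G) (DL : AddSubgroup D), SS A L γ' DL := by
        by_cases hper : ∃ m' : ℕ, 1 ≤ m' ∧ ∃ v : Fin k → ℤ, v ≠ 0 ∧ (σ ^ m') v = v
        · obtain ⟨m', hm', v, hv0, hv⟩ := hper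
          let Λ : AddSubgroup (Fin k → ℤ) :=
            { carrier := {v | (σ ^ m') v = v}
              zero_mem' := map_zero _
              add_mem' := by
                intro a b ha hb
                simp only [Set.mem_ofPred_eq] at *
                rw [map_add, ha, hb]
              neg_mem' := by
                intro a ha
                simp only [Set.mem_ofPred_eq] at *
                rw [map_neg, ha] }
          have hσ1 : σ ^ m' = 1 := by
            rcases hirr m' hm' Λ (fun w hw => by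
              have hw' : (σ ^ m') w = w := hw
              rw [hw']; exact hw) with h1 | ⟨N', hN', h1⟩
            · exfalso
              apply hv0
              have : v ∈ Λ := hv
              rwa [h1, AddSubgroup.mem_bot] at this
            · ext w : 1
              have h2 : (σ ^ m') (N' • w) = N' • w := h1 w
              rw [map_nsmul] at h2
              have h3 : N' • ((σ ^ m') w - w) = 0 := by rw [smul_sub, h2, sub_self]
              have h4 := (smul_eq_zero.1 h3).resolve_left (by omega)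
              exact sub_eq_zero.1 h4
          have hact' := hact.pow m'
          rw [hσ1, ← pow_mul] at hact'
          exact h.triv hA hNA hAL (Nat.mul_pos hm hm') hact'
        · push Not at hper
          exact ⟨_, h.hyp hNA hAL hm hact ⟨hirr, fun m' hm' v hv0 => hper m' hm' v hv0, hk1⟩⟩
      obtain ⟨γ', DL, hL⟩ := hstep
      have hcomm' : ⁅L, L⁆ ≤ E' := (Subgroup.commutator_mono p.hLE p.hLE).trans hcomm
      have hfgL : ∃ S : Finset G, L = Subgroup.closure (S : Set G) ⊔ E' := by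
        obtain ⟨S, hS⟩ := hA.fg L hAL
        refine ⟨S, le_antisymm ?_ (sup_le ?_ hE'L)⟩
        · conv_lhs => rw [hS]
          exact sup_le_sup_left hAE' _
        · rw [hS]; exact le_sup_left
      obtain ⟨n', L', p', hE'L', htor', _⟩ := exists_pos hE'L hcomm' hfgL
      have hlt : n' < N := Pos.rank_drop p0 p hk1 p' hE'L htor hE'L0 htor' hE'L'
      exact ih n' hlt L γ' DL hL hE'L hcomm' L' p' hE'L' htor'

theorem main_all {A : Subgroup G} (hA : PolyMod A)
    (hNA : ∀ E : Subgroup G, A ≤ E → NA0 D (E : Set G))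
    (hD : FGm ((⊤ : Subgroup G) : Set G) ⊥ (⊤ : AddSubgroup D)) (k : ℕ) :
    ∃ (γ : G) (DE : AddSubgroup D), SS A (derivedSeries G k ⊔ A) γ DE := by
  have := hA.normal
  induction k with
  | zero =>
    refine ⟨1, ⊤, ?_⟩
    have e : derivedSeries G 0 ⊔ A = ⊤ := by simp
    rw [e]
    exact ⟨le_top, fun _ _ => trivial, fun _ _ => trivial, hD, one_smul _ _,
      fun _ _ _ _ _ _ _ => le_top⟩
  | succ k ih =>
    obtain ⟨γ, DE, h⟩ := ih
    have hcomm : ⁅derivedSeries G k ⊔ A, derivedSeries G k ⊔ A⁆ ≤ derivedSeries G (k + 1) ⊔ A := by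
      rw [derivedSeries_succ]; exact commutator_sup_le A _ _
    have hle : derivedSeries G (k + 1) ⊔ A ≤ derivedSeries G k ⊔ A :=
      sup_le_sup_right (derivedSeries_antitone G (Nat.le_succ k)) _
    have hAE' : A ≤ derivedSeries G (k + 1) ⊔ A := le_sup_right
    have hn : (derivedSeries G (k + 1) ⊔ A).Normal := inferInstance
    obtain ⟨S, hS⟩ := hA.fg (derivedSeries G k ⊔ A) le_sup_right
    obtain ⟨n, L0, p0, h1, h2, _⟩ := exists_pos hle hcomm ⟨S, le_antisymm (by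
      conv_lhs => rw [hS]
      exact sup_le_sup_left hAE' _) (sup_le (by rw [hS]; exact le_sup_left) hle)⟩
    exact main_rank hA hNA hAE' (fun g x hx => hn.conj_mem x hx g) n _ γ DE h hle hcomm L0 p0 h1 h2

theorem main_D {A : Subgroup G} (hA : PolyMod A) (hact : ∀ a ∈ A, ∀ x : D, a • x = x)
    (hD : FGm ((⊤ : Subgroup G) : Set G) ⊥ (⊤ : AddSubgroup D)) :
    ∃ (γ : G) (DA : AddSubgroup D), DA.FG ∧
      ∀ X : AddSubgroup D, X.FG → γ • X = X → X ≤ DA := by
  obtain ⟨k, hk⟩ := hA.sol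
  obtain ⟨γ, DA, h⟩ := main_all hA (fun E hE => hA.NA hact E hE) hD k
  rw [sup_eq_right.2 hk] at h
  refine ⟨γ, DA, ?_, fun X hX hXe => h.all 1 le_rfl 1 A.one_mem X hX (by simpa using hXe)⟩
  obtain ⟨X, hX⟩ := h.fg
  refine ⟨X, ?_⟩
  rw [hX, sup_bot_eq]
  apply le_antisymm
  · rw [AddSubgroup.closure_le]
    exact subset_sp A.one_mem
  · rw [sp_le]
    intro a ha x hx
    rw [hact a ha]
    exact AddSubgroup.subset_closure hx

end

end Pool.Agent.H79.Asc
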