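import Pool.Agent.H79.Asc.Span

set_option autoImplicit false

open scoped Pointwise commutatorElement

namespace Pool.Agent.H79.Asc

section
variable {G : Type*} [Group G]

theorem conj_zpow_mem {M : Set G} {t : G} (ht : ∀ m ∈ M, t * m * t⁻¹ ∈ M)
    (ht' : ∀ m ∈ M, t⁻¹ * m * t ∈ M) (z : ℤ) : ∀ m ∈ M, t ^ z * m * (t ^ z)⁻¹ ∈ M := by
  intro m hm
  rcases Int.eq_nat_or_neg z with ⟨n, rfl | rfl⟩
  · simpa using conj_pow_mem ht n m hm
  · have := conj_pow_mem' ht' n m hm
    simpa using this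

theorem conj_zpow_mem' {M : Set G} {t : G} (ht : ∀ m ∈ M, t * m * t⁻¹ ∈ M)
    (ht' : ∀ m ∈ M, t⁻¹ * m * t ∈ M) (z : ℤ) : ∀ m ∈ M, (t ^ z)⁻¹ * m * t ^ z ∈ M := by
  intro m hm
  have := conj_zpow_mem ht ht' (-z) m hm
  simpa using this

/-- the subgroup of elements `t^z * e`. -/
def nz (E : Subgroup G) (t : G) (ht : ∀ m ∈ E, t * m * t⁻¹ ∈ E)
    (ht' : ∀ m ∈ E, t⁻¹ * m * t ∈ E) : Subgroup G where
  carrier := {x | ∃ z : ℤ, ∃ e ∈ E, x = t ^ z * e}
  one_mem' := ⟨0, 1, E.one_mem, by simp⟩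
  mul_mem' := by
    rintro _ _ ⟨z, e, he, rfl⟩ ⟨w, f, hf, rfl⟩
    refine ⟨z + w, ((t ^ w)⁻¹ * e * t ^ w) * f, E.mul_mem (conj_zpow_mem' ht ht' w e he) hf, ?_⟩
    rw [zpow_add]; group
  inv_mem' := by
    rintro _ ⟨z, e, he, rfl⟩
    refine ⟨-z, t ^ z * e⁻¹ * (t ^ z)⁻¹, conj_zpow_mem ht ht' z _ (E.inv_mem he), ?_⟩
    rw [zpow_neg]; group

theorem mem_sup_zpowers (E : Subgroup G) (t : G) (ht : ∀ m ∈ E, t * m * t⁻¹ ∈ E)
    (ht' : ∀ m ∈ E, t⁻¹ * m * t ∈ E) (x : G) :
    x ∈ E ⊔ Subgroup.zpowers t ↔ ∃ z : ℤ, ∃ e ∈ E, x = t ^ z * e := by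
  constructor
  · intro hx
    have : E ⊔ Subgroup.zpowers t ≤ nz E t ht ht' := by
      refine sup_le (fun e he => ⟨0, e, he, by simp⟩) ?_
      rw [Subgroup.zpowers_le]
      exact ⟨1, 1, E.one_mem, by simp⟩
    exact this hx
  · rintro ⟨z, e, he, rfl⟩
    exact Subgroup.mul_mem _ (Subgroup.mem_sup_right (Subgroup.zpow_mem_zpowers t z))
      (Subgroup.mem_sup_left he)

/-- `G/A` is soluble and all subgroups of `G` containing `A` are finitely generated mod `A`. -/
structure PolyMod (A : Subgroup G) : Prop where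
  normal : A.Normal
  sol : ∃ n : ℕ, derivedSeries G n ≤ A
  fg : ∀ H : Subgroup G, A ≤ H → ∃ S : Finset G, H = Subgroup.closure (S : Set G) ⊔ A

def der (k : ℕ) (E : Subgroup G) : Subgroup G := (fun H : Subgroup G => ⁅H, H⁆)^[k] E

theorem der_zero (E : Subgroup G) : der 0 E = E := rfl

theorem der_succ (k : ℕ) (E : Subgroup G) : der (k + 1) E = ⁅der k E, der k E⁆ := by
  unfold der; rw [Function.iterate_succ_apply']

theorem der_succ' (k : ℕ) (E : Subgroup G) : der (k + 1) E = der k ⁅E, E⁆ := by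
  unfold der; rw [Function.iterate_succ_apply]

theorem der_mono (k : ℕ) {E F : Subgroup G} (h : E ≤ F) : der k E ≤ der k F := by
  induction k with
  | zero => exact h
  | succ k ih => rw [der_succ, der_succ]; exact Subgroup.commutator_mono ih ih

theorem der_top (k : ℕ) : der k (⊤ : Subgroup G) = derivedSeries G k := by
  induction k with
  | zero => rfl
  | succ k ih => rw [der_succ, ih, derivedSeries_succ]

theorem map_sup_self (A : Subgroup G) [A.Normal] (H : Subgroup G) :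
    (H ⊔ A).map (QuotientGroup.mk' A) = H.map (QuotientGroup.mk' A) := by
  rw [Subgroup.map_sup]
  have : A.map (QuotientGroup.mk' A) = ⊥ := by
    rw [Subgroup.map_eq_bot_iff]; simp
  rw [this, sup_bot_eq]

theorem le_sup_of_map_le (A : Subgroup G) [A.Normal] {H K : Subgroup G}
    (h : H.map (QuotientGroup.mk' A) ≤ K.map (QuotientGroup.mk' A)) : H ≤ K ⊔ A := by
  rw [Subgroup.map_le_iff_le_comap, Subgroup.comap_map_eq] at h
  simpa using h

theorem commutator_sup_le (A : Subgroup G) [A.Normal] (H K : Subgroup G) :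
    ⁅H ⊔ A, K ⊔ A⁆ ≤ ⁅H, K⁆ ⊔ A := by
  apply le_sup_of_map_le
  rw [Subgroup.map_commutator, Subgroup.map_commutator, map_sup_self, map_sup_self]

theorem der_sup_le (A : Subgroup G) [A.Normal] (k : ℕ) (H : Subgroup G) :
    der k (H ⊔ A) ≤ der k H ⊔ A := by
  induction k with
  | zero => exact le_rfl
  | succ k ih =>
    rw [der_succ, der_succ]
    exact (Subgroup.commutator_mono ih ih).trans (commutator_sup_le A _ _)

theorem conj_mem_of_comm {E F : Subgroup G} (hF : ⁅E, E⁆ ≤ F) (hFE : F ≤ E) {s : G} (hs : s ∈ E) :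
    ∀ x ∈ F, s * x * s⁻¹ ∈ F := by
  intro x hx
  have h : ⁅s, x⁆ ∈ F := hF (Subgroup.commutator_mem_commutator hs (hFE hx))
  have e : s * x * s⁻¹ = ⁅s, x⁆ * x := by rw [commutatorElement_def]; group
  rw [e]; exact F.mul_mem h hx

theorem conj_mem_of_comm' {E F : Subgroup G} (hF : ⁅E, E⁆ ≤ F) (hFE : F ≤ E) {s : G}
    (hs : s ∈ E) : ∀ x ∈ F, s⁻¹ * x * s ∈ F := by
  intro x hx
  have := conj_mem_of_comm hF hFE (E.inv_mem hs) x hx
  simpa using this

/-- Adding generators one at a time. -/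
theorem add_generators {P : Subgroup G → Prop} {E F : Subgroup G}
    (step : ∀ (E : Subgroup G) (t : G), F ≤ E → P E → (∀ x ∈ E, t * x * t⁻¹ ∈ E) →
      (∀ x ∈ E, t⁻¹ * x * t ∈ E) → P (E ⊔ Subgroup.zpowers t))
    (hF : ⁅E, E⁆ ≤ F) (hFE : F ≤ E) (hPF : P F) (S : Finset G) (hS : (S : Set G) ⊆ E) :
    P (F ⊔ Subgroup.closure (S : Set G)) := by
  classical
  induction S using Finset.induction_on with
  | empty => simpa using hPF
  | insert s S _ ih =>
    have hS' : (S : Set G) ⊆ E := fun x hx => hS (by simp [hx])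
    have hs : s ∈ E := hS (by simp)
    have e : F ⊔ Subgroup.closure ((insert s S : Finset G) : Set G) =
        (F ⊔ Subgroup.closure (S : Set G)) ⊔ Subgroup.zpowers s := by
      rw [Finset.coe_insert, Set.insert_eq, Subgroup.closure_union, ← Subgroup.zpowers_eq_closure,
        sup_assoc, sup_comm (Subgroup.zpowers s)]
    rw [e]
    have hle : F ⊔ Subgroup.closure (S : Set G) ≤ E :=
      sup_le hFE ((Subgroup.closure_le _).2 hS')
    exact step _ s le_sup_left (ih hS') (conj_mem_of_comm (hF.trans le_sup_left) hle hs)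
      (conj_mem_of_comm' (hF.trans le_sup_left) hle hs)

theorem PolyMod.induction {A : Subgroup G} (hA : PolyMod A) {P : Subgroup G → Prop} (base : P A)
    (step : ∀ (E : Subgroup G) (t : G), A ≤ E → P E → (∀ x ∈ E, t * x * t⁻¹ ∈ E) →
      (∀ x ∈ E, t⁻¹ * x * t ∈ E) → P (E ⊔ Subgroup.zpowers t)) :
    ∀ E : Subgroup G, A ≤ E → P E := by
  haveI := hA.normal
  obtain ⟨n, hn⟩ := hA.sol
  have main : ∀ k : ℕ, ∀ E : Subgroup G, A ≤ E → der k E ≤ A → P E := by
    intro k
    induction k with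
    | zero =>
      intro E hE hk
      have : E = A := le_antisymm hk hE
      rw [this]; exact base
    | succ k ih =>
      intro E hE hk
      have h1 : P (⁅E, E⁆ ⊔ A) := by
        apply ih _ le_sup_right
        refine (der_sup_le A k _).trans (sup_le ?_ le_rfl)
        rw [← der_succ']; exact hk
      obtain ⟨S, hS⟩ := hA.fg E hE
      have hSE : (S : Set G) ⊆ E := by
        intro x hx
        rw [hS]; exact Subgroup.mem_sup_left (Subgroup.subset_closure hx)
      have hcE : ⁅E, E⁆ ≤ E := Subgroup.commutator_le_self E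
      have := add_generators (P := P) (E := E) (F := ⁅E, E⁆ ⊔ A)
        (fun E' t hE' => step E' t (le_sup_right.trans hE')) le_sup_left (sup_le hcE hE) h1 S hSE
      have e : ⁅E, E⁆ ⊔ A ⊔ Subgroup.closure (S : Set G) = E := by
        apply le_antisymm
        · exact sup_le (sup_le hcE hE) ((Subgroup.closure_le _).2 hSE)
        · conv_lhs => rw [hS]
          exact sup_le le_sup_right (le_sup_of_le_left le_sup_right)
      rwa [e] at this
  intro E hE
  refine main n E hE ((der_mono n le_top).trans ?_)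
  rw [der_top]; exact hn

end

section na
variable {G D : Type*} [Group G] [AddCommGroup D] [DistribMulAction G D]

theorem NA0_base {A : Set G} (h1 : (1 : G) ∈ A) (hact : ∀ a ∈ A, ∀ x : D, a • x = x) :
    NA0 D A := by
  intro X C _ hCX
  have e : ∀ Y : Set D, sp A Y = AddSubgroup.closure Y := by
    intro Y
    unfold sp
    congr 1
    ext y
    constructor
    · intro hy
      obtain ⟨a, ha, x, hx, rfl⟩ := Set.mem_smul.1 hy
      rw [hact a ha]; exact hx
    · intro hy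
      exact Set.mem_smul.2 ⟨1, h1, y, hy, one_smul _ _⟩
  rw [e] at hCX
  let N : Submodule ℤ D := Submodule.span ℤ (X : Set D)
  have hN : N.FG := Submodule.fg_span X.finite_toSet
  haveI := isNoetherian_of_fg_of_noetherian N hN
  have hfg : (AddSubgroup.toIntSubmodule C).FG := by
    refine (isNoetherian_submodule.1 this) _ ?_
    intro x hx
    have hx' : x ∈ AddSubgroup.closure (X : Set D) := hCX hx
    have : AddSubgroup.closure (X : Set D) ≤ N.toAddSubgroup := by
      rw [AddSubgroup.closure_le]; exact Submodule.subset_span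
    exact this hx'
  obtain ⟨X', hX'⟩ := hfg
  refine ⟨X', ?_⟩
  rw [e]
  apply le_antisymm
  · intro x hx
    have hx2 : x ∈ Submodule.span ℤ (X' : Set D) := by rw [hX']; exact hx
    have h3 : Submodule.span ℤ (X' : Set D) ≤
        AddSubgroup.toIntSubmodule (AddSubgroup.closure (X' : Set D)) := by
      rw [Submodule.span_le]; exact AddSubgroup.subset_closure
    exact h3 hx2
  · rw [AddSubgroup.closure_le]
    intro x hx
    have : x ∈ AddSubgroup.toIntSubmodule C := by rw [← hX']; exact Submodule.subset_span hx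
    exact this

theorem NA0_step {E : Subgroup G} {t : G} (ht : ∀ x ∈ E, t * x * t⁻¹ ∈ E)
    (ht' : ∀ x ∈ E, t⁻¹ * x * t ∈ E) (h : NA0 D (E : Set G)) :
    NA0 D ((E ⊔ Subgroup.zpowers t : Subgroup G) : Set G) := by
  let M' : Set G := {x | ∃ k : ℕ, ∃ m ∈ E, x = t ^ k * m}
  have h1 : NA0 D M' := hilbert (M := (E : Set G)) (M' := M') E.one_mem
    (fun a ha b hb => E.mul_mem ha hb) t ht ht' (fun x => Iff.rfl) h
  have hmem : ∀ (k : ℕ) (m : G), m ∈ E → t ^ k * m ∈ M' := fun k m hm => ⟨k, m, hm, rfl⟩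
  refine hilbert (M := M') (M' := ((E ⊔ Subgroup.zpowers t : Subgroup G) : Set G)) ?_ ?_ t⁻¹
    ?_ ?_ ?_ h1
  · exact ⟨0, 1, E.one_mem, by simp⟩
  · rintro _ ⟨k, m, hm, rfl⟩ _ ⟨l, n, hn, rfl⟩
    refine ⟨k + l, ((t ^ l)⁻¹ * m * t ^ l) * n,
      E.mul_mem (conj_pow_mem' (M := (E : Set G)) ht' l m hm) hn, ?_⟩
    rw [pow_add]; group
  · rintro _ ⟨k, m, hm, rfl⟩
    refine ⟨k, t⁻¹ * m * t, ht' m hm, ?_⟩
    have : Commute (t ^ k) t⁻¹ := ((Commute.refl t).pow_left k).inv_right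
    calc t⁻¹ * (t ^ k * m) * t⁻¹⁻¹ = t⁻¹ * t ^ k * m * t := by group
      _ = t ^ k * t⁻¹ * m * t := by rw [this.eq]
      _ = t ^ k * (t⁻¹ * m * t) := by group
  · rintro _ ⟨k, m, hm, rfl⟩
    refine ⟨k, t * m * t⁻¹, ht m hm, ?_⟩
    have : Commute (t ^ k) t := (Commute.refl t).pow_left k
    calc t⁻¹⁻¹ * (t ^ k * m) * t⁻¹ = t * t ^ k * m * t⁻¹ := by group
      _ = t ^ k * t * m * t⁻¹ := by rw [this.eq]
      _ = t ^ k * (t * m * t⁻¹) := by group
  · intro x
    rw [SetLike.mem_coe, mem_sup_zpowers E t ht ht']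
    constructor
    · rintro ⟨z, e, he, rfl⟩
      rcases Int.eq_nat_or_neg z with ⟨n, rfl | rfl⟩
      · exact ⟨0, t ^ n * e, ⟨n, e, he, rfl⟩, by simp⟩
      · exact ⟨n, e, ⟨0, e, he, by simp⟩, by simp⟩
    · rintro ⟨k, _, ⟨l, e, he, rfl⟩, rfl⟩
      refine ⟨(l : ℤ) - k, e, he, ?_⟩
      rw [zpow_sub, zpow_natCast, zpow_natCast, inv_pow]
      have : Commute (t ^ l) (t ^ k)⁻¹ := ((Commute.refl t).pow_pow l k).inv_right
      rw [this.eq]; group

theorem PolyMod.NA {A : Subgroup G} (hA : PolyMod A) (hact : ∀ a ∈ A, ∀ x : D, a • x = x)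
    (E : Subgroup G) (hE : A ≤ E) : NA0 D (E : Set G) :=
  hA.induction (P := fun E => NA0 D (E : Set G)) (NA0_base A.one_mem hact)
    (fun E t _ h ht ht' => NA0_step ht ht' h) E hE

end na

end Pool.Agent.H79.Asc
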