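import Mathlib

set_option autoImplicit false

open scoped Pointwise

namespace Pool.Agent.H79.Asc

section basic
variable {G D : Type*} [Group G] [AddCommGroup D] [DistribMulAction G D]

/-- The additive subgroup spanned by the products `w • x`. -/
def sp (W : Set G) (X : Set D) : AddSubgroup D := AddSubgroup.closure (W • X)

/-- `C` is stable under the elements of `M`. -/
def Stab (M : Set G) (C : AddSubgroup D) : Prop := ∀ m ∈ M, ∀ x ∈ C, m • x ∈ C

theorem sp_le {W : Set G} {X : Set D} {C : AddSubgroup D} :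
    sp W X ≤ C ↔ ∀ w ∈ W, ∀ x ∈ X, w • x ∈ C := by
  unfold sp
  rw [AddSubgroup.closure_le]
  constructor
  · intro h w hw x hx
    exact h (Set.smul_mem_smul hw hx)
  · rintro h y hy
    obtain ⟨w, hw, x, hx, rfl⟩ := Set.mem_smul.1 hy
    exact h w hw x hx

theorem smul_mem_sp {W : Set G} {X : Set D} {w : G} {x : D} (hw : w ∈ W) (hx : x ∈ X) :
    w • x ∈ sp W X :=
  AddSubgroup.subset_closure (Set.smul_mem_smul hw hx)

theorem sp_mono {W W' : Set G} {X X' : Set D} (h : W ⊆ W') (h' : X ⊆ X') :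
    sp W X ≤ sp W' X' :=
  sp_le.2 fun _ hw _ hx => smul_mem_sp (h hw) (h' hx)

theorem sp_induction {W : Set G} {X : Set D} {p : D → Prop}
    (h1 : ∀ w ∈ W, ∀ x ∈ X, p (w • x)) (h0 : p 0) (hadd : ∀ x y, p x → p y → p (x + y))
    (hneg : ∀ x, p x → p (-x)) {y : D} (hy : y ∈ sp W X) : p y := by
  unfold sp at hy
  induction hy using AddSubgroup.closure_induction with
  | mem x hx =>
    obtain ⟨w, hw, z, hz, rfl⟩ := Set.mem_smul.1 hx
    exact h1 w hw z hz
  | zero => exact h0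
  | add x y _ _ hx hy => exact hadd x y hx hy
  | neg x _ hx => exact hneg x hx

theorem smul_mem_of_sp {W W' : Set G} {X : Set D} {g : G} (h : ∀ w ∈ W, g * w ∈ W')
    {y : D} (hy : y ∈ sp W X) : g • y ∈ sp W' X := by
  refine sp_induction (p := fun y => g • y ∈ sp W' X) ?_ ?_ ?_ ?_ hy
  · intro w hw x hx
    rw [← mul_smul]
    exact smul_mem_sp (h w hw) hx
  · rw [smul_zero]; exact zero_mem _
  · intro x y hx hy
    rw [smul_add]; exact add_mem hx hy
  · intro x hx
    rw [smul_neg]; exact neg_mem hx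

theorem stab_sp {M W : Set G} {X : Set D} (h : ∀ m ∈ M, ∀ w ∈ W, m * w ∈ W) :
    Stab M (sp W X) := fun m hm _ hx => smul_mem_of_sp (h m hm) hx

theorem sp_sp (W W' : Set G) (X : Set D) : sp W (sp W' X : Set D) = sp (W * W') X := by
  apply le_antisymm
  · rw [sp_le]
    intro w hw x hx
    exact smul_mem_of_sp (fun w' hw' => Set.mul_mem_mul hw hw') hx
  · rw [sp_le]
    intro w hw x hx
    obtain ⟨a, ha, b, hb, rfl⟩ := Set.mem_mul.1 hw
    rw [mul_smul]
    exact smul_mem_sp ha (smul_mem_sp hb hx)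

theorem sp_union_right (W : Set G) (X X' : Set D) : sp W (X ∪ X') = sp W X ⊔ sp W X' := by
  unfold sp
  rw [Set.smul_union, AddSubgroup.closure_union]

theorem sp_union_left (W W' : Set G) (X : Set D) : sp (W ∪ W') X = sp W X ⊔ sp W' X := by
  unfold sp
  rw [Set.union_smul, AddSubgroup.closure_union]

theorem sp_empty_left (X : Set D) : sp (∅ : Set G) X = ⊥ := by
  unfold sp; simp

theorem sp_sup (W : Set G) (P Q : AddSubgroup D) :
    sp W ((P ⊔ Q : AddSubgroup D) : Set D) = sp W (P : Set D) ⊔ sp W (Q : Set D) := by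
  apply le_antisymm
  · rw [sp_le]
    intro w hw x hx
    obtain ⟨y, hy, z, hz, rfl⟩ := AddSubgroup.mem_sup.1 hx
    rw [smul_add]
    exact add_mem (AddSubgroup.mem_sup_left (smul_mem_sp hw hy))
      (AddSubgroup.mem_sup_right (smul_mem_sp hw hz))
  · exact sup_le (sp_mono le_rfl (by exact_mod_cast (le_sup_left : P ≤ P ⊔ Q)))
      (sp_mono le_rfl (by exact_mod_cast (le_sup_right : Q ≤ P ⊔ Q)))

theorem sp_closure (W : Set G) (X : Set D) :
    sp W (AddSubgroup.closure X : Set D) = sp W X := by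
  apply le_antisymm
  · rw [sp_le]
    intro w hw x hx
    induction hx using AddSubgroup.closure_induction with
    | mem x hx => exact smul_mem_sp hw hx
    | zero => rw [smul_zero]; exact zero_mem _
    | add x y _ _ hx hy => rw [smul_add]; exact add_mem hx hy
    | neg x _ hx => rw [smul_neg]; exact neg_mem hx
  · exact sp_mono le_rfl AddSubgroup.subset_closure

theorem sp_one (C : AddSubgroup D) : sp ({1} : Set G) (C : Set D) = C := by
  apply le_antisymm
  · rw [sp_le]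
    rintro w rfl x hx
    rw [one_smul]; exact hx
  · intro x hx
    have := smul_mem_sp (W := ({1} : Set G)) (X := (C : Set D)) (Set.mem_singleton 1) hx
    rwa [one_smul] at this

theorem subset_sp {M : Set G} {X : Set D} (h1 : (1 : G) ∈ M) : X ⊆ sp M X := by
  intro x hx
  have := smul_mem_sp (W := M) h1 hx
  rwa [one_smul] at this

theorem le_sp {M : Set G} {C : AddSubgroup D} (h1 : (1 : G) ∈ M) : C ≤ sp M (C : Set D) :=
  subset_sp h1

theorem sp_le_of_stab {M : Set G} {X : Set D} {C : AddSubgroup D} (hC : Stab M C)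
    (hX : X ⊆ C) : sp M X ≤ C := sp_le.2 fun m hm x hx => hC m hm x (hX hx)

theorem sp_eq_of_stab {M : Set G} {C : AddSubgroup D} (h1 : (1 : G) ∈ M) (hC : Stab M C) :
    sp M (C : Set D) = C := le_antisymm (sp_le_of_stab hC le_rfl) (le_sp h1)

theorem Stab.mono {M M' : Set G} {C : AddSubgroup D} (h : Stab M C) (hM : M' ⊆ M) : Stab M' C :=
  fun m hm x hx => h m (hM hm) x hx

theorem Stab.sup {M : Set G} {C C' : AddSubgroup D} (h : Stab M C) (h' : Stab M C') :
    Stab M (C ⊔ C') := by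
  intro m hm x hx
  obtain ⟨y, hy, z, hz, rfl⟩ := AddSubgroup.mem_sup.1 hx
  rw [smul_add]
  exact add_mem (AddSubgroup.mem_sup_left (h m hm y hy)) (AddSubgroup.mem_sup_right (h' m hm z hz))

theorem Stab.inf {M : Set G} {C C' : AddSubgroup D} (h : Stab M C) (h' : Stab M C') :
    Stab M (C ⊓ C') := fun m hm x hx => ⟨h m hm x hx.1, h' m hm x hx.2⟩

theorem Stab.iInf {ι : Sort*} {M : Set G} {C : ι → AddSubgroup D} (h : ∀ i, Stab M (C i)) :
    Stab M (⨅ i, C i) := by
  intro m hm x hx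
  rw [AddSubgroup.mem_iInf] at hx ⊢
  exact fun i => h i m hm x (hx i)

theorem stab_sSup {M : Set G} {S : Set (AddSubgroup D)} (h : ∀ C ∈ S, Stab M C) :
    Stab M (sSup S) := by
  intro m hm x hx
  rw [sSup_eq_iSup'] at hx
  induction hx using AddSubgroup.iSup_induction' with
  | hp i x hx => exact (le_sSup i.2 : _ ≤ sSup S) (h i.1 i.2 m hm x hx)
  | h1 => rw [smul_zero]; exact zero_mem _
  | hadd x y _ _ hx hy => rw [smul_add]; exact add_mem hx hy

theorem stab_bot (M : Set G) : Stab M (⊥ : AddSubgroup D) := by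
  intro m _ x hx
  rw [AddSubgroup.mem_bot] at hx ⊢
  rw [hx, smul_zero]

theorem stab_top (M : Set G) : Stab M (⊤ : AddSubgroup D) := fun _ _ _ _ => AddSubgroup.mem_top _

/-- elements of the span lie in the span of a finite subset of `W`. -/
theorem mem_sp_finite {W : Set G} {X : Set D} {y : D} (hy : y ∈ sp W X) :
    ∃ F : Finset G, (F : Set G) ⊆ W ∧ y ∈ sp (F : Set G) X := by
  classical
  refine sp_induction (p := fun y => ∃ F : Finset G, (F : Set G) ⊆ W ∧ y ∈ sp (F : Set G) X)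
    ?_ ?_ ?_ ?_ hy
  · intro w hw x hx
    refine ⟨{w}, by simpa using hw, ?_⟩
    exact smul_mem_sp (by simp) hx
  · exact ⟨∅, by simp, zero_mem _⟩
  · rintro x y ⟨F, hF, hx⟩ ⟨F', hF', hy⟩
    refine ⟨F ∪ F', by simp [hF, hF'], add_mem ?_ ?_⟩
    · exact sp_mono (by simp) le_rfl hx
    · exact sp_mono (by simp) le_rfl hy
  · rintro x ⟨F, hF, hx⟩
    exact ⟨F, hF, neg_mem hx⟩

end basic

section fg
variable {G D : Type*} [Group G] [AddCommGroup D] [DistribMulAction G D]

/-- `C` is finitely generated over `M` modulo `B`. -/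
def FGm (M : Set G) (B C : AddSubgroup D) : Prop := ∃ X : Finset D, C = sp M (X : Set D) ⊔ B

theorem FGm.le {M : Set G} {B C : AddSubgroup D} (h : FGm M B C) : B ≤ C := by
  obtain ⟨X, rfl⟩ := h; exact le_sup_right

theorem FGm.refl (M : Set G) (B : AddSubgroup D) : FGm M B B :=
  ⟨∅, by unfold sp; simp⟩

theorem FGm.sup {M : Set G} {B C C' : AddSubgroup D} (h : FGm M B C) (h' : FGm M B C') :
    FGm M B (C ⊔ C') := by
  classical
  obtain ⟨X, rfl⟩ := h
  obtain ⟨X', rfl⟩ := h'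
  refine ⟨X ∪ X', ?_⟩
  rw [Finset.coe_union, sp_union_right]
  apply le_antisymm
  · exact sup_le (sup_le (le_sup_of_le_left le_sup_left) le_sup_right)
      (sup_le (le_sup_of_le_left le_sup_right) le_sup_right)
  · exact sup_le (sup_le (le_sup_of_le_left le_sup_left) (le_sup_of_le_right le_sup_left))
      (le_sup_of_le_left le_sup_right)

theorem FGm.stab {M : Set G} {B C : AddSubgroup D} (h : FGm M B C)
    (hM : ∀ a ∈ M, ∀ b ∈ M, a * b ∈ M) (hB : Stab M B) : Stab M C := by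
  obtain ⟨X, rfl⟩ := h
  exact Stab.sup (stab_sp hM) hB

/-- enlarging the base -/
theorem FGm.sup_base {M : Set G} {B C B' : AddSubgroup D} (h : FGm M B C) :
    FGm M (B ⊔ B') (C ⊔ B') := by
  obtain ⟨X, rfl⟩ := h
  exact ⟨X, by rw [sup_assoc]⟩

theorem FGm.base {M : Set G} {B B' C : AddSubgroup D} (h : FGm M B C) (h1 : B ≤ B')
    (h2 : B' ≤ C) : FGm M B' C := by
  obtain ⟨X, rfl⟩ := h
  refine ⟨X, le_antisymm (sup_le_sup_left h1 _) (sup_le le_sup_left h2)⟩

theorem FGm.trans {M : Set G} {B C E : AddSubgroup D} (h : FGm M B C) (h' : FGm M C E) :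
    FGm M B E := by
  classical
  obtain ⟨X, rfl⟩ := h
  obtain ⟨X', rfl⟩ := h'
  refine ⟨X' ∪ X, ?_⟩
  rw [Finset.coe_union, sp_union_right, sup_assoc]

/-- over a bigger set `M'` -/
theorem FGm.up {M M' : Set G} {B C : AddSubgroup D} (h : FGm M B C) (hM : M ⊆ M')
    (hC : Stab M' C) (h1 : (1 : G) ∈ M) : FGm M' B C := by
  obtain ⟨X, rfl⟩ := h
  refine ⟨X, le_antisymm (sup_le_sup_right (sp_mono hM le_rfl) _) (sup_le ?_ le_sup_right)⟩
  exact sp_le_of_stab hC (fun x hx => AddSubgroup.mem_sup_left (subset_sp h1 hx))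

/-- absolute noetherian property -/
def NA0 (D : Type*) [AddCommGroup D] [DistribMulAction G D] (M : Set G) : Prop :=
  ∀ X : Finset D, ∀ C : AddSubgroup D, Stab M C → C ≤ sp M (X : Set D) →
    ∃ X' : Finset D, C = sp M (X' : Set D)

theorem NA0.rel {M : Set G} (h : NA0 D M) (hM : ∀ a ∈ M, ∀ b ∈ M, a * b ∈ M)
    {B C C' : AddSubgroup D} (hC : FGm M B C) (hBC' : B ≤ C') (hC'C : C' ≤ C)
    (hC' : Stab M C') : FGm M B C' := by
  obtain ⟨X, rfl⟩ := hC
  obtain ⟨X', hX'⟩ := h X (C' ⊓ sp M (X : Set D)) (hC'.inf (stab_sp hM)) inf_le_right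
  refine ⟨X', ?_⟩
  rw [← hX', inf_sup_assoc_of_le _ hBC', inf_eq_left.2 hC'C]

theorem conj_pow_mem {M : Set G} {t : G} (ht : ∀ m ∈ M, t * m * t⁻¹ ∈ M) (n : ℕ) :
    ∀ m ∈ M, t ^ n * m * (t ^ n)⁻¹ ∈ M := by
  induction n with
  | zero => intro m hm; simpa using hm
  | succ n ih =>
    intro m hm
    have := ht _ (ih m hm)
    have e : t ^ (n + 1) * m * (t ^ (n + 1))⁻¹ = t * (t ^ n * m * (t ^ n)⁻¹) * t⁻¹ := by
      rw [pow_succ']; group
    rw [e]; exact this

theorem conj_pow_mem' {M : Set G} {t : G} (ht : ∀ m ∈ M, t⁻¹ * m * t ∈ M) (n : ℕ) :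
    ∀ m ∈ M, (t ^ n)⁻¹ * m * t ^ n ∈ M := by
  induction n with
  | zero => intro m hm; simpa using hm
  | succ n ih =>
    intro m hm
    have := ih _ (ht m hm)
    have e : (t ^ (n + 1))⁻¹ * m * t ^ (n + 1) = (t ^ n)⁻¹ * (t⁻¹ * m * t) * t ^ n := by
      rw [pow_succ']; group
    rw [e]; exact this

/-- Hilbert basis theorem for adjoining a normalising element `t` to a monoid `M`. -/
theorem hilbert {M M' : Set G} (h1 : (1 : G) ∈ M) (hmul : ∀ a ∈ M, ∀ b ∈ M, a * b ∈ M) (t : G)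
    (ht : ∀ m ∈ M, t * m * t⁻¹ ∈ M) (ht' : ∀ m ∈ M, t⁻¹ * m * t ∈ M)
    (hM' : ∀ x, x ∈ M' ↔ ∃ k : ℕ, ∃ m ∈ M, x = t ^ k * m) (h : NA0 D M) : NA0 D M' := by
  classical
  intro X E hE hEX
  have hMM' : M ⊆ M' := fun m hm => (hM' m).2 ⟨0, m, hm, by simp⟩
  have htM' : ∀ k : ℕ, t ^ k ∈ M' := fun k => (hM' _).2 ⟨k, 1, h1, by simp⟩
  have hM'mul : ∀ a ∈ M', ∀ b ∈ M', a * b ∈ M' := by
    intro a ha b hb
    obtain ⟨k, m, hm, rfl⟩ := (hM' a).1 ha
    obtain ⟨l, n, hn, rfl⟩ := (hM' b).1 hb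
    refine (hM' _).2 ⟨k + l, ((t ^ l)⁻¹ * m * t ^ l) * n,
      hmul _ (conj_pow_mem' ht' l m hm) _ hn, ?_⟩
    rw [pow_add]; group
  set C0 : AddSubgroup D := sp M (X : Set D) with hC0
  have hC0s : Stab M C0 := stab_sp hmul
  let T : ℕ → Set G := fun n => {g | ∃ k < n, g = t ^ k}
  let Cn : ℕ → AddSubgroup D := fun n => sp (T n) (C0 : Set D)
  have hCnmono : ∀ {a b : ℕ}, a ≤ b → Cn a ≤ Cn b := by
    intro a b hab
    refine sp_mono ?_ le_rfl
    rintro g ⟨k, hk, rfl⟩
    exact ⟨k, lt_of_lt_of_le hk hab, rfl⟩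
  have hCns : ∀ n, Stab M (Cn n) := by
    intro n m hm y hy
    refine sp_induction (p := fun y => m • y ∈ Cn n) ?_ ?_ ?_ ?_ hy
    · rintro w ⟨k, hk, rfl⟩ x hx
      have e : m • t ^ k • x = t ^ k • (((t ^ k)⁻¹ * m * t ^ k) • x) := by
        rw [← mul_smul, ← mul_smul]; congr 1; group
      rw [e]
      exact smul_mem_sp ⟨k, hk, rfl⟩ (hC0s _ (conj_pow_mem' ht' k m hm) x hx)
    · rw [smul_zero]; exact zero_mem _
    · intro x y hx hy; rw [smul_add]; exact add_mem hx hy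
    · intro x hx; rw [smul_neg]; exact neg_mem hx
  have hshift : ∀ n k : ℕ, ∀ y ∈ Cn n, t ^ k • y ∈ Cn (n + k) := by
    intro n k y hy
    refine sp_induction (p := fun y => t ^ k • y ∈ Cn (n + k)) ?_ ?_ ?_ ?_ hy
    · rintro w ⟨j, hj, rfl⟩ x hx
      rw [← mul_smul, ← pow_add]
      exact smul_mem_sp ⟨k + j, by omega, rfl⟩ hx
    · rw [smul_zero]; exact zero_mem _
    · intro x y hx hy; rw [smul_add]; exact add_mem hx hy
    · intro x hx; rw [smul_neg]; exact neg_mem hx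
  have hsucc : ∀ n, ∀ y ∈ Cn (n + 1), ∃ c ∈ C0, ∃ b ∈ Cn n, y = t ^ n • c + b := by
    intro n y hy
    refine sp_induction (p := fun y => ∃ c ∈ C0, ∃ b ∈ Cn n, y = t ^ n • c + b)
      ?_ ?_ ?_ ?_ hy
    · rintro w ⟨j, hj, rfl⟩ x hx
      rcases Nat.lt_succ_iff_lt_or_eq.1 hj with h | rfl
      · exact ⟨0, zero_mem _, t ^ j • x, smul_mem_sp ⟨j, h, rfl⟩ hx, by simp⟩
      · exact ⟨x, hx, 0, zero_mem _, by simp⟩
    · exact ⟨0, zero_mem _, 0, zero_mem _, by simp⟩
    · rintro x y ⟨c, hc, b, hb, rfl⟩ ⟨c', hc', b', hb', rfl⟩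
      exact ⟨c + c', add_mem hc hc', b + b', add_mem hb hb', by rw [smul_add]; abel⟩
    · rintro x ⟨c, hc, b, hb, rfl⟩
      exact ⟨-c, neg_mem hc, -b, neg_mem hb, by rw [smul_neg]; abel⟩
  let L : ℕ → AddSubgroup D := fun n =>
    C0 ⊓ (E ⊔ Cn n).comap (DistribSMul.toAddMonoidHom D (t ^ n))
  have hLmem : ∀ n c, c ∈ L n ↔ c ∈ C0 ∧ t ^ n • c ∈ E ⊔ Cn n := fun n c => Iff.rfl
  have hLs : ∀ n, Stab M (L n) := by
    intro n m hm c hc
    rw [hLmem] at hc ⊢
    refine ⟨hC0s m hm c hc.1, ?_⟩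
    have e : t ^ n • m • c = (t ^ n * m * (t ^ n)⁻¹) • (t ^ n • c) := by
      rw [← mul_smul, ← mul_smul]; congr 1; group
    rw [e]
    exact ((hE.mono hMM').sup (hCns n)) _ (conj_pow_mem ht n m hm) _ hc.2
  have hLmono : Monotone L := by
    refine monotone_nat_of_le_succ fun n c hc => ?_
    rw [hLmem] at hc ⊢
    refine ⟨hc.1, ?_⟩
    obtain ⟨a, ha, b, hb, hab⟩ := AddSubgroup.mem_sup.1 hc.2
    rw [pow_succ', mul_smul, ← hab, smul_add]
    refine add_mem (AddSubgroup.mem_sup_left ?_) (AddSubgroup.mem_sup_right ?_)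
    · have := hE _ (htM' 1) a ha
      rwa [pow_one] at this
    · have := hshift n 1 b hb
      rwa [pow_one] at this
  obtain ⟨X0, hX0⟩ := h X (⨆ n, L n) (by
      rw [iSup]; exact stab_sSup (by rintro C ⟨n, rfl⟩; exact hLs n))
    (iSup_le fun n c hc => ((hLmem n c).1 hc).1)
  have hN : ∃ N, (X0 : Set D) ⊆ L N := by
    have hall : ∀ x ∈ X0, ∃ n, x ∈ L n := by
      intro x hx
      have : x ∈ ⨆ n, L n := by rw [hX0]; exact subset_sp h1 hx
      rwa [AddSubgroup.mem_iSup_of_directed hLmono.directed_le] at this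
    choose! f hf using hall
    refine ⟨X0.sup f, fun x hx => hLmono (Finset.le_sup hx) (hf x hx)⟩
  obtain ⟨N, hN⟩ := hN
  have hLN : ∀ n, L n ≤ L N := by
    intro n
    refine (le_iSup L n).trans ?_
    rw [hX0]
    exact sp_le_of_stab (hLs N) hN
  have hgen : ∀ n, ∃ Xn : Finset D, L n = sp M (Xn : Set D) := fun n =>
    h X (L n) (hLs n) (fun c hc => ((hLmem n c).1 hc).1)
  choose Xn hXn using hgen
  have hpick : ∀ n, ∀ x ∈ Xn n, ∃ a ∈ E, ∃ b ∈ Cn n, t ^ n • x = a + b := by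
    intro n x hx
    have hx' : x ∈ L n := by rw [hXn]; exact subset_sp h1 hx
    obtain ⟨a, ha, b, hb, hab⟩ := AddSubgroup.mem_sup.1 ((hLmem n x).1 hx').2
    exact ⟨a, ha, b, hb, hab.symm⟩
  choose! a ha b hb hab using hpick
  let X' : Finset D := (Finset.range (N + 1)).biUnion fun n => (Xn n).image (a n)
  have hX'E : (X' : Set D) ⊆ E := by
    intro y hy
    simp only [X', Finset.coe_biUnion, Finset.coe_range, Set.mem_iUnion, Finset.coe_image,
      Set.mem_image] at hy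
    obtain ⟨n, _, x, hx, rfl⟩ := hy
    exact ha n x hx
  have hX'le : sp M' (X' : Set D) ≤ E := sp_le_of_stab hE hX'E
  have hX's : Stab M' (sp M' (X' : Set D)) := stab_sp hM'mul
  have claim2 : ∀ n ≤ N, ∀ c ∈ L n, t ^ n • c ∈ sp M' (X' : Set D) ⊔ Cn n := by
    intro n hn c hc
    rw [hXn] at hc
    refine sp_induction (p := fun c => t ^ n • c ∈ sp M' (X' : Set D) ⊔ Cn n) ?_ ?_ ?_ ?_ hc
    · intro m hm x hx
      have e : t ^ n • m • x = (t ^ n * m * (t ^ n)⁻¹) • (t ^ n • x) := by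
        rw [← mul_smul, ← mul_smul]; congr 1; group
      rw [e, hab n x hx, smul_add]
      have hm' := conj_pow_mem ht n m hm
      refine add_mem (AddSubgroup.mem_sup_left ?_) (AddSubgroup.mem_sup_right ?_)
      · refine smul_mem_sp (hMM' hm') ?_
        simp only [X', Finset.coe_biUnion, Finset.coe_range, Set.mem_iUnion, Finset.coe_image,
          Set.mem_image]
        exact ⟨n, by simpa using Nat.lt_succ_of_le hn, x, hx, rfl⟩
      · exact hCns n _ hm' _ (hb n x hx)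
    · rw [smul_zero]; exact zero_mem _
    · intro x y hx hy; rw [smul_add]; exact add_mem hx hy
    · intro x hx; rw [smul_neg]; exact neg_mem hx
  have claim3 : ∀ n, ∀ c ∈ L n, t ^ n • c ∈ sp M' (X' : Set D) ⊔ Cn n := by
    intro n c hc
    rcases le_or_gt n N with hn | hn
    · exact claim2 n hn c hc
    · have := claim2 N le_rfl c (hLN n hc)
      obtain ⟨p, hp, q, hq, hpq⟩ := AddSubgroup.mem_sup.1 this
      have e : t ^ n • c = t ^ (n - N) • (t ^ N • c) := by
        rw [← mul_smul, ← pow_add]; congr 2; omega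
      rw [e, ← hpq, smul_add]
      refine add_mem (AddSubgroup.mem_sup_left (hX's _ (htM' _) p hp))
        (AddSubgroup.mem_sup_right ?_)
      have := hshift N (n - N) q hq
      rwa [show N + (n - N) = n by omega] at this
  have main : ∀ n, ∀ y ∈ E, y ∈ Cn n → y ∈ sp M' (X' : Set D) := by
    intro n
    induction n with
    | zero =>
      intro y _ hy
      have : Cn 0 = ⊥ := by
        have : T 0 = ∅ := by
          ext g; simp [T]
        simp only [Cn, this]
        exact sp_empty_left _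
      rw [this, AddSubgroup.mem_bot] at hy
      rw [hy]; exact zero_mem _
    | succ n ih =>
      intro y hyE hy
      obtain ⟨c, hc, b', hb', rfl⟩ := hsucc n y hy
      have hcL : c ∈ L n := by
        rw [hLmem]
        refine ⟨hc, ?_⟩
        have : t ^ n • c = (t ^ n • c + b') + (-b') := by abel
        rw [this]
        exact add_mem (AddSubgroup.mem_sup_left hyE) (AddSubgroup.mem_sup_right (neg_mem hb'))
      obtain ⟨p, hp, q, hq, hpq⟩ := AddSubgroup.mem_sup.1 (claim3 n c hcL)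
      have h3 : q + b' ∈ sp M' (X' : Set D) := by
        apply ih
        · have : q + b' = (t ^ n • c + b') - p := by rw [← hpq]; abel
          rw [this]
          exact sub_mem hyE (hX'le hp)
        · exact add_mem hq hb'
      have : t ^ n • c + b' = p + (q + b') := by rw [← hpq]; abel
      rw [this]
      exact add_mem hp h3
  refine ⟨X', le_antisymm ?_ hX'le⟩
  intro y hy
  have hyX := hEX hy
  have : ∃ n, y ∈ Cn n := by
    refine sp_induction (p := fun y => ∃ n, y ∈ Cn n) ?_ ?_ ?_ ?_ hyX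
    · intro w hw x hx
      obtain ⟨k, m, hm, rfl⟩ := (hM' w).1 hw
      refine ⟨k + 1, ?_⟩
      rw [mul_smul]
      exact smul_mem_sp ⟨k, by omega, rfl⟩ (smul_mem_sp hm hx)
    · exact ⟨0, zero_mem _⟩
    · rintro x y ⟨n, hn⟩ ⟨n', hn'⟩
      exact ⟨max n n', add_mem (hCnmono (le_max_left _ _) hn) (hCnmono (le_max_right _ _) hn')⟩
    · rintro x ⟨n, hn⟩
      exact ⟨n, neg_mem hn⟩
  obtain ⟨n, hn⟩ := this
  exact main n y hy hn

end fg

end Pool.Agent.H79.Asc
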